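import Pool.Agent.D0H40.SP.Core
import Pool.Agent.W263.BSD.Lead6
import Pool.Agent.W263.BSD.Order

/-! One-sided bounds, zeros and poles, and the order at the origin. -/

set_option autoImplicit false

namespace Pool.Agent.D0H40.SP

open MeasureTheory ProbabilityTheory Filter Topology Set
open Pool.Agent.W263.BSD
open Pool.Agent.D0H40.AR (order_zero eq_of_punctured)

variable {a : ℝ → ℝ} {Φ G : ℂ → ℂ} {c0 : ℝ}

/-- local boundedness -/
def Loc (a : ℝ → ℝ) : Prop := ∀ V : ℝ, ∃ K : ℝ, 0 ≤ K ∧ ∀ u ≤ V, |a u| ≤ K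

theorem MD.conv_up (D : MD a Φ G c0) (hloc : Loc a) {w0 : ℝ} (hw0 : 0 ≤ w0)
    (hp : ∀ s : ℝ, w0 < s → 0 ≤ meromorphicOrderAt Φ (s : ℂ))
    (h : ∀ ε > 0, ∀ᶠ u in atTop, a u ≤ Real.exp ((w0 + ε) * u)) : ∀ w > w0, LInt a w := by
  intro w hw
  set e : ℝ := (w - w0) / 2 with he
  have he0 : 0 < e := by rw [he]; linarith
  obtain ⟨U, hU⟩ := eventually_atTop.mp (h e he0)
  obtain ⟨K, hK0, hK⟩ := hloc U
  set κ : ℝ → ℝ := fun u => ex (w0 + e) u + K * ex 0 u with hκ
  have hκm : Measurable κ := (ex_meas _).add ((ex_meas 0).const_mul _)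
  have hκi : ∀ w' > w0 + e, LInt κ w' := fun w' hw' =>
    (ex_LInt hw').add ((ex_LInt (by linarith)).const_mul _)
  have hle : ∀ u, 0 < u → a u ≤ κ u := by
    intro u hu
    rw [hκ]
    simp only [ex, zero_mul, Real.exp_zero, mul_one]
    rcases le_or_gt U u with h2 | h2
    · have h3 := hU u h2
      linarith
    · have h3 := (abs_le.mp (hK u h2.le)).2
      have := Real.exp_pos ((w0 + e) * u)
      linarith
  refine D.core (by linarith) hκm hκi (Or.inl rfl) (fun u hu => ?_) (fun s hs hconv => ?_) w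
    (by rw [he]; linarith)
  · have := hle u hu
    linarith
  · exact le_antisymm (D.no_zero (by linarith) hκm hκi hle hs hconv) (hp s (by linarith))

theorem MD.conv_down (D : MD a Φ G c0) (hloc : Loc a) {w0 : ℝ} (hw0 : 0 ≤ w0)
    (hp : ∀ s : ℝ, w0 < s → meromorphicOrderAt Φ (s : ℂ) ≤ 0)
    (h : ∀ ε > 0, ∀ᶠ u in atTop, -Real.exp ((w0 + ε) * u) ≤ a u) : ∀ w > w0, LInt a w := by
  intro w hw
  set e : ℝ := (w - w0) / 2 with he
  have he0 : 0 < e := by rw [he]; linarith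
  obtain ⟨U, hU⟩ := eventually_atTop.mp (h e he0)
  obtain ⟨K, hK0, hK⟩ := hloc U
  set κ : ℝ → ℝ := fun u => (-1) * ex (w0 + e) u + (-K) * ex 0 u with hκ
  have hκm : Measurable κ := ((ex_meas _).const_mul _).add ((ex_meas 0).const_mul _)
  have hκi : ∀ w' > w0 + e, LInt κ w' := fun w' hw' =>
    ((ex_LInt hw').const_mul _).add ((ex_LInt (by linarith)).const_mul _)
  have hle : ∀ u, 0 < u → κ u ≤ a u := by
    intro u hu
    rw [hκ]
    simp only [ex, zero_mul, Real.exp_zero, mul_one]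
    rcases le_or_gt U u with h2 | h2
    · have h3 := hU u h2
      linarith
    · have h3 := (abs_le.mp (hK u h2.le)).1
      have := Real.exp_pos ((w0 + e) * u)
      linarith
  refine D.core (by linarith) hκm hκi (Or.inr rfl) (fun u hu => ?_) (fun s hs hconv => ?_) w
    (by rw [he]; linarith)
  · have := hle u hu
    linarith
  · exact le_antisymm (hp s (by linarith)) (D.no_pole (by linarith) hκm hκi hle hs hconv)

/-- zeros and poles are isolated -/
theorem MD.isolated (D : MD a Φ G c0) {z : ℂ} (hz : 0 < z.re) :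
    ∀ᶠ y in 𝓝[≠] z, meromorphicOrderAt Φ y = 0 := by
  have h1 := (D.mero z hz).eventually_analyticAt
  rcases (D.mero z hz).eventually_eq_zero_or_eventually_ne_zero with h2 | h2
  · exact absurd (meromorphicOrderAt_eq_top_iff.2 h2) (D.order_ne_top hz)
  · filter_upwards [h1, h2] with y h3 h4
    exact order_zero h3 h4

/-- the largest real point with a given kind of order -/
theorem MD.largest (D : MD a Φ G c0) {Q : WithTop ℤ → Prop} (hQ : ¬ Q 0) :
    ∃ w0 : ℝ, 0 ≤ w0 ∧ (∀ w : ℝ, w0 < w → ¬ Q (meromorphicOrderAt Φ (w : ℂ))) ∧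
      (0 < w0 → Q (meromorphicOrderAt Φ (w0 : ℂ))) := by
  set Z : Set ℝ := {w | 0 < w ∧ Q (meromorphicOrderAt Φ (w : ℂ))} with hZ
  by_cases hne : Z.Nonempty
  · have hb : BddAbove Z := by
      refine ⟨c0, fun w hw => ?_⟩
      by_contra hcon
      push Not at hcon
      have h1 := D.order_far (z := (w : ℂ)) (by rwa [Complex.ofReal_re])
      have h2 := hw.2
      rw [h1] at h2
      exact hQ h2
    obtain ⟨z, hz⟩ := hne
    have hpos : 0 < sSup Z := lt_of_lt_of_le hz.1 (le_csSup hb hz)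
    refine ⟨sSup Z, hpos.le, fun w hw h0 => ?_, fun _ => ?_⟩
    · have : w ∈ Z := ⟨hpos.trans hw, h0⟩
      have := le_csSup hb this
      linarith
    · by_contra hc
      have h1 := D.isolated (z := ((sSup Z : ℝ) : ℂ)) (by rwa [Complex.ofReal_re])
      have h2 : Tendsto (fun w : ℝ => (w : ℂ)) (𝓝[<] (sSup Z)) (𝓝[≠] ((sSup Z : ℝ) : ℂ)) := by
        rw [tendsto_nhdsWithin_iff]
        refine ⟨tendsto_nhdsWithin_of_tendsto_nhds (Complex.continuous_ofReal.tendsto _), ?_⟩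
        filter_upwards [self_mem_nhdsWithin] with w hw
        have hw' : w < sSup Z := hw
        exact fun h => hw'.ne (Complex.ofReal_injective (Set.mem_singleton_iff.1 h))
      have h3 := h2.eventually h1
      obtain ⟨l, hl, hls⟩ := mem_nhdsLT_iff_exists_Ioo_subset.mp h3
      have hl' : l < sSup Z := hl
      obtain ⟨y, hy, hly⟩ := exists_lt_of_lt_csSup ⟨z, hz⟩ hl'
      have hle := le_csSup hb hy
      rcases hle.eq_or_lt with h4 | h4
      · rw [h4] at hy
        exact hc hy.2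
      · have h5 := hls ⟨hly, h4⟩
        have h6 : meromorphicOrderAt Φ (y : ℂ) = 0 := h5
        have h7 := hy.2
        rw [h6] at h7
        exact hQ h7
  · exact ⟨0, le_rfl, fun w hw h0 => hne ⟨w, hw, h0⟩, fun h => absurd h (lt_irrefl 0)⟩

/-- the Riemann hypothesis -/
def RHm (Φ : ℂ → ℂ) : Prop := ∀ z : ℂ, 0 < z.re → meromorphicOrderAt Φ z = 0

/-- a real zero dominates -/
def ZDom (Φ : ℂ → ℂ) : Prop :=
  ∃ s : ℝ, 0 < s ∧ 0 < meromorphicOrderAt Φ (s : ℂ) ∧ ∀ z : ℂ, s < z.re → meromorphicOrderAt Φ z = 0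

/-- a real pole dominates -/
def PDom (Φ : ℂ → ℂ) : Prop :=
  ∃ s : ℝ, 0 < s ∧ meromorphicOrderAt Φ (s : ℂ) < 0 ∧ ∀ z : ℂ, s < z.re → meromorphicOrderAt Φ z = 0

theorem MD.rh_up (D : MD a Φ G c0) (hloc : Loc a) (hd : ¬ PDom Φ)
    (h : ∀ ε > 0, ∀ᶠ u in atTop, a u ≤ Real.exp (ε * u)) : RHm Φ := by
  obtain ⟨w0, h0, h1, h2⟩ := D.largest (Q := fun x => x < 0) (lt_irrefl _)
  have hconv := D.conv_up hloc h0 (fun s hs => not_lt.1 (h1 s hs)) fun ε hε => by
    filter_upwards [h ε hε, eventually_gt_atTop 0] with u h3 hu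
    refine h3.trans (Real.exp_le_exp.2 ?_)
    nlinarith
  rcases h0.eq_or_lt with h3 | h3
  · intro z hz
    exact D.order_conv h0 hconv (by linarith)
  · exact absurd ⟨w0, h3, h2 h3, fun z hz => D.order_conv h0 hconv hz⟩ hd

theorem MD.rh_down (D : MD a Φ G c0) (hloc : Loc a) (hd : ¬ ZDom Φ)
    (h : ∀ ε > 0, ∀ᶠ u in atTop, -Real.exp (ε * u) ≤ a u) : RHm Φ := by
  obtain ⟨w0, h0, h1, h2⟩ := D.largest (Q := fun x => 0 < x) (lt_irrefl _)
  have hconv := D.conv_down hloc h0 (fun s hs => not_lt.1 (h1 s hs)) fun ε hε => by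
    filter_upwards [h ε hε, eventually_gt_atTop 0] with u h3 hu
    refine le_trans (neg_le_neg (Real.exp_le_exp.2 ?_)) h3
    nlinarith
  rcases h0.eq_or_lt with h3 | h3
  · intro z hz
    exact D.order_conv h0 hconv (by linarith)
  · exact absurd ⟨w0, h3, h2 h3, fun z hz => D.order_conv h0 hconv hz⟩ hd

/-! ### Large and small values -/

theorem exp_absorb {θ ε : ℝ} (_hθ : 0 ≤ θ) (hε : 0 < ε) :
    ∀ᶠ u : ℝ in atTop, 2 * Real.exp u ^ θ ≤ Real.exp ((θ + ε) * u) := by
  have h4 : Tendsto (fun u : ℝ => Real.exp (ε * u)) atTop atTop :=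
    Real.tendsto_exp_atTop.comp (tendsto_id.const_mul_atTop hε)
  filter_upwards [h4.eventually (eventually_ge_atTop 2), eventually_gt_atTop 0] with u h4 hu
  have h7 : Real.exp u ^ θ = Real.exp (θ * u) := by
    rw [← Real.exp_mul]; congr 1; ring
  have h8 : Real.exp ((θ + ε) * u) = Real.exp (θ * u) * Real.exp (ε * u) := by
    rw [← Real.exp_add]; congr 1; ring
  rw [h7, h8]
  nlinarith [Real.exp_pos (θ * u)]

theorem MD.omega_plus (D : MD a Φ G c0) (hloc : Loc a) {θ : ℝ} (hθ : 0 ≤ θ)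
    (hz : ∃ z : ℂ, θ < z.re ∧ meromorphicOrderAt Φ z ≠ 0)
    (hp : ∀ s : ℝ, θ < s → 0 ≤ meromorphicOrderAt Φ (s : ℂ)) :
    ∃ᶠ u : ℝ in atTop, 2 * Real.exp u ^ θ < a u := by
  by_contra hcon
  rw [not_frequently] at hcon
  obtain ⟨z, hz1, hz2⟩ := hz
  refine hz2 (D.order_conv hθ (D.conv_up hloc hθ hp fun ε hε => ?_) hz1)
  filter_upwards [hcon, exp_absorb hθ hε] with u h1 h2
  push Not at h1
  linarith

theorem MD.omega_minus (D : MD a Φ G c0) (hloc : Loc a) {θ : ℝ} (hθ : 0 ≤ θ)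
    (hz : ∃ z : ℂ, θ < z.re ∧ meromorphicOrderAt Φ z ≠ 0)
    (hp : ∀ s : ℝ, θ < s → meromorphicOrderAt Φ (s : ℂ) ≤ 0) :
    ∃ᶠ u : ℝ in atTop, a u < -(2 * Real.exp u ^ θ) := by
  by_contra hcon
  rw [not_frequently] at hcon
  obtain ⟨z, hz1, hz2⟩ := hz
  refine hz2 (D.order_conv hθ (D.conv_down hloc hθ hp fun ε hε => ?_) hz1)
  filter_upwards [hcon, exp_absorb hθ hε] with u h1 h2
  push Not at h1
  linarith

/-! ### The behaviour at the origin -/

/-- the order `M` and the leading coefficient `C` at the origin, and the limit of `G` -/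
structure Lead (Φ G : ℂ → ℂ) (M : ℤ) (C g0 : ℝ) : Prop where
  mero : MeromorphicAt Φ 0
  ord : meromorphicOrderAt Φ 0 = M
  pos : 0 < C
  lim : Tendsto (fun z : ℂ => ‖Φ z‖ / ‖z‖ ^ M) (𝓝[≠] 0) (𝓝 C)
  glim : Tendsto (fun w : ℝ => (G w).re) (𝓝[>] 0) (𝓝 g0)

variable {M : ℤ} {C g0 : ℝ}

theorem MD.near_zero (D : MD a Φ G c0) (H : Lead Φ G M C g0) (h : ∀ w > 0, LInt a w) :
    Tendsto (fun w : ℝ => (G w).re - w * lap a w - M * Real.log w) (𝓝[>] 0) (𝓝 (Real.log C)) := by
  have hm : MeromorphicAt Φ ((0 : ℝ) : ℂ) := by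
    rw [Complex.ofReal_zero]
    exact H.mero
  have ho : meromorphicOrderAt Φ ((0 : ℝ) : ℂ) = M := by
    rw [Complex.ofReal_zero]
    exact H.ord
  obtain ⟨g, hg1, hg2, hg3, hg4⟩ := D.rep le_rfl h hm ho
  rw [Complex.ofReal_zero] at hg1 hg2
  simp only [sub_zero] at hg3
  have hgc : Tendsto g (𝓝[≠] 0) (𝓝 (g 0)) := hg1.continuousAt.tendsto.mono_left nhdsWithin_le_nhds
  simp only [Complex.ofReal_zero, sub_zero] at hg4
  have hC : ‖g 0‖ = C := by
    refine tendsto_nhds_unique hgc.norm (H.lim.congr' ?_)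
    filter_upwards [hg4, self_mem_nhdsWithin] with z h1 h2
    have hz : z ≠ 0 := h2
    have : ‖z‖ ^ M ≠ 0 := zpow_ne_zero _ (norm_ne_zero_iff.2 hz)
    rw [h1, smul_eq_mul, norm_mul, norm_zpow]
    field_simp
  have h2 : Tendsto (fun w : ℝ => (w : ℂ)) (𝓝[>] (0 : ℝ)) (𝓝 (0 : ℂ)) := by
    have := tendsto_nhdsWithin_of_tendsto_nhds (s := Ioi (0 : ℝ)) (Complex.continuous_ofReal.tendsto 0)
    rwa [Complex.ofReal_zero] at this
  have h3 : Tendsto (fun w : ℝ => Real.log ‖g w‖) (𝓝[>] 0) (𝓝 (Real.log C)) := by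
    have h4 := (hg1.continuousAt.tendsto.comp h2).norm
    rw [hC] at h4
    exact h4.log H.pos.ne'
  refine h3.congr' ?_
  filter_upwards [hg3, self_mem_nhdsWithin, (hg1.continuousAt.tendsto.comp h2).eventually_ne hg2]
    with w h4 h5 h6
  have hw : (0 : ℝ) < w := h5
  have h7 : ‖g w‖ ≠ 0 := norm_ne_zero_iff.2 h6
  have h8 := congrArg (fun z => Real.log ‖z‖) h4
  rw [D.real hw, Complex.norm_real, Real.norm_of_nonneg (Real.exp_pos _).le, Real.log_exp, norm_mul,
    norm_zpow, Complex.norm_real, Real.norm_of_nonneg hw.le, Real.log_mul (zpow_ne_zero _ hw.ne') h7,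
    Real.log_zpow] at h8
  linarith

theorem MD.abel_lim (D : MD a Φ G c0) (H : Lead Φ G M C g0) (h : ∀ w > 0, LInt a w) :
    Tendsto (fun w : ℝ => w * lap (fun u => a u - M * ell u) w) (𝓝[>] 0)
      (𝓝 (g0 - Real.log C + M * Real.eulerMascheroniConstant)) := by
  have h1 := (H.glim.sub (D.near_zero H h)).sub (ell_lap_limit.const_mul (M : ℝ))
  have e : g0 - Real.log C - M * -Real.eulerMascheroniConstant =
      g0 - Real.log C + M * Real.eulerMascheroniConstant := by ring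
  rw [e] at h1
  refine h1.congr' ?_
  filter_upwards [self_mem_nhdsWithin] with w hw
  have hw0 : (0 : ℝ) < w := hw
  rw [lap_sub (h w hw0) ((ell_LInt hw0).const_mul _), lap_const_mul]
  ring

theorem ell_small {ε : ℝ} (hε : 0 < ε) (B M : ℝ) :
    ∀ᶠ u : ℝ in atTop, |B + M * ell u| ≤ Real.exp (ε * u) := by
  have h1 : Tendsto (fun u : ℝ => Real.exp (ε * u) / u) atTop atTop := by
    have h2 : Tendsto (fun u : ℝ => ε * (Real.exp (ε * u) / (ε * u))) atTop atTop := by
      have h3 := (Real.tendsto_exp_div_pow_atTop 1).comp (tendsto_id.const_mul_atTop hε)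
      refine Tendsto.const_mul_atTop hε (h3.congr fun u => ?_)
      simp only [Function.comp_apply, id, pow_one]
    refine h2.congr' ?_
    filter_upwards [eventually_gt_atTop 0] with u hu
    field_simp
  filter_upwards [h1.eventually (eventually_ge_atTop (|B| + 4 * |M|)), eventually_ge_atTop 2] with u h2 hu
  have hu0 : (0 : ℝ) < u := by linarith
  rw [le_div_iff₀ hu0] at h2
  have h3 := ell_le hu
  have h4 := ell_nonneg hu0.le
  have h5 := Real.log_le_sub_one_of_pos hu0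
  have h6 : ell u ≤ u := by linarith
  have h7 : |B + M * ell u| ≤ |B| + |M| * ell u := by
    refine (abs_add_le _ _).trans ?_
    rw [abs_mul, abs_of_nonneg (by linarith : 0 ≤ ell u)]
  have h8 : |M| * ell u ≤ |M| * u := mul_le_mul_of_nonneg_left h6 (abs_nonneg M)
  have h9 : |B| ≤ |B| * u := le_mul_of_one_le_right (abs_nonneg B) (by linarith)
  have := mul_nonneg (abs_nonneg M) hu0.le
  nlinarith

theorem ell_loc (B M V : ℝ) : ∃ K : ℝ, 0 ≤ K ∧ ∀ u : ℝ, 0 < u → u ≤ V → |B + M * ell u| ≤ K := by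
  refine ⟨|B| + |M| * |ell V|, by positivity, fun u hu hV => ?_⟩
  refine (abs_add_le _ _).trans ?_
  rw [abs_mul]
  have h1 := ell_nonneg hu.le
  have h2 := ell_mono hu.le hV
  have h3 : |ell u| ≤ |ell V| := by
    rw [abs_of_nonneg (by linarith), abs_of_nonneg (by linarith)]
    exact h2
  have := mul_le_mul_of_nonneg_left h3 (abs_nonneg M)
  linarith

/-- **Brackets.** -/
theorem MD.bracket_up (D : MD a Φ G c0) (hloc : Loc a) (H : Lead Φ G M C g0)
    (hp : ∀ s : ℝ, 0 < s → 0 ≤ meromorphicOrderAt Φ (s : ℂ)) {B : ℝ}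
    (hB : B < g0 - Real.log C + M * Real.eulerMascheroniConstant) :
    ∃ᶠ u : ℝ in atTop, B < a u - M * ell u := by
  by_contra hcon
  rw [not_frequently] at hcon
  have hconv : ∀ w > 0, LInt a w := D.conv_up hloc le_rfl hp fun ε hε => by
    filter_upwards [hcon, ell_small hε B M] with u h1 h2
    push Not at h1
    have := (abs_le.1 h2).2
    rw [zero_add]
    linarith
  obtain ⟨U, hU⟩ := eventually_atTop.1 hcon
  obtain ⟨K1, hK1, h1⟩ := hloc (max U 0)
  obtain ⟨K2, hK2, h2⟩ := ell_loc 0 M (max U 0)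
  have hi : ∀ w > 0, LInt (fun u => a u - M * ell u) w := fun w hw =>
    (hconv w hw).sub ((ell_LInt hw).const_mul _)
  have h3 := abel_le hi (le_max_right U 0) (add_nonneg hK1 hK2) (D.abel_lim H hconv) (B := B)
    (fun u hu => by
      have := hU u (le_trans (le_max_left _ _) hu.le)
      push Not at this
      exact this) (fun u hu hle => by
      have e1 := (abs_le.1 (h1 u hle)).2
      have e2 := (abs_le.1 (h2 u hu hle)).1
      rw [zero_add] at e2
      linarith)
  linarith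

theorem MD.bracket_down (D : MD a Φ G c0) (hloc : Loc a) (H : Lead Φ G M C g0)
    (hp : ∀ s : ℝ, 0 < s → meromorphicOrderAt Φ (s : ℂ) ≤ 0) {B : ℝ}
    (hB : g0 - Real.log C + M * Real.eulerMascheroniConstant < B) :
    ∃ᶠ u : ℝ in atTop, a u - M * ell u < B := by
  by_contra hcon
  rw [not_frequently] at hcon
  have hconv : ∀ w > 0, LInt a w := D.conv_down hloc le_rfl hp fun ε hε => by
    filter_upwards [hcon, ell_small hε B M] with u h1 h2
    push Not at h1
    have := (abs_le.1 h2).1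
    rw [zero_add]
    linarith
  obtain ⟨U, hU⟩ := eventually_atTop.1 hcon
  obtain ⟨K1, hK1, h1⟩ := hloc (max U 0)
  obtain ⟨K2, hK2, h2⟩ := ell_loc 0 M (max U 0)
  have hi : ∀ w > 0, LInt (fun u => -(a u - M * ell u)) w := fun w hw =>
    ((hconv w hw).sub ((ell_LInt hw).const_mul _)).neg
  have h4 := (D.abel_lim H hconv).neg
  have h5 : Tendsto (fun w : ℝ => w * lap (fun u => -(a u - M * ell u)) w) (𝓝[>] 0)
      (𝓝 (-(g0 - Real.log C + M * Real.eulerMascheroniConstant))) := by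
    refine h4.congr fun w => ?_
    rw [lap_neg']
    ring
  have h3 := abel_le hi (le_max_right U 0) (add_nonneg hK1 hK2) h5 (B := -B)
    (fun u hu => by
      have := hU u (le_trans (le_max_left _ _) hu.le)
      push Not at this
      linarith) (fun u hu hle => by
      have e1 := (abs_le.1 (h1 u hle)).1
      have e2 := (abs_le.1 (h2 u hu hle)).2
      rw [zero_add] at e2
      linarith)
  linarith

theorem ell_log {δ : ℝ} (hδ : 0 < δ) (M : ℝ) : ∀ᶠ u : ℝ in atTop, |M * ell u - M * Real.log u| ≤ δ := by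
  have h1 := (ell_sub_log.const_mul M).abs
  rw [mul_zero, abs_zero] at h1
  filter_upwards [h1.eventually (gt_mem_nhds hδ)] with u hu
  rw [← mul_sub]
  exact hu.le

theorem MD.log_up (D : MD a Φ G c0) (hloc : Loc a) (H : Lead Φ G M C g0)
    (hp : ∀ s : ℝ, 0 < s → 0 ≤ meromorphicOrderAt Φ (s : ℂ)) {B : ℝ}
    (hB : B < g0 - Real.log C + M * Real.eulerMascheroniConstant) :
    ∃ᶠ u : ℝ in atTop, B < a u - M * Real.log u := by
  set δ : ℝ := (g0 - Real.log C + M * Real.eulerMascheroniConstant - B) / 2 with hδ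
  have hδ0 : 0 < δ := by rw [hδ]; linarith
  refine ((D.bracket_up hloc H hp (B := B + δ) (by rw [hδ]; linarith)).and_eventually
    (ell_log hδ0 M)).mono ?_
  rintro u ⟨h1, h2⟩
  have := (abs_le.1 h2).1
  linarith

theorem MD.log_down (D : MD a Φ G c0) (hloc : Loc a) (H : Lead Φ G M C g0)
    (hp : ∀ s : ℝ, 0 < s → meromorphicOrderAt Φ (s : ℂ) ≤ 0) {B : ℝ}
    (hB : g0 - Real.log C + M * Real.eulerMascheroniConstant < B) :
    ∃ᶠ u : ℝ in atTop, a u - M * Real.log u < B := by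
  set δ : ℝ := (B - (g0 - Real.log C + M * Real.eulerMascheroniConstant)) / 2 with hδ
  have hδ0 : 0 < δ := by rw [hδ]; linarith
  refine ((D.bracket_down hloc H hp (B := B - δ) (by rw [hδ]; linarith)).and_eventually
    (ell_log hδ0 M)).mono ?_
  rintro u ⟨h1, h2⟩
  have := (abs_le.1 h2).2
  linarith

end Pool.Agent.D0H40.SP
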