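import Pool.Agent.W263.BSD.Lead5
import Pool.Agent.D0H40.AR.Sector

/-! One-sided bounds for `a` and meromorphic continuations of `exp (G - w lap a)`. -/

set_option autoImplicit false

namespace Pool.Agent.D0H40.SP

open MeasureTheory ProbabilityTheory Filter Topology Set
open Pool.Agent.W263.BSD
open Pool.Agent.D0H40.AR (order_zero eq_of_punctured)

/-- The data: `Φ z = exp (G z - z * lapC a z)` for `re z > c0`, with `Φ` meromorphic for `re z > 0`. -/
structure MD (a : ℝ → ℝ) (Φ G : ℂ → ℂ) (c0 : ℝ) : Prop where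
  meas : Measurable a
  c0_nonneg : 0 ≤ c0
  int : ∀ w > c0, LInt a w
  mero : ∀ z : ℂ, 0 < z.re → MeromorphicAt Φ z
  hG : ∀ z : ℂ, 0 < z.re → DifferentiableAt ℂ G z
  hGre : ∀ w : ℝ, 0 < w → (G w).im = 0
  eq : ∀ z : ℂ, c0 < z.re → Φ z = Complex.exp (G z - z * lapC a z)

variable {a : ℝ → ℝ} {Φ G : ℂ → ℂ} {c0 : ℝ}

/-- the exponential -/
noncomputable def ee (a : ℝ → ℝ) (G : ℂ → ℂ) (z : ℂ) : ℂ := Complex.exp (G z - z * lapC a z)

theorem MD.ee_diff (D : MD a Φ G c0) {s : ℝ} (hs : 0 ≤ s) (h : ∀ w > s, LInt a w) :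
    DifferentiableOn ℂ (ee a G) {z : ℂ | s < z.re} := by
  intro z hz
  have hz' : s < z.re := hz
  refine DifferentiableAt.differentiableWithinAt ?_
  refine DifferentiableAt.cexp ?_
  exact (D.hG z (by linarith)).sub (differentiableAt_id.mul (lapC_differentiableAt D.meas h hz'))

theorem MD.ee_an (D : MD a Φ G c0) {s : ℝ} (hs : 0 ≤ s) (h : ∀ w > s, LInt a w) {z : ℂ}
    (hz : s < z.re) : AnalyticAt ℂ (ee a G) z :=
  (D.ee_diff hs h).analyticAt ((isOpen_half s).mem_nhds hz)

theorem MD.order_far (D : MD a Φ G c0) {z : ℂ} (hz : c0 < z.re) : meromorphicOrderAt Φ z = 0 := by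
  have h1 : Φ =ᶠ[𝓝[≠] z] ee a G := by
    refine eventually_nhdsWithin_of_eventually_nhds ?_
    filter_upwards [(isOpen_half c0).mem_nhds hz] with y hy
    exact D.eq y hy
  rw [meromorphicOrderAt_congr h1]
  exact order_zero (D.ee_an D.c0_nonneg D.int hz) (Complex.exp_ne_zero _)

theorem MD.order_ne_top (D : MD a Φ G c0) {z : ℂ} (hz : 0 < z.re) : meromorphicOrderAt Φ z ≠ ⊤ := by
  have hm : MeromorphicOn Φ {z : ℂ | 0 < z.re} := fun z hz => D.mero z hz
  have h0 := D.c0_nonneg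
  have h1 : ((c0 + 1 : ℝ) : ℂ) ∈ {z : ℂ | 0 < z.re} := by
    show 0 < (((c0 + 1 : ℝ) : ℂ)).re
    rw [Complex.ofReal_re]
    linarith
  refine hm.meromorphicOrderAt_ne_top_of_isPreconnected (preconn_half 0) h1 hz ?_
  rw [D.order_far (by rw [Complex.ofReal_re]; linarith)]
  exact WithTop.zero_ne_top

/-- the identity extends to the half plane of convergence -/
theorem MD.near (D : MD a Φ G c0) {s : ℝ} (hs : 0 ≤ s) (h : ∀ w > s, LInt a w) {z : ℂ}
    (hz : s < z.re) : Φ =ᶠ[𝓝[≠] z] ee a G := by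
  have hgm : MeromorphicOn (fun z => Φ z - ee a G z) {z : ℂ | s < z.re} := by
    intro y hy
    have hy' : s < y.re := hy
    exact (D.mero y (by linarith)).sub (D.ee_an hs h hy').meromorphicAt
  have h1 : ((max s c0 + 1 : ℝ) : ℂ) ∈ {z : ℂ | s < z.re} := by
    show s < (((max s c0 + 1 : ℝ) : ℂ)).re
    rw [Complex.ofReal_re]
    have := le_max_left s c0
    linarith
  have htop : meromorphicOrderAt (fun z => Φ z - ee a G z) ((max s c0 + 1 : ℝ) : ℂ) = ⊤ := by
    rw [meromorphicOrderAt_eq_top_iff]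
    refine eventually_nhdsWithin_of_eventually_nhds ?_
    have h2 : c0 < (((max s c0 + 1 : ℝ) : ℂ)).re := by
      rw [Complex.ofReal_re]
      have := le_max_right s c0
      linarith
    filter_upwards [(isOpen_half c0).mem_nhds h2] with y hy
    rw [D.eq y hy]
    exact sub_self _
  have htop2 : meromorphicOrderAt (fun z => Φ z - ee a G z) z = ⊤ := by
    by_contra hc
    exact hgm.meromorphicOrderAt_ne_top_of_isPreconnected (preconn_half s) hz h1 hc htop
  rw [meromorphicOrderAt_eq_top_iff] at htop2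
  exact htop2.mono fun y hy => sub_eq_zero.1 hy

theorem MD.order_conv (D : MD a Φ G c0) {s : ℝ} (hs : 0 ≤ s) (h : ∀ w > s, LInt a w) {z : ℂ}
    (hz : s < z.re) : meromorphicOrderAt Φ z = 0 := by
  rw [meromorphicOrderAt_congr (D.near hs h hz)]
  exact order_zero (D.ee_an hs h hz) (Complex.exp_ne_zero _)

/-- for real `w`, the exponent is real -/
theorem MD.real (D : MD a Φ G c0) {w : ℝ} (hw : 0 < w) :
    ee a G w = ((Real.exp ((G w).re - w * lap a w) : ℝ) : ℂ) := by
  unfold ee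
  rw [lapC_ofReal, ← Complex.ofReal_mul, Complex.ofReal_exp]
  congr 1
  apply Complex.ext
  · simp only [Complex.sub_re, Complex.ofReal_re]
  · simp only [Complex.sub_im, Complex.ofReal_im, D.hGre w hw, sub_zero]

/-- the values to the right of a point at which `Φ` has order `M` -/
theorem MD.rep (D : MD a Φ G c0) {s : ℝ} (hs : 0 ≤ s) (h : ∀ w > s, LInt a w) {M : ℤ}
    (hmero : MeromorphicAt Φ (s : ℂ)) (hM : meromorphicOrderAt Φ (s : ℂ) = M) :
    ∃ g : ℂ → ℂ, AnalyticAt ℂ g s ∧ g s ≠ 0 ∧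
      (∀ᶠ w : ℝ in 𝓝[>] s, ee a G w = ((w - s : ℝ) : ℂ) ^ M * g w) ∧
      ∀ᶠ z in 𝓝[≠] (s : ℂ), Φ z = (z - s) ^ M • g z := by
  obtain ⟨g, hg1, hg2, hg3⟩ := (meromorphicOrderAt_eq_int_iff hmero).1 hM
  refine ⟨g, hg1, hg2, ?_, hg3⟩
  have h1 : ∀ᶠ y : ℂ in 𝓝 (s : ℂ), y ≠ s → Φ y = (y - s) ^ M • g y := by
    rw [eventually_nhdsWithin_iff] at hg3
    exact hg3
  have h2 : ∀ᶠ y : ℂ in 𝓝 (s : ℂ), ∀ᶠ u : ℂ in 𝓝 y, u ≠ s → Φ u = (u - s) ^ M • g u := h1.eventually_nhds
  have h3 : ∀ᶠ y in 𝓝 (s : ℂ), AnalyticAt ℂ g y := hg1.eventually_analyticAt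
  have h4 : Tendsto (fun w : ℝ => (w : ℂ)) (𝓝[>] s) (𝓝 (s : ℂ)) :=
    tendsto_nhdsWithin_of_tendsto_nhds (Complex.continuous_ofReal.tendsto s)
  filter_upwards [h4.eventually h2, h4.eventually h3, self_mem_nhdsWithin] with w e2 e3 e4
  have hw : s < w := e4
  have hwre : s < ((w : ℂ)).re := by rwa [Complex.ofReal_re]
  have hne : (w : ℂ) ≠ (s : ℂ) := by exact_mod_cast hw.ne'
  have hne' : (w : ℂ) - s ≠ 0 := sub_ne_zero.2 hne
  have e5 : AnalyticAt ℂ (fun u : ℂ => (u - s) ^ M * g u) (w : ℂ) :=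
    ((analyticAt_id.sub analyticAt_const).zpow hne').mul e3
  have e6 : ∀ᶠ u in 𝓝[≠] (w : ℂ), ee a G u = (fun u : ℂ => (u - s) ^ M * g u) u := by
    have e7 : ∀ᶠ u : ℂ in 𝓝 (w : ℂ), u ≠ s := eventually_ne_nhds hne
    filter_upwards [D.near hs h hwre, eventually_nhdsWithin_of_eventually_nhds e2,
      eventually_nhdsWithin_of_eventually_nhds e7] with u f1 f2 f3
    rw [← f1, f2 f3, smul_eq_mul]
  have e8 := eq_of_punctured (D.ee_an hs h hwre) e5 e6
  rw [e8]
  push_cast
  rfl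

/-- **Core lemma.** `b = ε (κ - a) ≥ 0`, the Laplace integral of `κ` converges to the right of `w0`
and `Φ` has order zero at the abscissa of convergence. -/
theorem MD.core (D : MD a Φ G c0) {w0 : ℝ} (hw0 : 0 ≤ w0) {κ : ℝ → ℝ} (hκ : Measurable κ)
    (hκi : ∀ w > w0, LInt κ w) {ε : ℝ} (hε : ε = 1 ∨ ε = -1)
    (hb : ∀ u, 0 < u → 0 ≤ ε * (κ u - a u))
    (hne : ∀ s > w0, (∀ w > s, LInt a w) → meromorphicOrderAt Φ (s : ℂ) = 0) :
    ∀ w > w0, LInt a w := by
  set T : Set ℝ := {w | w0 ≤ w ∧ ∀ w' > w, LInt a w'} with hT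
  have hTne : T.Nonempty := ⟨max w0 c0, le_max_left _ _, fun w' hw' =>
    D.int w' (lt_of_le_of_lt (le_max_right _ _) hw')⟩
  have hTb : BddBelow T := ⟨w0, fun w hw => hw.1⟩
  set s := sInf T with hs
  have hs0 : w0 ≤ s := le_csInf hTne fun w hw => hw.1
  have hconv : ∀ w > s, LInt a w := by
    intro w hw
    obtain ⟨t, ht, htw⟩ := exists_lt_of_csInf_lt hTne hw
    exact ht.2 w htw
  rcases hs0.eq_or_lt with h0 | h0
  · rw [h0]; exact hconv
  exfalso
  have hspos : 0 < s := by linarith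
  have hsre : 0 < ((s : ℂ)).re := by rwa [Complex.ofReal_re]
  have hord : meromorphicOrderAt Φ (s : ℂ) = ((0 : ℤ) : WithTop ℤ) := hne s h0 hconv
  obtain ⟨g0, hg1, hg2, hg3, -⟩ := D.rep hspos.le hconv (D.mero s hsre) hord
  have hg4 : ∀ᶠ w : ℝ in 𝓝[>] s, g0 w = ((Real.exp ((G w).re - w * lap a w) : ℝ) : ℂ) := by
    filter_upwards [hg3, self_mem_nhdsWithin] with w h1 h2
    have hw : s < w := h2
    rw [D.real (by linarith), zpow_zero, one_mul] at h1
    exact h1.symm
  set b : ℝ → ℝ := fun u => ε * (κ u - a u) with hbdef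
  have hbm : Measurable b := (hκ.sub D.meas).const_mul ε
  have hbi : ∀ w > s, LInt b w := fun w hw =>
    ((hκi w (by linarith)).sub (hconv w hw)).const_mul ε
  -- `g0 s` is real and positive
  have hcont : Tendsto (fun w : ℝ => g0 w) (𝓝[>] s) (𝓝 (g0 s)) := by
    have h1 : ContinuousAt (fun w : ℝ => g0 (w : ℂ)) s :=
      ContinuousAt.comp (f := fun w : ℝ => (w : ℂ)) hg1.continuousAt Complex.continuous_ofReal.continuousAt
    exact tendsto_nhdsWithin_of_tendsto_nhds h1
  have him : (g0 s).im = 0 := by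
    have h1 : Tendsto (fun w : ℝ => (g0 w).im) (𝓝[>] s) (𝓝 (g0 s).im) :=
      (Complex.continuous_im.tendsto _).comp hcont
    have h2 : Tendsto (fun w : ℝ => (g0 w).im) (𝓝[>] s) (𝓝 0) := by
      refine tendsto_const_nhds.congr' ?_
      filter_upwards [hg4] with w hw
      rw [hw, Complex.ofReal_im]
    exact tendsto_nhds_unique h1 h2
  have hre : 0 ≤ (g0 s).re := by
    have h1 : Tendsto (fun w : ℝ => (g0 w).re) (𝓝[>] s) (𝓝 (g0 s).re) :=
      (Complex.continuous_re.tendsto _).comp hcont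
    refine ge_of_tendsto h1 ?_
    filter_upwards [hg4] with w hw
    rw [hw, Complex.ofReal_re]
    exact (Real.exp_pos _).le
  have hsl : g0 s ∈ Complex.slitPlane := by
    left
    refine lt_of_le_of_ne hre fun h => hg2 ?_
    exact Complex.ext h.symm him
  -- the analytic continuation
  set g : ℂ → ℂ := fun z =>
    (ε : ℂ) * (lapC κ (-z) - (G (-z) - Complex.log (g0 (-z))) / (-z)) with hg
  have hsC : ((-s : ℝ) : ℂ) ≠ 0 := by
    exact_mod_cast (neg_ne_zero.mpr hspos.ne')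
  have hnegs : -(((-s : ℝ)) : ℂ) = (s : ℂ) := by push_cast; ring
  have hga : AnalyticAt ℂ g ((-s : ℝ) : ℂ) := by
    have hopen : ∀ᶠ z in 𝓝 ((-s : ℝ) : ℂ), DifferentiableAt ℂ g z := by
      have e1 : ∀ᶠ z in 𝓝 ((-s : ℝ) : ℂ), w0 < (-z).re := by
        have : IsOpen {z : ℂ | w0 < (-z).re} :=
          isOpen_lt continuous_const (Complex.continuous_re.comp continuous_neg)
        exact this.mem_nhds (by simpa using h0)
      have hct : Tendsto (fun z : ℂ => -z) (𝓝 ((-s : ℝ) : ℂ)) (𝓝 (s : ℂ)) := by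
        have := (continuous_neg (G := ℂ)).tendsto ((-s : ℝ) : ℂ)
        rwa [hnegs] at this
      have e2 : ∀ᶠ z in 𝓝 ((-s : ℝ) : ℂ), g0 (-z) ∈ Complex.slitPlane := by
        have hc : Tendsto (fun z => g0 (-z)) (𝓝 ((-s : ℝ) : ℂ)) (𝓝 (g0 s)) :=
          hg1.continuousAt.tendsto.comp hct
        exact hc.eventually (Complex.isOpen_slitPlane.mem_nhds hsl)
      have e4 : ∀ᶠ z in 𝓝 ((-s : ℝ) : ℂ), AnalyticAt ℂ g0 (-z) :=
        hct.eventually hg1.eventually_analyticAt
      have e3 : ∀ᶠ z in 𝓝 ((-s : ℝ) : ℂ), z ≠ 0 := eventually_ne_nhds hsC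
      filter_upwards [e1, e2, e3, e4] with z h1 h2 h3 h4
      have hneg : DifferentiableAt ℂ (fun z : ℂ => -z) z := differentiable_neg.differentiableAt
      refine DifferentiableAt.const_mul ?_ _
      refine DifferentiableAt.sub ?_ (DifferentiableAt.div (DifferentiableAt.sub ?_ ?_)
        hneg (neg_ne_zero.mpr h3))
      · exact DifferentiableAt.comp (g := lapC κ) z (lapC_differentiableAt hκ hκi h1) hneg
      · exact DifferentiableAt.comp (g := G) z (D.hG (-z) (by linarith)) hneg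
      · exact DifferentiableAt.clog (DifferentiableAt.comp (g := g0) z h4.differentiableAt hneg) h2
    exact Complex.analyticAt_iff_eventually_differentiableAt.mpr hopen
  have hgr : AnalyticAt ℝ (fun t : ℝ => (g t).re) (-s) := hga.re_ofReal
  have hneg4 : ∀ᶠ t : ℝ in 𝓝[<] (-s), g0 ((-t : ℝ) : ℂ) =
      ((Real.exp ((G ((-t : ℝ) : ℂ)).re - (-t) * lap a (-t)) : ℝ) : ℂ) := by
    have h1 : Tendsto (fun t : ℝ => -t) (𝓝[<] (-s)) (𝓝[>] s) := by
      have := tendsto_neg_nhdsLT (a := -s)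
      rwa [neg_neg] at this
    exact h1.eventually hg4
  obtain ⟨t, hts, ht⟩ := landau (X := id) (μ := dens b) (dens_pos b hbm) hgr
    (fun t ht => (mem_integrableExpSet_dens hbm hb t).mpr (hbi (-t) (by linarith))) (by
      filter_upwards [self_mem_nhdsWithin, hneg4] with t ht h1
      have ht' : t < -s := ht
      have hw : s < -t := by linarith
      rw [mgf_dens hbm hb]
      have h2 : Complex.log (g0 (((-t : ℝ) : ℂ))) = (((G ((-t : ℝ) : ℂ)).re - (-t) * lap a (-t) : ℝ) : ℂ) := by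
        rw [h1, Complex.ofReal_exp, Complex.log_exp]
        · rw [Complex.ofReal_im]; linarith [Real.pi_pos]
        · rw [Complex.ofReal_im]; exact Real.pi_pos.le
      have h3 : G ((-t : ℝ) : ℂ) = (((G ((-t : ℝ) : ℂ)).re : ℝ) : ℂ) := by
        apply Complex.ext
        · simp only [Complex.ofReal_re]
        · rw [Complex.ofReal_im]; exact D.hGre _ (by linarith)
      have h4 : g (t : ℂ) = ((ε * (lap κ (-t) - lap a (-t)) : ℝ) : ℂ) := by
        rw [hg]
        simp only []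
        have e : -(t : ℂ) = ((-t : ℝ) : ℂ) := by push_cast; ring
        rw [e, h2, h3, lapC_ofReal]
        have hne' : ((-t : ℝ) : ℂ) ≠ 0 := by
          have : (-t : ℝ) ≠ 0 := by linarith
          exact_mod_cast this
        rw [Complex.ofReal_re, ← Complex.ofReal_sub, sub_sub_cancel, Complex.ofReal_mul,
          mul_div_cancel_left₀ _ hne']
        push_cast; ring
      rw [h4, Complex.ofReal_re, hbdef, lap_const_mul, lap_sub (hκi _ (by linarith)) (hconv _ hw)])
  -- contradiction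
  have ht1 : LInt b (-t) := (mem_integrableExpSet_dens hbm hb t).mp ht
  set t' : ℝ := max (-t) ((w0 + s) / 2) with ht'
  have h5 : t' < s := max_lt (by linarith) (by linarith)
  have h6 : t' ∈ T := by
    refine ⟨le_trans (by linarith) (le_max_right _ _), fun w' hw' => ?_⟩
    have h7 : LInt b w' := ht1.mono hbm (le_trans (le_max_left _ _) hw'.le)
    have h8 : LInt κ w' := hκi w' (lt_of_lt_of_le (by linarith) (le_trans (le_max_right _ _) hw'.le))
    have h9 := h8.sub (h7.const_mul ε)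
    have h10 : (fun u => κ u - ε * b u) = a := by
      funext u
      rw [hbdef]
      simp only []
      rcases hε with h | h <;> rw [h] <;> ring
    rwa [h10] at h9
  have := csInf_le hTb h6
  linarith

/-! ### Bounds at the abscissa -/

theorem MD.cont_aux (D : MD a Φ G c0) {w0 : ℝ} (hw0 : 0 ≤ w0) {κ : ℝ → ℝ} (hκ : Measurable κ)
    (hκi : ∀ w > w0, LInt κ w) {s : ℝ} (hs : w0 < s) :
    Tendsto (fun w : ℝ => Real.exp ((G w).re - w * lap κ w)) (𝓝[>] s)
      (𝓝 (Real.exp ((G s).re - s * lap κ s))) := by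
  have h0 : ContinuousAt (fun w : ℝ => Real.exp ((G w).re - w * lap κ w)) s := by
    refine ContinuousAt.rexp ?_
    have h1 : ContinuousAt (fun z : ℂ => G z - z * lapC κ z) (s : ℂ) := by
      refine DifferentiableAt.continuousAt (𝕜 := ℂ) ?_
      exact (D.hG s (by rw [Complex.ofReal_re]; linarith)).sub
        (differentiableAt_id.mul (lapC_differentiableAt hκ hκi (by rwa [Complex.ofReal_re])))
    have h2 := Complex.continuous_re.continuousAt.comp
      (ContinuousAt.comp (f := fun w : ℝ => (w : ℂ)) h1 Complex.continuous_ofReal.continuousAt)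
    refine h2.congr (Eventually.of_forall fun w => ?_)
    simp only [Function.comp_apply]
    rw [lapC_ofReal, Complex.sub_re, ← Complex.ofReal_mul, Complex.ofReal_re]
  exact tendsto_nhdsWithin_of_tendsto_nhds h0

/-- an upper bound for `a` excludes zeros at the abscissa -/
theorem MD.no_zero (D : MD a Φ G c0) {w0 : ℝ} (hw0 : 0 ≤ w0) {κ : ℝ → ℝ} (hκ : Measurable κ)
    (hκi : ∀ w > w0, LInt κ w) (hb : ∀ u, 0 < u → a u ≤ κ u) {s : ℝ} (hs : w0 < s)
    (hconv : ∀ w > s, LInt a w) : meromorphicOrderAt Φ (s : ℂ) ≤ 0 := by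
  have hspos : 0 < s := by linarith
  have hsre : 0 < ((s : ℂ)).re := by rwa [Complex.ofReal_re]
  by_contra hc
  push Not at hc
  obtain ⟨M, hM⟩ := WithTop.ne_top_iff_exists.1 (D.order_ne_top hsre)
  rw [← hM] at hc
  have hM0 : 0 < M := by exact_mod_cast hc
  obtain ⟨g, hg1, hg2, hg3, -⟩ := D.rep hspos.le hconv (D.mero s hsre) hM.symm
  have h1 : Tendsto (fun w : ℝ => ((w - s : ℝ) : ℂ) ^ M * g w) (𝓝[>] s) (𝓝 0) := by
    have h2 : Tendsto (fun w : ℝ => g w) (𝓝[>] s) (𝓝 (g s)) := by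
      have h1 : ContinuousAt (fun w : ℝ => g (w : ℂ)) s :=
        ContinuousAt.comp (f := fun w : ℝ => (w : ℂ)) hg1.continuousAt Complex.continuous_ofReal.continuousAt
      exact tendsto_nhdsWithin_of_tendsto_nhds h1
    have h3 : Tendsto (fun w : ℝ => ((w - s : ℝ) : ℂ) ^ M) (𝓝[>] s) (𝓝 0) := by
      obtain ⟨n, rfl⟩ := Int.eq_ofNat_of_zero_le hM0.le
      have hn : n ≠ 0 := by
        rintro rfl
        simp at hM0
      have h4 : Continuous fun w : ℝ => ((w - s : ℝ) : ℂ) ^ n := by fun_prop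
      have h5 := h4.tendsto s
      rw [sub_self, Complex.ofReal_zero, zero_pow hn] at h5
      have h6 : (fun w : ℝ => ((w - s : ℝ) : ℂ) ^ ((n : ℕ) : ℤ)) = fun w : ℝ => ((w - s : ℝ) : ℂ) ^ n := by
        funext w
        exact zpow_natCast _ _
      rw [h6]
      exact tendsto_nhdsWithin_of_tendsto_nhds h5
    have := h3.mul h2
    rwa [zero_mul] at this
  have h2 : Tendsto (fun w : ℝ => ‖ee a G w‖) (𝓝[>] s) (𝓝 0) := by
    have h3 := h1.norm
    rw [norm_zero] at h3
    exact h3.congr' (hg3.mono fun w hw => by simp only [hw])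
  have h3 := D.cont_aux hw0 hκ hκi hs
  have h4 : Real.exp ((G s).re - s * lap κ s) ≤ 0 := by
    refine le_of_tendsto_of_tendsto h3 h2 ?_
    filter_upwards [self_mem_nhdsWithin] with w hw
    have hw' : s < w := hw
    rw [D.real (by linarith), Complex.norm_real, Real.norm_of_nonneg (Real.exp_pos _).le]
    apply Real.exp_le_exp.mpr
    have h1 : lap a w ≤ lap κ w := by
      have := lap_nonneg (f := fun u => κ u - a u) (fun u hu => by have := hb u hu; linarith) w
      rw [lap_sub (hκi w (by linarith)) (hconv w hw')] at this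
      linarith
    have : w * lap a w ≤ w * lap κ w := mul_le_mul_of_nonneg_left h1 (by linarith)
    linarith
  exact absurd h4 (not_le.2 (Real.exp_pos _))

/-- a lower bound for `a` excludes poles at the abscissa -/
theorem MD.no_pole (D : MD a Φ G c0) {w0 : ℝ} (hw0 : 0 ≤ w0) {κ : ℝ → ℝ} (hκ : Measurable κ)
    (hκi : ∀ w > w0, LInt κ w) (hb : ∀ u, 0 < u → κ u ≤ a u) {s : ℝ} (hs : w0 < s)
    (hconv : ∀ w > s, LInt a w) : 0 ≤ meromorphicOrderAt Φ (s : ℂ) := by
  have hspos : 0 < s := by linarith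
  have hsre : 0 < ((s : ℂ)).re := by rwa [Complex.ofReal_re]
  by_contra hc
  push Not at hc
  obtain ⟨M, hM⟩ := WithTop.ne_top_iff_exists.1 (D.order_ne_top hsre)
  rw [← hM] at hc
  have hM0 : M < 0 := by exact_mod_cast hc
  obtain ⟨g, hg1, hg2, hg3, -⟩ := D.rep hspos.le hconv (D.mero s hsre) hM.symm
  -- `(w - s)^(-M) * ee → g s`
  have h1 : Tendsto (fun w : ℝ => ((w - s : ℝ) : ℂ) ^ (-M) * ee a G w) (𝓝[>] s) (𝓝 (g s)) := by
    have h2 : Tendsto (fun w : ℝ => g w) (𝓝[>] s) (𝓝 (g s)) := by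
      have h1 : ContinuousAt (fun w : ℝ => g (w : ℂ)) s :=
        ContinuousAt.comp (f := fun w : ℝ => (w : ℂ)) hg1.continuousAt Complex.continuous_ofReal.continuousAt
      exact tendsto_nhdsWithin_of_tendsto_nhds h1
    refine h2.congr' ?_
    filter_upwards [hg3, self_mem_nhdsWithin] with w hw hw2
    have hw' : s < w := hw2
    have hne : ((w - s : ℝ) : ℂ) ≠ 0 := by exact_mod_cast (sub_pos.2 hw').ne'
    rw [hw, ← mul_assoc, ← zpow_add₀ hne, neg_add_cancel, zpow_zero, one_mul]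
  have h3 : Tendsto (fun w : ℝ => |w - s| ^ (-M) * Real.exp ((G w).re - w * lap κ w)) (𝓝[>] s) (𝓝 0) := by
    obtain ⟨n, hn⟩ := Int.eq_ofNat_of_zero_le (show 0 ≤ -M by omega)
    have hn0 : n ≠ 0 := by
      rintro rfl
      omega
    have h4 : Continuous fun w : ℝ => |w - s| ^ n := by fun_prop
    have h5 := h4.tendsto s
    rw [sub_self, abs_zero, zero_pow hn0] at h5
    have h6 : (fun w : ℝ => |w - s| ^ (-M)) = fun w : ℝ => |w - s| ^ n := by
      funext w
      rw [hn]
      exact zpow_natCast _ _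
    have h7 := (tendsto_nhdsWithin_of_tendsto_nhds (s := Ioi s) h5).mul (D.cont_aux hw0 hκ hκi hs)
    rw [zero_mul] at h7
    refine h7.congr fun w => ?_
    rw [hn]
    rw [zpow_natCast]
  have h4 : ‖g s‖ ≤ 0 := by
    refine le_of_tendsto_of_tendsto h1.norm h3 ?_
    filter_upwards [self_mem_nhdsWithin] with w hw
    have hw' : s < w := hw
    rw [norm_mul, norm_zpow, Complex.norm_real, Real.norm_eq_abs, D.real (by linarith),
      Complex.norm_real, Real.norm_of_nonneg (Real.exp_pos _).le]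
    refine mul_le_mul_of_nonneg_left (Real.exp_le_exp.mpr ?_) (zpow_nonneg (abs_nonneg _) _)
    have h1 : lap κ w ≤ lap a w := by
      have := lap_nonneg (f := fun u => a u - κ u) (fun u hu => by have := hb u hu; linarith) w
      rw [lap_sub (hconv w hw') (hκi w (by linarith))] at this
      linarith
    have : w * lap κ w ≤ w * lap a w := mul_le_mul_of_nonneg_left h1 (by linarith)
    linarith
  exact hg2 (norm_le_zero_iff.1 h4)

end Pool.Agent.D0H40.SP
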