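import Pool.Agent.D0H40.SP.Mean

/-! The Laplace transform of `∫ (e^(κv) - 1) / v dv`. -/

set_option autoImplicit false

namespace Pool.Agent.D0H40.SP

open MeasureTheory Filter Topology Set
open Pool.Agent.W263.BSD
open scoped ComplexConjugate

/-- the density of the correction -/
noncomputable def jj (κ : ℂ) (v : ℝ) : ℝ := 2 * ((Complex.exp (κ * v) - 1) / v).re

/-- the correction -/
noncomputable def JJ (κ : ℂ) (u : ℝ) : ℝ := ∫ v in (0 : ℝ)..u, jj κ v

variable {κ : ℂ}

theorem jj_meas (κ : ℂ) : Measurable (jj κ) := by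
  unfold jj
  fun_prop

theorem exp_sub_one (y : ℂ) : ‖Complex.exp y - 1‖ ≤ ‖y‖ * Real.exp ‖y‖ := by
  have h1 := Complex.norm_exp_sub_sum_le_norm_mul_exp y 1
  simpa using h1

theorem jj_bound (κ : ℂ) (v : ℝ) : |jj κ v| ≤ 2 * ‖κ‖ * Real.exp (‖κ‖ * |v|) := by
  unfold jj
  rcases eq_or_ne v 0 with rfl | hv
  · simp
  · have hv0 : 0 < |v| := abs_pos.2 hv
    rw [abs_mul, abs_two, mul_assoc]
    refine mul_le_mul_of_nonneg_left ((Complex.abs_re_le_norm _).trans ?_) zero_le_two
    rw [norm_div, Complex.norm_real, Real.norm_eq_abs, div_le_iff₀ hv0]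
    have h1 := exp_sub_one (κ * v)
    rw [norm_mul, Complex.norm_real, Real.norm_eq_abs] at h1
    linarith

theorem jj_int (κ : ℂ) (a b : ℝ) : IntervalIntegrable (jj κ) volume a b := by
  have h1 : IntervalIntegrable (fun v : ℝ => 2 * ‖κ‖ * Real.exp (‖κ‖ * |v|)) volume a b :=
    (by fun_prop : Continuous fun v : ℝ => 2 * ‖κ‖ * Real.exp (‖κ‖ * |v|)).intervalIntegrable _ _
  refine h1.mono_fun (jj_meas κ).aestronglyMeasurable (Eventually.of_forall fun v => ?_)
  simp only
  rw [Real.norm_eq_abs, Real.norm_of_nonneg (by positivity)]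
  exact jj_bound κ v

theorem JJ_cont (κ : ℂ) : Continuous (JJ κ) := intervalIntegral.continuous_primitive (jj_int κ) 0

theorem JJ_zero (κ : ℂ) : JJ κ 0 = 0 := intervalIntegral.integral_same

theorem JJ_bound (κ : ℂ) {u : ℝ} (hu : 0 ≤ u) : |JJ κ u| ≤ 2 * Real.exp (2 * ‖κ‖ * u) := by
  have h1 : ‖∫ v in (0 : ℝ)..u, jj κ v‖ ≤ 2 * ‖κ‖ * Real.exp (‖κ‖ * u) * |u - 0| := by
    refine intervalIntegral.norm_integral_le_of_norm_le_const fun v hv => ?_
    rw [uIoc_of_le hu] at hv
    rw [Real.norm_eq_abs]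
    refine (jj_bound κ v).trans ?_
    rw [abs_of_pos hv.1]
    exact mul_le_mul_of_nonneg_left (Real.exp_le_exp.2 (mul_le_mul_of_nonneg_left hv.2 (norm_nonneg _)))
      (by positivity)
  rw [Real.norm_eq_abs, sub_zero, abs_of_nonneg hu] at h1
  refine h1.trans ?_
  have h2 : ‖κ‖ * u ≤ Real.exp (‖κ‖ * u) := by
    have := Real.add_one_le_exp (‖κ‖ * u)
    linarith
  have h3 : Real.exp (2 * ‖κ‖ * u) = Real.exp (‖κ‖ * u) * Real.exp (‖κ‖ * u) := by
    rw [← Real.exp_add]
    congr 1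
    ring
  rw [h3]
  have h4 := Real.exp_pos (‖κ‖ * u)
  nlinarith

theorem JJ_LInt (κ : ℂ) {w : ℝ} (hw : 2 * ‖κ‖ < w) : LInt (JJ κ) w := by
  refine LInt.of_bound (JJ_cont κ).measurable ((LInt_exp hw).const_mul 2) fun u hu => ?_
  exact JJ_bound κ hu.le

theorem jj_LInt (κ : ℂ) {w : ℝ} (hw : ‖κ‖ < w) : LInt (jj κ) w := by
  refine LInt.of_bound (jj_meas κ) ((LInt_exp hw).const_mul (2 * ‖κ‖)) fun u hu => ?_
  have := jj_bound κ u
  rwa [abs_of_pos hu] at this

theorem JJ_deriv (κ : ℂ) {t : ℝ} (ht : 0 < t) : HasDerivAt (JJ κ) (jj κ t) t := by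
  refine intervalIntegral.integral_hasDerivAt_right (jj_int κ 0 t) ?_ ?_
  · exact (jj_meas κ).stronglyMeasurable.stronglyMeasurableAtFilter
  · unfold jj
    have h1 : ContinuousAt (fun v : ℝ => (Complex.exp (κ * v) - 1) / (v : ℂ)) t := by
      refine ContinuousAt.div (by fun_prop) (by fun_prop) ?_
      exact_mod_cast ht.ne'
    exact (Complex.continuous_re.continuousAt.comp h1).const_mul 2

/-- integration by parts -/
theorem lap_JJ (κ : ℂ) {x : ℝ} (hx : 2 * ‖κ‖ < x) : x * lap (JJ κ) x = lap (jj κ) x := by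
  have hn := norm_nonneg κ
  have hx0 : 0 < x := by linarith
  have hv : ∀ t ∈ Ioi (0 : ℝ), HasDerivAt (fun t : ℝ => Real.exp (-(x * t))) (-x * Real.exp (-(x * t))) t := by
    intro t _
    have h1 : HasDerivAt (fun t : ℝ => -(x * t)) (-x) t := by
      have h := (hasDerivAt_id t).const_mul (-x)
      rw [mul_one] at h
      exact h.congr_of_eventuallyEq (Eventually.of_forall fun s => by simp only [id, neg_mul])
    have h2 := h1.exp
    rwa [mul_comm] at h2
  have hint1 : IntegrableOn (JJ κ * fun t : ℝ => -x * Real.exp (-(x * t))) (Ioi 0) := by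
    have h1 : LInt (fun t => -x * JJ κ t) x := (JJ_LInt κ hx).const_mul (-x)
    unfold LInt at h1
    refine h1.congr_fun (fun t _ => ?_) measurableSet_Ioi
    simp only [Pi.mul_apply]
    ring
  have hint2 : IntegrableOn (jj κ * fun t : ℝ => Real.exp (-(x * t))) (Ioi 0) :=
    jj_LInt κ (by linarith)
  have hz : Tendsto (JJ κ * fun t : ℝ => Real.exp (-(x * t))) (𝓝[>] 0) (𝓝 0) := by
    have h1 : Continuous (JJ κ * fun t : ℝ => Real.exp (-(x * t))) := (JJ_cont κ).mul (by fun_prop)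
    have h2 := h1.tendsto 0
    have h3 : (JJ κ * fun t : ℝ => Real.exp (-(x * t))) 0 = 0 := by
      simp only [Pi.mul_apply, JJ_zero, zero_mul]
    rw [h3] at h2
    exact h2.mono_left nhdsWithin_le_nhds
  have hi : Tendsto (JJ κ * fun t : ℝ => Real.exp (-(x * t))) atTop (𝓝 0) := by
    have h1 : Tendsto (fun t : ℝ => 2 * Real.exp (-((x - 2 * ‖κ‖) * t))) atTop (𝓝 0) := by
      have h2 : Tendsto (fun t : ℝ => (x - 2 * ‖κ‖) * t) atTop atTop :=
        tendsto_id.const_mul_atTop (by linarith)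
      have h3 := (Real.tendsto_exp_neg_atTop_nhds_zero.comp h2).const_mul 2
      rw [mul_zero] at h3
      exact h3
    refine squeeze_zero_norm' ?_ h1
    filter_upwards [eventually_ge_atTop 0] with t ht
    simp only [Pi.mul_apply]
    rw [norm_mul, Real.norm_eq_abs, Real.norm_of_nonneg (Real.exp_pos _).le]
    have h4 := mul_le_mul_of_nonneg_right (JJ_bound κ ht) (Real.exp_pos (-(x * t))).le
    refine h4.trans (le_of_eq ?_)
    rw [mul_assoc, ← Real.exp_add]
    congr 2
    ring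
  have h := integral_Ioi_mul_deriv_eq_deriv_mul (fun t ht => JJ_deriv κ ht) hv hint1 hint2 hz hi
  unfold lap
  rw [sub_zero, zero_sub] at h
  have h2 : ∫ t in Ioi (0 : ℝ), JJ κ t * (-x * Real.exp (-(x * t))) =
      -(x * ∫ t in Ioi (0 : ℝ), JJ κ t * Real.exp (-(x * t))) := by
    rw [← integral_const_mul, ← integral_neg]
    refine integral_congr_ae (Eventually.of_forall fun t => ?_)
    simp only
    ring
  rw [h2] at h
  linarith

theorem jj_series (κ : ℂ) {t : ℝ} (ht : t ≠ 0) :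
    HasSum (fun n : ℕ => 2 * (κ ^ (n + 1)).re * t ^ n / (n + 1).factorial) (jj κ t) := by
  have h1 : HasSum (fun n : ℕ => (κ * t) ^ n / (n.factorial : ℂ)) (Complex.exp (κ * t)) := by
    rw [Complex.exp_eq_exp_ℂ]
    exact NormedSpace.expSeries_div_hasSum_exp (κ * t)
  have h2 := (hasSum_nat_add_iff' 1).2 h1
  simp only [Finset.range_one, Finset.sum_singleton, pow_zero, Nat.factorial_zero, Nat.cast_one, div_one] at h2
  have h3 := (Complex.hasSum_re (h2.div_const (t : ℂ))).mul_left 2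
  unfold jj
  refine h3.congr_fun fun n => ?_
  have e : (κ * t) ^ (n + 1) / ((n + 1).factorial : ℂ) / (t : ℂ) =
      κ ^ (n + 1) * ((t ^ n / (n + 1).factorial : ℝ) : ℂ) := by
    have ht' : (t : ℂ) ≠ 0 := by exact_mod_cast ht
    push_cast
    rw [mul_pow, pow_succ (t : ℂ)]
    field_simp
  rw [e, Complex.re_mul_ofReal]
  ring

theorem int_pow (n : ℕ) {x : ℝ} (hx : 0 < x) :
    IntegrableOn (fun t : ℝ => t ^ n * Real.exp (-(x * t))) (Ioi 0) ∧
    ∫ t in Ioi (0 : ℝ), t ^ n * Real.exp (-(x * t)) = n.factorial / x ^ (n + 1) := by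
  constructor
  · have h1 := integrableOn_rpow_mul_exp_neg_mul_rpow (p := 1) (s := n) (b := x)
      (by have : (0 : ℝ) ≤ n := Nat.cast_nonneg n
          linarith) one_pos hx
    refine h1.congr_fun (fun t _ => ?_) measurableSet_Ioi
    simp only
    rw [Real.rpow_natCast, Real.rpow_one, neg_mul]
  · have h1 := Real.integral_rpow_mul_exp_neg_mul_Ioi (a := (n : ℝ) + 1) (r := x) (by positivity) hx
    rw [Real.Gamma_nat_eq_factorial] at h1
    have h2 : ∫ t in Ioi (0 : ℝ), t ^ n * Real.exp (-(x * t)) =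
        ∫ t in Ioi (0 : ℝ), t ^ ((n : ℝ) + 1 - 1) * Real.exp (-(x * t)) := by
      refine setIntegral_congr_fun measurableSet_Ioi fun t _ => ?_
      rw [add_sub_cancel_right, Real.rpow_natCast]
    rw [h2, h1, Real.rpow_add (by positivity), Real.rpow_natCast, Real.rpow_one, ← pow_succ, one_div, inv_pow]
    ring

theorem lap_jj (κ : ℂ) {x : ℝ} (hx : ‖κ‖ < x) : lap (jj κ) x = -(2 * Real.log ‖1 - κ / x‖) := by
  have hn := norm_nonneg κ
  have hx0 : 0 < x := by linarith
  set F : ℕ → ℝ → ℝ := fun n t => (2 * (κ ^ (n + 1)).re / (n + 1).factorial) *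
    (t ^ n * Real.exp (-(x * t))) with hF
  have h1 : ∀ n, Integrable (F n) (volume.restrict (Ioi 0)) := fun n => (int_pow n hx0).1.const_mul _
  have hI : ∀ n : ℕ, ∫ t in Ioi (0 : ℝ), F n t = 2 * (κ ^ (n + 1)).re / ((n + 1) * x ^ (n + 1)) := by
    intro n
    rw [hF]
    simp only
    rw [integral_const_mul, (int_pow n hx0).2, Nat.factorial_succ]
    have : ((n.factorial : ℕ) : ℝ) ≠ 0 := by exact_mod_cast n.factorial_ne_zero
    push_cast
    field_simp
  have hr : ‖κ‖ / x < 1 := by rw [div_lt_one hx0]; exact hx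
  have h2 : Summable fun n => ∫ t in Ioi (0 : ℝ), ‖F n t‖ := by
    refine Summable.of_nonneg_of_le (fun n => integral_nonneg fun t => norm_nonneg _) (fun n => ?_)
      (((summable_geometric_of_lt_one (by positivity) hr).mul_left (2 * (‖κ‖ / x))))
    have e1 : ∀ t ∈ Ioi (0 : ℝ), ‖F n t‖ = |2 * (κ ^ (n + 1)).re / (n + 1).factorial| *
        (t ^ n * Real.exp (-(x * t))) := by
      intro t ht
      have ht0 : (0 : ℝ) < t := ht
      rw [hF]
      simp only
      rw [norm_mul, Real.norm_eq_abs, Real.norm_of_nonneg (by positivity)]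
    rw [setIntegral_congr_fun measurableSet_Ioi e1, integral_const_mul, (int_pow n hx0).2]
    have e2 : |2 * (κ ^ (n + 1)).re / ((n + 1).factorial : ℝ)| ≤ 2 * ‖κ‖ ^ (n + 1) / (n + 1).factorial := by
      rw [abs_div, abs_mul, abs_two, Nat.abs_cast]
      gcongr
      exact (Complex.abs_re_le_norm _).trans (by rw [norm_pow])
    refine (mul_le_mul_of_nonneg_right e2 (by positivity)).trans ?_
    rw [Nat.factorial_succ]
    have e3 : (0 : ℝ) < (n.factorial : ℝ) := by exact_mod_cast n.factorial_pos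
    have e4 : (1 : ℝ) ≤ (n : ℝ) + 1 := by
      have : (0 : ℝ) ≤ n := Nat.cast_nonneg n
      linarith
    have e5 : 2 * ‖κ‖ ^ (n + 1) / (((n + 1) * n.factorial : ℕ) : ℝ) * (n.factorial / x ^ (n + 1)) =
        2 * (‖κ‖ / x) * (‖κ‖ / x) ^ n / ((n : ℝ) + 1) := by
      push_cast
      rw [div_pow, pow_succ, pow_succ]
      field_simp
    rw [e5]
    exact div_le_self (by positivity) e4
  have h3 := hasSum_integral_of_summable_integral_norm h1 h2
  have h4 : ∫ t in Ioi (0 : ℝ), ∑' n, F n t = lap (jj κ) x := by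
    unfold lap
    refine setIntegral_congr_fun measurableSet_Ioi fun t ht => ?_
    have ht0 : (0 : ℝ) < t := ht
    rw [← ((jj_series κ ht0.ne').mul_right (Real.exp (-(x * t)))).tsum_eq]
    refine tsum_congr fun n => ?_
    rw [hF]
    simp only
    ring
  rw [h4] at h3
  simp only [hI] at h3
  -- the logarithm
  have hz : ‖κ / x‖ < 1 := by
    rw [norm_div, Complex.norm_real, Real.norm_of_nonneg hx0.le]
    exact hr
  have h5 := (hasSum_nat_add_iff' 1).2 (Complex.hasSum_taylorSeries_neg_log hz)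
  simp only [Finset.range_one, Finset.sum_singleton, pow_zero, Nat.cast_zero, div_zero, sub_zero] at h5
  have h6 := (Complex.hasSum_re h5).mul_left 2
  have h7 : (fun n : ℕ => 2 * ((κ / x) ^ (n + 1) / ((n + 1 : ℕ) : ℂ)).re) =
      fun n : ℕ => 2 * (κ ^ (n + 1)).re / ((n + 1) * x ^ (n + 1)) := by
    funext n
    have e : (κ / x) ^ (n + 1) / ((n + 1 : ℕ) : ℂ) =
        κ ^ (n + 1) * (((((n : ℝ) + 1) * x ^ (n + 1))⁻¹ : ℝ) : ℂ) := by
      push_cast
      rw [div_pow]
      field_simp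
    rw [e, Complex.re_mul_ofReal]
    ring
  rw [h7] at h6
  rw [h3.unique h6, Complex.neg_re, Complex.log_re]
  ring

/-- **the Laplace transform of the correction** -/
theorem exp_JJ (κ : ℂ) {z : ℂ} (hz : 2 * ‖κ‖ < z.re) :
    Complex.exp (-(z * lapC (JJ κ) z)) = (z - κ) * (z - conj κ) / z ^ 2 := by
  have hn := norm_nonneg κ
  set U : Set ℂ := {z : ℂ | 2 * ‖κ‖ < z.re} with hU
  have hUo : IsOpen U := isOpen_half _
  have hf : AnalyticOnNhd ℂ (fun z => Complex.exp (-(z * lapC (JJ κ) z))) U := by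
    refine DifferentiableOn.analyticOnNhd (fun y hy => ?_) hUo
    refine DifferentiableAt.differentiableWithinAt (DifferentiableAt.cexp ?_)
    exact (differentiableAt_id.mul (lapC_differentiableAt (JJ_cont κ).measurable
      (fun w hw => JJ_LInt κ hw) hy)).neg
  have hg : AnalyticOnNhd ℂ (fun z => (z - κ) * (z - conj κ) / z ^ 2) U := by
    intro y hy
    have hy' : 2 * ‖κ‖ < y.re := hy
    have hy0 : y ≠ 0 := by
      rintro rfl
      rw [Complex.zero_re] at hy'
      linarith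
    have : y ^ 2 ≠ 0 := pow_ne_zero 2 hy0
    fun_prop (disch := assumption)
  have hreal : ∀ x : ℝ, 2 * ‖κ‖ < x → Complex.exp (-((x : ℂ) * lapC (JJ κ) x)) =
      ((x : ℂ) - κ) * ((x : ℂ) - conj κ) / (x : ℂ) ^ 2 := by
    intro x hx
    have hx0 : 0 < x := by linarith
    have hxc : (x : ℂ) ≠ 0 := by exact_mod_cast hx0.ne'
    rw [lapC_ofReal, ← Complex.ofReal_mul, lap_JJ κ hx, lap_jj κ (by linarith), Complex.ofReal_neg, neg_neg,
      ← Complex.ofReal_exp]
    have hne : (0 : ℝ) < ‖1 - κ / x‖ := by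
      rw [norm_pos_iff, sub_ne_zero]
      intro h
      have h2 : ‖κ / x‖ < 1 := by
        rw [norm_div, Complex.norm_real, Real.norm_of_nonneg hx0.le, div_lt_one hx0]
        linarith
      rw [← h, norm_one] at h2
      exact lt_irrefl _ h2
    have h1 : Real.exp (2 * Real.log ‖1 - κ / x‖) = ‖1 - κ / x‖ ^ 2 := by
      rw [two_mul, Real.exp_add, Real.exp_log hne, pow_two]
    rw [h1, Complex.sq_norm]
    have h2 : ((Complex.normSq (1 - κ / x) : ℝ) : ℂ) = (1 - κ / x) * conj (1 - κ / x) :=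
      (Complex.mul_conj _).symm
    rw [h2, map_sub, map_one, map_div₀, Complex.conj_ofReal]
    field_simp
  have hmem : ((2 * ‖κ‖ + 1 : ℝ) : ℂ) ∈ U := by
    show 2 * ‖κ‖ < (((2 * ‖κ‖ + 1 : ℝ) : ℂ)).re
    rw [Complex.ofReal_re]
    linarith
  have hfreq : ∃ᶠ y in 𝓝[≠] ((2 * ‖κ‖ + 1 : ℝ) : ℂ),
      Complex.exp (-(y * lapC (JJ κ) y)) = (y - κ) * (y - conj κ) / y ^ 2 := by
    have h2 : Tendsto (fun w : ℝ => (w : ℂ)) (𝓝[>] (2 * ‖κ‖ + 1)) (𝓝[≠] ((2 * ‖κ‖ + 1 : ℝ) : ℂ)) := by
      rw [tendsto_nhdsWithin_iff]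
      refine ⟨tendsto_nhdsWithin_of_tendsto_nhds (Complex.continuous_ofReal.tendsto _), ?_⟩
      filter_upwards [self_mem_nhdsWithin] with w hw
      have hw' : 2 * ‖κ‖ + 1 < w := hw
      exact fun h => hw'.ne' (Complex.ofReal_injective (Set.mem_singleton_iff.1 h))
    refine h2.frequently (Eventually.frequently ?_)
    filter_upwards [self_mem_nhdsWithin] with w hw
    have hw' : 2 * ‖κ‖ + 1 < w := hw
    exact hreal w (by linarith)
  exact hf.eqOn_of_preconnected_of_frequently_eq hg (preconn_half _) hmem hfreq hz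

end Pool.Agent.D0H40.SP
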