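import Pool.Agent.D0H40.SP.Corr

/-! The data of corrected partial products. -/

set_option autoImplicit false

namespace Pool.Agent.D0H40.SP

open MeasureTheory Filter Topology Set
open Pool.Agent.W263.BSD
open Pool.Agent.D0H40.AR (order_zero)
open scoped ComplexConjugate

variable {κ : ℂ}

/-! ### The increments of the correction -/

theorem jj_half (hκ : κ.re ≤ 1 / 2) {v : ℝ} (hv : 1 ≤ v) : |jj κ v| ≤ 4 * Real.exp (v / 2) := by
  unfold jj
  have hv0 : 0 < v := by linarith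
  have h1 : ‖Complex.exp (κ * v)‖ ≤ Real.exp (v / 2) := by
    rw [Complex.norm_exp, Complex.re_mul_ofReal]
    refine Real.exp_le_exp.2 ?_
    nlinarith
  have h2 : 1 ≤ Real.exp (v / 2) := Real.one_le_exp (by linarith)
  have h3 : ‖(Complex.exp (κ * v) - 1) / (v : ℂ)‖ ≤ 2 * Real.exp (v / 2) := by
    rw [norm_div, Complex.norm_real, Real.norm_of_nonneg hv0.le]
    refine (div_le_self (norm_nonneg _) hv).trans ((norm_sub_le _ _).trans ?_)
    rw [norm_one]
    linarith
  rw [abs_mul, abs_two]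
  have h4 := (Complex.abs_re_le_norm _).trans h3
  linarith

theorem JJ_incr (hκ : κ.re ≤ 1 / 2) {a b : ℝ} (ha : 1 ≤ a) (hab : a ≤ b) :
    |JJ κ b - JJ κ a| ≤ 4 * Real.exp (b / 2) * (b - a) := by
  unfold JJ
  rw [intervalIntegral.integral_interval_sub_left (jj_int κ 0 b) (jj_int κ 0 a)]
  have h1 : ‖∫ v in a..b, jj κ v‖ ≤ 4 * Real.exp (b / 2) * |b - a| := by
    refine intervalIntegral.norm_integral_le_of_norm_le_const fun v hv => ?_
    rw [uIoc_of_le hab] at hv
    rw [Real.norm_eq_abs]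
    refine (jj_half hκ (ha.trans hv.1.le)).trans ?_
    have : Real.exp (v / 2) ≤ Real.exp (b / 2) := Real.exp_le_exp.2 (by linarith [hv.2])
    linarith
  rwa [Real.norm_eq_abs, abs_of_nonneg (sub_nonneg.2 hab)] at h1

theorem log_diff {x y : ℝ} (hx : 0 < x) (hxy : x ≤ y) : Real.log y - Real.log x ≤ (y - x) / x := by
  have hy : 0 < y := hx.trans_le hxy
  have h1 := Real.log_le_sub_one_of_pos (show 0 < y / x by positivity)
  rw [Real.log_div hy.ne' hx.ne'] at h1
  have : (y - x) / x = y / x - 1 := by field_simp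
  linarith

theorem exp_half_log {x : ℝ} (hx : 0 < x) : Real.exp (Real.log x / 2) = √x := by
  rw [Real.sqrt_eq_rpow, Real.rpow_def_of_pos hx]
  congr 1
  ring

/-- the correction at nearby points -/
theorem JJ_near (hκ : κ.re ≤ 1 / 2) {x y : ℝ} (hx : 3 ≤ x) (hxy : x ≤ y) (hy : y ≤ x + 1) :
    |JJ κ (Real.log y) - JJ κ (Real.log x)| ≤ 8 / √x := by
  have hx0 : 0 < x := by linarith
  have hy0 : 0 < y := by linarith
  have hl : 1 ≤ Real.log x := by
    rw [Real.le_log_iff_exp_le hx0]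
    have := Real.exp_one_lt_d9
    linarith
  have h1 := JJ_incr hκ hl (Real.log_le_log hx0 hxy)
  refine h1.trans ?_
  rw [exp_half_log hy0]
  have h2 : Real.log y - Real.log x ≤ 1 / x := by
    refine (log_diff hx0 hxy).trans ?_
    exact div_le_div_of_nonneg_right (by linarith) hx0.le
  have hs : 0 < √x := Real.sqrt_pos.2 hx0
  have h3 : √y ≤ 2 * √x := by
    rw [show 2 * √x = √(4 * x) by
      rw [Real.sqrt_mul (by norm_num), show (4 : ℝ) = 2 ^ 2 by norm_num, Real.sqrt_sq (by norm_num)]]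
    exact Real.sqrt_le_sqrt (by linarith)
  calc 4 * √y * (Real.log y - Real.log x) ≤ 4 * (2 * √x) * (1 / x) := by
        have : 0 ≤ Real.log y - Real.log x := sub_nonneg.2 (Real.log_le_log hx0 hxy)
        gcongr
    _ = 8 / √x := by
        rw [mul_one_div, div_eq_div_iff hx0.ne' hs.ne']
        have := Real.mul_self_sqrt hx0.le
        linear_combination 8 * this

/-- the difference between the step function and the correction -/
noncomputable def dl (κ : ℂ) (u : ℝ) : ℝ := JJ κ (Real.log ⌊Real.exp u⌋₊) - JJ κ u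

theorem dl_meas (κ : ℂ) : Measurable (dl κ) := by
  have h1 : (fun u : ℝ => JJ κ (Real.log ⌊Real.exp u⌋₊)) =
      (fun n : ℕ => JJ κ (Real.log n)) ∘ fun u => ⌊Real.exp u⌋₊ := rfl
  have h2 : Measurable fun u : ℝ => JJ κ (Real.log ⌊Real.exp u⌋₊) := by
    rw [h1]
    exact (measurable_from_top).comp (Nat.measurable_floor.comp Real.measurable_exp)
  exact h2.sub (JJ_cont κ).measurable

theorem dl_lim (hκ : κ.re ≤ 1 / 2) : Tendsto (dl κ) atTop (𝓝 0) := by
  have h1 : Tendsto (fun u : ℝ => 8 / √(((⌊Real.exp u⌋₊ : ℕ) : ℝ))) atTop (𝓝 0) := by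
    refine Tendsto.const_div_atTop ?_ 8
    exact Real.tendsto_sqrt_atTop.comp (tendsto_natCast_atTop_atTop.comp fe_top)
  refine squeeze_zero_norm' ?_ h1
  filter_upwards [fe_top.eventually (eventually_ge_atTop 3)] with u hu
  have h3 : (3 : ℝ) ≤ ((⌊Real.exp u⌋₊ : ℕ) : ℝ) := by exact_mod_cast hu
  have h4 := JJ_near hκ (x := ((⌊Real.exp u⌋₊ : ℕ) : ℝ)) (y := Real.exp u) h3 (fe_le u)
    (Nat.lt_floor_add_one _).le
  rw [Real.log_exp] at h4
  rw [Real.norm_eq_abs]
  unfold dl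
  rw [abs_sub_comm]
  exact h4

theorem dl_bdd (hκ : κ.re ≤ 1 / 2) : ∃ K : ℝ, 0 ≤ K ∧ ∀ u : ℝ, 0 < u → |dl κ u| ≤ K := by
  obtain ⟨U, hU⟩ := eventually_atTop.mp ((dl_lim hκ).abs.eventually
    (gt_mem_nhds (by rw [abs_zero]; exact one_pos)))
  -- for `0 < u ≤ U`
  set V : ℝ := max U 0 with hV
  have h2 : ∀ t : ℝ, 0 ≤ t → t ≤ V → |JJ κ t| ≤ 2 * Real.exp (2 * ‖κ‖ * V) := by
    intro t ht htV
    refine (JJ_bound κ ht).trans (mul_le_mul_of_nonneg_left (Real.exp_le_exp.2 ?_) zero_le_two)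
    exact mul_le_mul_of_nonneg_left htV (by positivity)
  refine ⟨1 + 4 * Real.exp (2 * ‖κ‖ * V), by positivity, fun u hu => ?_⟩
  rcases le_total U u with h3 | h3
  · have := (hU u h3).le
    have := Real.exp_pos (2 * ‖κ‖ * V)
    linarith
  · have h4 : u ≤ V := h3.trans (le_max_left _ _)
    have h5 := h2 u hu.le h4
    have h6 : 1 ≤ ⌊Real.exp u⌋₊ := Nat.le_floor (by
      push_cast
      exact Real.one_le_exp hu.le)
    have h7 : (1 : ℝ) ≤ ((⌊Real.exp u⌋₊ : ℕ) : ℝ) := by exact_mod_cast h6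
    have h8 : Real.log ((⌊Real.exp u⌋₊ : ℕ) : ℝ) ≤ u := by
      rw [Real.log_le_iff_le_exp (by linarith)]
      exact fe_le u
    have h9 := h2 _ (Real.log_nonneg h7) (h8.trans h4)
    unfold dl
    refine (abs_sub _ _).trans ?_
    linarith

theorem dl_LInt (hκ : κ.re ≤ 1 / 2) (k : ℝ) {w : ℝ} (hw : 0 < w) : LInt (fun u => k * dl κ u) w := by
  obtain ⟨K, hK, h⟩ := dl_bdd hκ
  refine LInt.const_mul (LInt.of_bound (dl_meas κ) ((one_LInt hw).const_mul K) fun u hu => ?_) k
  rw [mul_one]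
  exact h u hu

theorem dl_abel (hκ : κ.re ≤ 1 / 2) (k : ℝ) :
    Tendsto (fun w : ℝ => w * lap (fun u => k * dl κ u) w) (𝓝[>] 0) (𝓝 0) := by
  obtain ⟨K, hK, h⟩ := dl_bdd hκ
  set h' : ℝ → ℝ := fun u => if 0 < u then k * dl κ u else 0 with hh'
  have e1 : ∀ w, lap h' w = lap (fun u => k * dl κ u) w := by
    intro w
    unfold lap
    refine setIntegral_congr_fun measurableSet_Ioi fun u hu => ?_
    have hu' : (0 : ℝ) < u := hu
    simp only [hh', if_pos hu']
  have e2 : ∀ w > 0, LInt h' w := by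
    intro w hw
    unfold LInt
    refine (dl_LInt hκ k hw).congr_fun (fun u hu => ?_) measurableSet_Ioi
    have hu' : (0 : ℝ) < u := hu
    simp only [hh', if_pos hu']
  have e3 : Loc h' := by
    intro V
    refine ⟨|k| * K, by positivity, fun u _ => ?_⟩
    rw [hh']
    simp only
    split_ifs with hc
    · rw [abs_mul]
      exact mul_le_mul_of_nonneg_left (h u hc) (abs_nonneg _)
    · rw [abs_zero]
      positivity
  have e4 : Tendsto h' atTop (𝓝 0) := by
    have h1 := (dl_lim hκ).const_mul k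
    rw [mul_zero] at h1
    refine h1.congr' ?_
    filter_upwards [eventually_gt_atTop 0] with u hu
    simp only [hh', if_pos hu]
  refine (abel_tendsto e2 e3 e4).congr fun w => ?_
  rw [e1]

/-! ### The corrected data -/

/-- the corrected logarithm -/
noncomputable def SC (S : ℕ → ℝ) (κ : ℂ) (k : ℕ) (n : ℕ) : ℝ := S n + k / 2 * JJ κ (Real.log n)

/-- the factor -/
noncomputable def RK (κ z : ℂ) : ℂ := (z - κ) * (z - conj κ) / z ^ 2

/-- the corrected function -/
noncomputable def PC (Φ : ℂ → ℂ) (κ : ℂ) (k : ℕ) (z : ℂ) : ℂ := Φ z * RK κ z ^ k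

/-- the corrected exponent -/
noncomputable def GC' (G : ℂ → ℂ) (κ : ℂ) (k : ℕ) (z : ℂ) : ℂ :=
  G z + z * lapC (fun u => (k : ℝ) * dl κ u) z

variable {S : ℕ → ℝ} {Φ G : ℂ → ℂ} {c0 : ℝ} {M : ℤ} {C g0 : ℝ}

theorem loc_any (S : ℕ → ℝ) : Loc (fun u => 2 * S ⌊Real.exp u⌋₊) := by
  intro V
  refine ⟨∑ n ∈ Finset.range (⌊Real.exp V⌋₊ + 1), |2 * S n|, Finset.sum_nonneg fun _ _ => abs_nonneg _,
    fun u hu => ?_⟩
  have h1 : ⌊Real.exp u⌋₊ ∈ Finset.range (⌊Real.exp V⌋₊ + 1) := by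
    rw [Finset.mem_range, Nat.lt_succ_iff]
    exact Nat.floor_mono (Real.exp_le_exp.2 hu)
  exact Finset.single_le_sum (f := fun n => |2 * S n|) (fun _ _ => abs_nonneg _) h1

theorem meas_any (S : ℕ → ℝ) : Measurable (fun u => 2 * S ⌊Real.exp u⌋₊) := by
  have h1 : (fun u : ℝ => 2 * S ⌊Real.exp u⌋₊) = (fun n : ℕ => 2 * S n) ∘ fun u => ⌊Real.exp u⌋₊ := rfl
  rw [h1]
  exact (measurable_from_top).comp (Nat.measurable_floor.comp Real.measurable_exp)

theorem lapC_add {f g : ℝ → ℝ} (hf : Measurable f) (hg : Measurable g) {z : ℂ} (h1 : LInt f z.re)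
    (h2 : LInt g z.re) : lapC (fun u => f u + g u) z = lapC f z + lapC g z := by
  unfold lapC
  rw [← integral_add (h1.complex hf) (h2.complex hg)]
  congr 1
  funext u
  push_cast
  ring

theorem lapC_smul (f : ℝ → ℝ) (k : ℝ) (z : ℂ) : lapC (fun u => k * f u) z = k * lapC f z := by
  unfold lapC
  rw [← integral_const_mul]
  congr 1
  funext u
  push_cast
  ring

theorem SC_split (S : ℕ → ℝ) (κ : ℂ) (k : ℕ) : (fun u : ℝ => 2 * SC S κ k ⌊Real.exp u⌋₊) =
    fun u => (2 * S ⌊Real.exp u⌋₊ + k * JJ κ u) + k * dl κ u := by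
  funext u
  unfold SC dl
  ring

theorem RK_mero (κ z : ℂ) : MeromorphicAt (RK κ) z := by
  unfold RK
  fun_prop

theorem PD.corr (D : PD S Φ G c0) (hκ : κ.re ≤ 1 / 2) (k : ℕ) :
    PD (SC S κ k) (PC Φ κ k) (GC' G κ k) (max c0 (2 * ‖κ‖)) where
  md := {
    meas := meas_any _
    c0_nonneg := D.md.c0_nonneg.trans (le_max_left _ _)
    int := fun w hw => by
      rw [SC_split]
      have h1 : c0 < w := (le_max_left _ _).trans_lt hw
      have h2 : 2 * ‖κ‖ < w := (le_max_right _ _).trans_lt hw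
      have h0 := D.md.c0_nonneg
      exact ((D.md.int w h1).add ((JJ_LInt κ h2).const_mul _)).add (dl_LInt hκ _ (by linarith))
    mero := fun z hz => by
      have h1 := D.md.mero z hz
      have h2 := (RK_mero κ z).pow k
      exact h1.mul h2
    hG := fun z hz => by
      unfold GC'
      exact (D.md.hG z hz).add (differentiableAt_id.mul (lapC_differentiableAt
        ((dl_meas κ).const_mul _) (fun w hw => dl_LInt hκ _ hw) hz))
    hGre := fun w hw => by
      unfold GC'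
      rw [lapC_ofReal, Complex.add_im, D.md.hGre w hw, ← Complex.ofReal_mul, Complex.ofReal_im, add_zero]
    eq := fun z hz => by
      have h1 : c0 < z.re := (le_max_left _ _).trans_lt hz
      have h2 : 2 * ‖κ‖ < z.re := (le_max_right _ _).trans_lt hz
      have h0 := D.md.c0_nonneg
      have h3 : (0 : ℝ) < z.re := by linarith
      unfold PC GC'
      rw [SC_split, D.md.eq z h1]
      have e1 : RK κ z = Complex.exp (-(z * lapC (JJ κ) z)) := (exp_JJ κ h2).symm
      have m1 : Measurable fun u => (k : ℝ) * JJ κ u := (JJ_cont κ).measurable.const_mul _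
      have e2 := lapC_add (f := fun u => 2 * S ⌊Real.exp u⌋₊ + k * JJ κ u) (g := fun u => (k : ℝ) * dl κ u)
        (z := z) (D.md.meas.add m1) ((dl_meas κ).const_mul _)
        ((D.md.int _ h1).add ((JJ_LInt κ h2).const_mul _)) (dl_LInt hκ _ h3)
      have e3 := lapC_add (f := fun u => 2 * S ⌊Real.exp u⌋₊) (g := fun u => (k : ℝ) * JJ κ u)
        (z := z) D.md.meas m1 (D.md.int _ h1) ((JJ_LInt κ h2).const_mul _)
      rw [e1, ← Complex.exp_nat_mul, ← Complex.exp_add, e2, e3, lapC_smul (JJ κ) (k : ℝ) z]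
      congr 1
      push_cast
      ring }
  loc := loc_any _
  step := by
    have h1 : Tendsto (fun n : ℕ => 8 / √(n : ℝ)) atTop (𝓝 0) :=
      Tendsto.const_div_atTop (Real.tendsto_sqrt_atTop.comp tendsto_natCast_atTop_atTop) 8
    have h2 : Tendsto (fun n : ℕ => JJ κ (Real.log ((n + 1 : ℕ) : ℝ)) - JJ κ (Real.log (n : ℝ))) atTop
        (𝓝 0) := by
      refine squeeze_zero_norm' ?_ h1
      filter_upwards [eventually_ge_atTop 3] with n hn
      have h3 : (3 : ℝ) ≤ n := by exact_mod_cast hn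
      rw [Real.norm_eq_abs]
      exact JJ_near hκ h3 (by push_cast; linarith) (by push_cast; linarith)
    have h3 := D.step.add (h2.const_mul ((k : ℝ) / 2))
    rw [mul_zero, add_zero] at h3
    unfold Step
    refine h3.congr fun n => ?_
    unfold SC
    ring

theorem RK_order_zero (hκ : κ ≠ 0) : meromorphicOrderAt (RK κ) 0 = (-2 : ℤ) := by
  rw [meromorphicOrderAt_eq_int_iff (RK_mero κ 0)]
  refine ⟨fun z => (z - κ) * (z - conj κ), by fun_prop, ?_, ?_⟩
  · simp only [zero_sub]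
    refine mul_ne_zero (neg_ne_zero.2 hκ) (neg_ne_zero.2 ?_)
    exact (map_ne_zero _).2 hκ
  · filter_upwards with z
    unfold RK
    rw [sub_zero, zpow_neg, smul_eq_mul, div_eq_inv_mul]
    norm_cast

theorem Lead.corr (H : Lead Φ G M C g0) (hκ0 : κ ≠ 0) (hκ : κ.re ≤ 1 / 2) (k : ℕ) :
    Lead (PC Φ κ k) (GC' G κ k) (M - 2 * k) (C * (‖κ‖ ^ 2) ^ k) g0 where
  mero := H.mero.mul ((RK_mero κ 0).pow k)
  ord := by
    have h1 : meromorphicOrderAt (PC Φ κ k) 0 = meromorphicOrderAt Φ 0 + meromorphicOrderAt (RK κ ^ k) 0 :=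
      meromorphicOrderAt_mul H.mero ((RK_mero κ 0).pow k)
    rw [h1, H.ord, meromorphicOrderAt_pow (RK_mero κ 0), RK_order_zero hκ0]
    have h2 : ((k : WithTop ℤ) * ((-2 : ℤ) : WithTop ℤ)) = (((k : ℤ) * (-2) : ℤ) : WithTop ℤ) := by
      push_cast
      rfl
    rw [h2, ← WithTop.coe_add]
    congr 1
    ring
  pos := by
    have := H.pos
    have := norm_pos_iff.2 hκ0
    positivity
  lim := by
    have h1 : Tendsto (fun z : ℂ => ‖(z - κ) * (z - conj κ)‖ ^ k) (𝓝[≠] 0) (𝓝 ((‖κ‖ ^ 2) ^ k)) := by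
      have h2 : Continuous fun z : ℂ => ‖(z - κ) * (z - conj κ)‖ ^ k := by fun_prop
      have h3 := h2.tendsto 0
      have e : ‖(0 - κ) * (0 - conj κ)‖ ^ k = (‖κ‖ ^ 2) ^ k := by
        rw [zero_sub, zero_sub, norm_mul, norm_neg, norm_neg, Complex.norm_conj, pow_two]
      rw [e] at h3
      exact h3.mono_left nhdsWithin_le_nhds
    refine (H.lim.mul h1).congr' ?_
    filter_upwards [self_mem_nhdsWithin] with z hz
    have hz0 : ‖z‖ ≠ 0 := norm_ne_zero_iff.2 hz
    unfold PC RK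
    simp only [norm_mul, norm_pow, norm_div]
    rw [zpow_sub₀ hz0, div_pow, ← pow_mul, zpow_mul]
    have : (‖z‖ ^ (2 : ℤ)) ^ (k : ℤ) = ‖z‖ ^ (2 * k) := by
      rw [zpow_natCast, pow_mul]
      norm_cast
    rw [this]
    field_simp
  glim := by
    have h1 := H.glim.add (dl_abel hκ (k : ℝ))
    rw [add_zero] at h1
    refine h1.congr fun w => ?_
    unfold GC'
    rw [lapC_ofReal, ← Complex.ofReal_mul, Complex.add_re, Complex.ofReal_re]

end Pool.Agent.D0H40.SP
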