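import Pool.Agent.D0H40.SP.CorrD
import Pool.Agent.D0H40.AR.Shift

/-! The orders of the corrected function in terms of `(s - 1)^k F(s)`. -/

set_option autoImplicit false

namespace Pool.Agent.D0H40.SP

open MeasureTheory Filter Topology Set
open Pool.Agent.D0H40.AR
open scoped ComplexConjugate

/-- the point where the pole of the zeta function appears -/
noncomputable def kap1 (γ : ℝ) : ℂ := 1 / 2 - γ * Complex.I

theorem kap1_re (γ : ℝ) : (kap1 γ).re ≤ 1 / 2 := by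
  unfold kap1
  rw [Complex.sub_re, Complex.re_ofReal_mul, Complex.I_re, mul_zero, sub_zero, half_re]

theorem kap1_ne (γ : ℝ) : kap1 γ ≠ 0 := by
  intro h
  have h1 := congrArg Complex.re h
  unfold kap1 at h1
  rw [Complex.sub_re, Complex.re_ofReal_mul, Complex.I_re, mul_zero, sub_zero, half_re, Complex.zero_re] at h1
  norm_num at h1

theorem kap1_conj (γ : ℝ) : conj (kap1 γ) = 1 / 2 + γ * Complex.I := by
  unfold kap1
  rw [map_sub, map_mul, Complex.conj_ofReal, Complex.conj_I, map_div₀, map_one, map_ofNat]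
  ring

/-- the shifted function with the factor which removes the pole -/
noncomputable def Tg (T : ℂ → ℂ) (γ : ℝ) (k : ℕ) (s : ℂ) : ℂ := (s + γ * Complex.I - 1) ^ k * T s

theorem PC_eq (T : ℂ → ℂ) (γ : ℝ) (k : ℕ) :
    PC (Ph T) (kap1 γ) k = fun z => Ph (Tg T γ k) z * ((z ^ 2)⁻¹) ^ k := by
  funext z
  have e0 : conj ((conj (1 / 2 + z) + γ * Complex.I - 1) ^ k) = (z - conj (kap1 γ)) ^ k := by
    rw [map_pow, map_sub, map_add (starRingEnd ℂ) (conj (1 / 2 + z)), Complex.conj_conj, map_mul,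
      Complex.conj_ofReal, Complex.conj_I, map_one, kap1_conj]
    congr 1
    ring
  have e1 : (1 : ℂ) / 2 + z + γ * Complex.I - 1 = z - kap1 γ := by
    unfold kap1
    ring
  unfold PC RK Ph Tg
  have e2 : ((z - kap1 γ) * (z - conj (kap1 γ)) / z ^ 2) ^ k =
      (z - kap1 γ) ^ k * (z - conj (kap1 γ)) ^ k * ((z ^ 2)⁻¹) ^ k := by
    rw [div_eq_mul_inv, mul_pow, mul_pow]
  rw [map_mul, e0, e1, e2]
  ring

theorem Tg_mero {T : ℂ → ℂ} {s : ℂ} (h : MeromorphicAt T s) (γ : ℝ) (k : ℕ) : MeromorphicAt (Tg T γ k) s := by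
  unfold Tg
  fun_prop

theorem PC_order {T : ℂ → ℂ} (h : ∀ s : ℂ, 1 / 2 < s.re → MeromorphicAt T s) (γ : ℝ) (k : ℕ) {z : ℂ}
    (hz : 0 < z.re) : meromorphicOrderAt (PC (Ph T) (kap1 γ) k) z = meromorphicOrderAt (Ph (Tg T γ k)) z := by
  have hT : ∀ s : ℂ, 1 / 2 < s.re → MeromorphicAt (Tg T γ k) s := fun s hs => Tg_mero (h s hs) γ k
  have hm : MeromorphicAt (Ph (Tg T γ k)) z := by
    rw [Ph_eq]
    refine (mero_half (hT _ ?_)).mul (mero_conj (mero_half (hT _ ?_)))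
    · rw [Complex.add_re, half_re]
      linarith
    · rw [Complex.add_re, half_re, Complex.conj_re]
      linarith
  have hz0 : z ≠ 0 := by
    rintro rfl
    simp at hz
  have han : AnalyticAt ℂ (fun z : ℂ => ((z ^ 2)⁻¹) ^ k) z := by
    have : z ^ 2 ≠ 0 := pow_ne_zero 2 hz0
    fun_prop (disch := assumption)
  have hne : ((z ^ 2)⁻¹) ^ k ≠ 0 := pow_ne_zero _ (inv_ne_zero (pow_ne_zero _ hz0))
  rw [PC_eq]
  have h1 : meromorphicOrderAt (fun z => Ph (Tg T γ k) z * ((z ^ 2)⁻¹) ^ k) z =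
      meromorphicOrderAt (Ph (Tg T γ k)) z + meromorphicOrderAt (fun z : ℂ => ((z ^ 2)⁻¹) ^ k) z :=
    meromorphicOrderAt_mul hm han.meromorphicAt
  rw [h1, order_zero han hne, add_zero]

theorem PC_rhm {T : ℂ → ℂ} (h : ∀ s : ℂ, 1 / 2 < s.re → MeromorphicAt T s) (γ : ℝ) (k : ℕ) :
    RHm (PC (Ph T) (kap1 γ) k) ↔ ∀ s : ℂ, 1 / 2 < s.re → od (Tg T γ k) s = 0 := by
  rw [← rhm_iff (fun s hs => Tg_mero (h s hs) γ k)]
  unfold RHm
  refine forall_congr' fun z => forall_congr' fun hz => ?_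
  rw [PC_order h γ k hz]

theorem PC_dom {T : ℂ → ℂ} (h : ∀ s : ℂ, 1 / 2 < s.re → MeromorphicAt T s) (γ : ℝ) (k : ℕ)
    {Q : WithTop ℤ → Prop} :
    (∃ s : ℝ, 0 < s ∧ Q (meromorphicOrderAt (PC (Ph T) (kap1 γ) k) (s : ℂ)) ∧
      ∀ z : ℂ, s < z.re → meromorphicOrderAt (PC (Ph T) (kap1 γ) k) z = 0) ↔
    ∃ s : ℝ, 1 / 2 < s ∧ Q (od (Tg T γ k) s) ∧ ∀ z : ℂ, s < z.re → od (Tg T γ k) z = 0 := by
  rw [← dom_iff (fun s hs => Tg_mero (h s hs) γ k)]
  refine exists_congr fun s => and_congr_right fun hs => ?_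
  rw [PC_order h γ k (by rwa [Complex.ofReal_re])]
  refine and_congr_right fun _ => forall_congr' fun z => forall_congr' fun hz => ?_
  rw [PC_order h γ k (by linarith)]

theorem PC_od {T : ℂ → ℂ} (h : ∀ s : ℂ, 1 / 2 < s.re → MeromorphicAt T s) (γ : ℝ) (k : ℕ) {s : ℂ}
    (hs : 1 / 2 < s.re) : meromorphicOrderAt (PC (Ph T) (kap1 γ) k) (s - 1 / 2) = od (Tg T γ k) s := by
  rw [PC_order h γ k (by rw [Complex.sub_re, half_re]; linarith)]
  exact od_half (fun s hs => Tg_mero (h s hs) γ k) hs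

end Pool.Agent.D0H40.SP
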