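import Pool.Agent.D0H40.SP.Inst

/-! The limit of the correction function at the edge. -/

set_option autoImplicit false

namespace Pool.Agent.D0H40.SP

open MeasureTheory Filter Topology Set
open Pool.Agent.W263.BSD
open Pool.Agent.D0H40.CX
open Pool.Agent.D0H40.AR
open scoped ComplexConjugate

/-! ### An Abelian theorem -/

theorem abel_up {f : ℝ → ℝ} (hi : ∀ w > 0, LInt f w) {B K U : ℝ} (hU : 0 ≤ U)
    (hle : ∀ u, U < u → f u ≤ B) (hloc : ∀ u, 0 < u → u ≤ U → f u ≤ K) {w : ℝ} (hw0 : 0 < w) :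
    w * lap f w ≤ B + (K + |B|) * (1 - Real.exp (-(w * U))) := by
  have hg1 : LInt (fun _ => B * 1) w := (one_LInt hw0).const_mul B
  have hg2 := (st_LInt U hw0).const_mul (K + |B|)
  have h4 := lap_mono (hi w hw0) (hg1.add hg2) (fun u hu => by
    unfold st
    have := neg_abs_le B
    rcases le_or_gt u U with h | h
    · rw [if_pos h]
      have := hloc u hu h
      linarith
    · rw [if_neg (not_le.mpr h)]
      have := hle u h
      linarith)
  rw [lap_add hg1 hg2, lap_const_mul, lap_const_mul, one_lap hw0, st_lap hU hw0] at h4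
  have h5 := mul_le_mul_of_nonneg_left h4 hw0.le
  have h6 : w * (B * (1 / w) + (K + |B|) * ((1 - Real.exp (-(w * U))) / w)) =
      B + (K + |B|) * (1 - Real.exp (-(w * U))) := by field_simp
  rwa [h6] at h5

theorem exp_small (K U : ℝ) {ε : ℝ} (hε : 0 < ε) :
    ∀ᶠ w : ℝ in 𝓝[>] 0, K * (1 - Real.exp (-(w * U))) < ε := by
  have h1 : Tendsto (fun w : ℝ => K * (1 - Real.exp (-(w * U)))) (𝓝[>] 0)
      (𝓝 (K * (1 - Real.exp (-(0 * U))))) := by
    have h2 : Continuous fun w : ℝ => K * (1 - Real.exp (-(w * U))) := by fun_prop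
    exact tendsto_nhdsWithin_of_tendsto_nhds (h2.tendsto 0)
  have h3 : K * (1 - Real.exp (-(0 * U))) = 0 := by simp
  rw [h3] at h1
  exact h1.eventually (gt_mem_nhds hε)

theorem abel_tendsto {f : ℝ → ℝ} (hi : ∀ w > 0, LInt f w) (hloc : Loc f) {L : ℝ}
    (hL : Tendsto f atTop (𝓝 L)) : Tendsto (fun w => w * lap f w) (𝓝[>] 0) (𝓝 L) := by
  have key : ∀ (g : ℝ → ℝ) (M : ℝ), (∀ w > 0, LInt g w) → Loc g → Tendsto g atTop (𝓝 M) →
      ∀ ε > 0, ∀ᶠ w : ℝ in 𝓝[>] 0, w * lap g w < M + ε := by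
    intro g M hg hl hM ε hε
    obtain ⟨U, hU⟩ := eventually_atTop.mp (hM.eventually (gt_mem_nhds (by linarith : M < M + ε / 2)))
    obtain ⟨K, hK, hKb⟩ := hl (max U 0)
    filter_upwards [exp_small (K + |M + ε / 2|) (max U 0) (half_pos hε), self_mem_nhdsWithin] with w h1 h2
    have hw : (0 : ℝ) < w := h2
    have h3 := abel_up hg (B := M + ε / 2) (K := K) (le_max_right U 0)
      (fun u hu => (hU u ((le_max_left _ _).trans hu.le)).le)
      (fun u _ hu => (abs_le.1 (hKb u hu)).2) hw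
    linarith
  rw [tendsto_order]
  constructor
  · intro x hx
    have h1 := key (fun u => -f u) (-L) (fun w hw => (hi w hw).neg) (fun V => by
      obtain ⟨K, hK, hKb⟩ := hloc V
      exact ⟨K, hK, fun u hu => by rw [abs_neg]; exact hKb u hu⟩) hL.neg (L - x) (by linarith)
    filter_upwards [h1] with w h2
    rw [lap_neg'] at h2
    linarith
  · intro x hx
    have h1 := key f L hi hloc hL (x - L) (by linarith)
    filter_upwards [h1] with w h2
    linarith

/-! ### The step function -/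

variable {G : ℕ → Prop} {d : ℕ} {α : ℕ → Fin d → ℂ}

/-- the coefficients -/
noncomputable def cP (G : ℕ → Prop) (α : ℕ → Fin d → ℂ) : ℕ → ℝ := cn (qA G d) (tA G α)

open Classical in
theorem cP_eq (H : Par G α) (n : ℕ) : cP G α n = if G n then 2 * lsum α n else 0 := by
  unfold cP cn
  split_ifs with hn
  · let e : Fin d → (qA G d ⁻¹' {n}) := fun j => ⟨(⟨n, hn⟩, j), rfl⟩
    have he : Function.Bijective e := by
      constructor
      · intro i j hij
        exact congrArg (fun x : (qA G d ⁻¹' {n}) => (x : PA G d).2) hij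
      · rintro ⟨⟨⟨p, hp⟩, j⟩, hv⟩
        have hpn : p = n := hv
        subst hpn
        exact ⟨j, rfl⟩
    rw [← (Equiv.ofBijective e he).tsum_eq, tsum_fintype]
    unfold lsum
    rw [Finset.mul_sum]
    refine Finset.sum_congr rfl fun j _ => ?_
    exact H.cv_eq (⟨n, hn⟩, j)
  · have : IsEmpty (qA G d ⁻¹' {n}) := ⟨fun v => hn (by
      have h2 : qA G d v = n := v.2
      rw [← h2]
      exact v.1.1.2)⟩
    exact tsum_empty

theorem stp_cP (H : Par G α) (u : ℝ) : stp (cP G α) u = 2 * ∑ p ∈ up G (Real.exp u), lsum α p := by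
  classical
  unfold stp up
  rw [Finset.mul_sum, Finset.sum_filter]
  exact Finset.sum_congr rfl fun n _ => cP_eq H n

/-! ### The correction function near `0` -/

section G0

variable {P : Type} {q : P → ℕ} {t : P → ℝ}

theorem gv_rem (N : NS q t d) : Tendsto (fun w : ℝ => ∑' v, (gv q t v w -
    m2 (t v) (dn (q v)) * (xq (q v) w - xq (q v) w ^ 2))) (𝓝[>] 0) (𝓝 0) := by
  have hb : Summable fun v => 4 * (q v : ℝ) ^ (-(3 / 2) : ℝ) := (N.sum_pow (by norm_num)).mul_left 4
  have h0 : (0 : ℂ) = ∑' _ : P, (0 : ℂ) := tsum_zero.symm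
  rw [h0]
  refine tendsto_tsum_of_dominated_convergence hb (fun v => ?_) ?_
  · have h5 := N.five v
    have hx : DifferentiableAt ℂ (xq (q v)) 0 := by
      unfold xq
      fun_prop
    have hx1 : xq (q v) 0 = 1 := by
      unfold xq
      simp
    have hd : DifferentiableAt ℂ (fun w => gv q t v w -
        m2 (t v) (dn (q v)) * (xq (q v) w - xq (q v) w ^ 2)) 0 := by
      refine DifferentiableAt.sub ?_ ((hx.sub (hx.pow 2)).const_mul _)
      unfold gv g2
      exact (hx.const_mul _).sub (lf_diff (dn_nonneg _) (by have := dn_le h5; linarith) (N.hasse v) hx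
        (by rw [hx1]; simp))
    have h1 := hd.continuousAt.tendsto
    have h2 : Tendsto (fun w : ℝ => (w : ℂ)) (𝓝[>] (0 : ℝ)) (𝓝 (0 : ℂ)) := by
      have := tendsto_nhdsWithin_of_tendsto_nhds (s := Ioi (0 : ℝ)) (Complex.continuous_ofReal.tendsto 0)
      rwa [Complex.ofReal_zero] at this
    have h3 := h1.comp h2
    have h4 : gv q t v 0 - m2 (t v) (dn (q v)) * (xq (q v) 0 - xq (q v) 0 ^ 2) = 0 := by
      unfold gv g2
      rw [hx1, lf_one (dn_nonneg _) (by have := dn_le h5; linarith) (N.hasse v)]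
      unfold c2
      ring
    rw [h4] at h3
    exact h3
  · filter_upwards [self_mem_nhdsWithin] with w hw v
    have hw' : (0 : ℝ) < w := hw
    exact N.gv_main v (by rw [Complex.ofReal_re]; exact hw'.le)

theorem m2_summable (N : NS q t d) {w : ℝ} (hw : 0 < w) : Summable fun v =>
    (m2 (t v) (dn (q v)) * (xq (q v) w - xq (q v) w ^ 2) : ℂ) := by
  have hb : Summable fun v => 4 * (q v : ℝ) ^ (-(3 / 2) : ℝ) := (N.sum_pow (by norm_num)).mul_left 4
  have h1 := N.gv_summable (w := (w : ℂ)) (by rwa [Complex.ofReal_re])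
  have h2 : Summable fun v => gv q t v w - m2 (t v) (dn (q v)) * (xq (q v) w - xq (q v) w ^ 2) :=
    Summable.of_norm_bounded hb fun v => N.gv_main v (by rw [Complex.ofReal_re]; exact hw.le)
  refine (h1.sub h2).congr fun v => ?_
  ring

end G0

/-- the coefficients of the correction -/
noncomputable def bb (G : ℕ → Prop) (α : ℕ → Fin d → ℂ) (n : ℕ) : ℝ := bG G α n / n

theorem m2_par (H : Par G α) (v : PA G d) :
    m2 (tA G α v) (dn (qA G d v)) = -((α v.1.1 v.2 ^ 2).re / v.1.1) := by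
  have h1 := H.unit v.1.1 v.1.2 v.2
  have h2 : (α v.1.1 v.2 ^ 2).re = 2 * (α v.1.1 v.2).re ^ 2 - 1 := by
    have h3 : (α v.1.1 v.2).re * (α v.1.1 v.2).re + (α v.1.1 v.2).im * (α v.1.1 v.2).im = 1 := by
      rw [← Complex.normSq_apply, ← Complex.sq_norm, h1, one_pow]
    rw [pow_two, Complex.mul_re]
    linarith
  have h4 : dn (qA G d v) = dn v.1.1 := rfl
  have h5 := dn_sq v.1.1
  have h6 : (2 * (α v.1.1 v.2).re ^ 2 - 1) / (v.1.1 : ℝ) = (2 * (α v.1.1 v.2).re ^ 2 - 1) * dn v.1.1 ^ 2 := by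
    rw [h5, div_eq_mul_inv]
  unfold m2 tA
  rw [h4, h2, h6]
  ring

theorem m2_tsum (H : Par G α) {w : ℝ} (hw : 0 < w) :
    ∑' v : PA G d, (m2 (tA G α v) (dn (qA G d v)) * (xq (qA G d v) w - xq (qA G d v) w ^ 2) : ℂ) =
      -∑' n : ℕ, (bb G α n : ℂ) * (xq n w - xq n w ^ 2) := by
  classical
  have h1 := m2_summable H.ns hw
  rw [h1.tsum_prod, ← tsum_neg]
  have h2 : ∀ p : {p // G p}, ∑' j : Fin d, (m2 (tA G α (p, j)) (dn (qA G d (p, j))) *
      (xq (qA G d (p, j)) w - xq (qA G d (p, j)) w ^ 2) : ℂ) =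
      (fun n : ℕ => -((bb G α n : ℂ) * (xq n w - xq n w ^ 2))) p := by
    intro p
    rw [tsum_fintype]
    have h3 : ∀ j ∈ (Finset.univ : Finset (Fin d)), (m2 (tA G α (p, j)) (dn (qA G d (p, j))) *
        (xq (qA G d (p, j)) w - xq (qA G d (p, j)) w ^ 2) : ℂ) =
        ((α p.1 j ^ 2).re : ℂ) * (-(((p.1 : ℕ) : ℂ)⁻¹ * (xq p.1 w - xq p.1 w ^ 2))) := by
      intro j _
      rw [m2_par H (p, j)]
      simp only [qA]
      push_cast
      ring
    rw [Finset.sum_congr rfl h3, ← Finset.sum_mul]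
    have hb : bb G α p.1 = (∑ j, α p.1 j ^ 2).re / p.1 := by
      unfold bb bG bsq
      rw [if_pos p.2]
    show _ = -((bb G α p.1 : ℂ) * (xq p.1 w - xq p.1 w ^ 2))
    rw [hb, Complex.re_sum]
    push_cast
    ring
  rw [tsum_congr h2]
  have h3 : Function.support (fun n : ℕ => -((bb G α n : ℂ) * (xq n w - xq n w ^ 2))) ⊆
      {n | G n} := by
    intro n hn
    by_contra hc
    have hc' : ¬ G n := hc
    refine hn ?_
    unfold bb bG
    simp only [if_neg hc', zero_div, Complex.ofReal_zero, zero_mul, neg_zero]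
  exact tsum_subtype_eq_of_support_subset h3

theorem bb_sum (H : Par G α) (w : ℝ) (hw : 0 < w) : Summable fun n : ℕ => |bb G α n| * (n : ℝ) ^ (-w) := by
  refine Summable.of_nonneg_of_le (fun n => by positivity) (fun n => ?_)
    ((Real.summable_nat_rpow.mpr (by linarith : -(1 + w) < -1)).mul_left (d : ℝ))
  rcases Nat.eq_zero_or_pos n with h | h
  · subst h
    unfold bb
    rw [Nat.cast_zero, div_zero, abs_zero, zero_mul]
    positivity
  · have hn : (0 : ℝ) < n := by exact_mod_cast h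
    have h2 : (n : ℝ) ^ (-(1 + w)) = (n : ℝ)⁻¹ * (n : ℝ) ^ (-w) := by
      rw [neg_add, Real.rpow_add hn, Real.rpow_neg_one]
    rw [h2, ← mul_assoc]
    refine mul_le_mul_of_nonneg_right ?_ (by positivity)
    unfold bb
    rw [abs_div, abs_of_pos hn, div_eq_mul_inv]
    exact mul_le_mul_of_nonneg_right (H.bG_le n) (by positivity)

theorem bb_zero : bb G α 0 = 0 := by
  unfold bb
  simp

/-- the window sum -/
noncomputable def win (G : ℕ → Prop) (α : ℕ → Fin d → ℂ) (u : ℝ) : ℝ :=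
  stp (bb G α) u - stp (bb G α) (u / 2)

theorem G_lim (H : Par G α) {L : ℝ} (hL : Tendsto (win G α) atTop (𝓝 L)) :
    Tendsto (fun w : ℝ => (Gn (qA G d) (tA G α) w).re) (𝓝[>] 0) (𝓝 (-L)) := by
  have hint : ∀ w > 0, LInt (stp (bb G α)) w := fun w hw =>
    stp_LInt1 bb_zero le_rfl (fun w hw => bb_sum H w hw) hw
  have hloc : Loc (stp (bb G α)) := stp_loc bb_zero zero_le_one (bb_sum H 1 one_pos)
  have h1 := abel_tendsto (f := win G α) (fun w hw => (hint w hw).sub (LInt_half (hint _ (by linarith))))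
    (fun V => by
      obtain ⟨K, hK, h1⟩ := hloc V
      obtain ⟨K', hK', h1'⟩ := hloc (V / 2)
      refine ⟨K + K', by linarith, fun u hu => ?_⟩
      unfold win
      refine (abs_sub _ _).trans (add_le_add (h1 u hu) (h1' (u / 2) (by linarith)))) hL
  have h2 := (Complex.continuous_re.tendsto 0).comp (gv_rem H.ns)
  rw [Complex.zero_re] at h2
  have h3 := h2.sub h1
  rw [zero_sub] at h3
  refine h3.congr' ?_
  filter_upwards [self_mem_nhdsWithin] with w hw
  have hw0 : (0 : ℝ) < w := hw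
  simp only [Function.comp_apply]
  have hg := H.ns.gv_summable (w := (w : ℂ)) (by rwa [Complex.ofReal_re])
  have hm := m2_summable H.ns hw0
  rw [hg.tsum_sub hm, m2_tsum H hw0]
  have e1 : w * lap (win G α) w = w * lap (stp (bb G α)) w - (2 * w) * lap (stp (bb G α)) (2 * w) := by
    unfold win
    rw [lap_sub (hint w hw0) (LInt_half (hint _ (by linarith))), mul_sub, lap_half]
  have s1 := stp_lapC (c := bb G α) bb_zero (z := (w : ℂ)) (by rwa [Complex.ofReal_re])
    (by rw [Complex.ofReal_re]; exact bb_sum H w hw0)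
  have s2 := stp_lapC (c := bb G α) bb_zero (z := ((2 * w : ℝ) : ℂ)) (by rw [Complex.ofReal_re]; linarith)
    (by rw [Complex.ofReal_re]; exact bb_sum H _ (by linarith))
  rw [lapC_ofReal] at s1 s2
  have s3 := s1.sub s2
  have e2 : (fun n : ℕ => (bb G α n : ℂ) * xq n (w : ℂ) - (bb G α n : ℂ) * xq n ((2 * w : ℝ) : ℂ)) =
      fun n : ℕ => (bb G α n : ℂ) * (xq n w - xq n w ^ 2) := by
    funext n
    have : xq n ((2 * w : ℝ) : ℂ) = xq n w ^ 2 := by
      unfold xq
      rw [← Complex.exp_nat_mul]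
      congr 1
      push_cast
      ring
    rw [this]
    ring
  rw [e2] at s3
  rw [s3.tsum_eq]
  have e3 : ((w : ℂ) * (lap (stp (bb G α)) w : ℂ) - ((2 * w : ℝ) : ℂ) * (lap (stp (bb G α)) (2 * w) : ℂ)) =
      ((w * lap (win G α) w : ℝ) : ℂ) := by
    rw [e1]
    push_cast
    ring
  rw [e3]
  unfold Gn
  simp only [Complex.sub_re, Complex.neg_re, Complex.ofReal_re]
  ring

end Pool.Agent.D0H40.SP
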