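import Pool.Agent.D0H40.SP.Conv
import Pool.Agent.D0H40.AR.Osc2

/-! The step function of an Euler product with parameters of absolute value one. -/

set_option autoImplicit false

namespace Pool.Agent.D0H40.SP

open MeasureTheory Filter Topology Set
open Pool.Agent.W263.BSD
open Pool.Agent.D0H40.CX
open Pool.Agent.D0H40.AR
open Pool.Agent.W189.ML (ser)
open scoped ComplexConjugate

/-! ### Step functions -/

section Step

variable {c : ℕ → ℝ}

theorem stp_LInt1 (h0 : c 0 = 0) {w0 : ℝ} (hw0 : 0 ≤ w0)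
    (hs : ∀ w : ℝ, w0 < w → Summable fun n : ℕ => |c n| * (n : ℝ) ^ (-w)) {w : ℝ} (hw : w0 < w) :
    LInt (stp c) w := by
  have h2 : w0 < (w0 + w) / 2 := by linarith
  have h1 : LInt (fun u => (∑' n : ℕ, |c n| * (n : ℝ) ^ (-((w0 + w) / 2))) *
      Real.exp ((w0 + w) / 2 * u)) w := (LInt_exp (by linarith)).const_mul _
  refine LInt.of_bound (stp_meas c) h1 fun u _ => ?_
  exact stp_abs h0 (hs _ h2) (by linarith) u

theorem stp_loc (h0 : c 0 = 0) {w : ℝ} (hw : 0 ≤ w)
    (hs : Summable fun n : ℕ => |c n| * (n : ℝ) ^ (-w)) : Loc (stp c) := by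
  intro V
  have h1 : 0 ≤ ∑' n : ℕ, |c n| * (n : ℝ) ^ (-w) := tsum_nonneg fun n => by positivity
  refine ⟨(∑' n : ℕ, |c n| * (n : ℝ) ^ (-w)) * Real.exp (w * V), by positivity, fun u hu => ?_⟩
  refine (stp_abs h0 hs hw u).trans (mul_le_mul_of_nonneg_left (Real.exp_le_exp.2 ?_) h1)
  exact mul_le_mul_of_nonneg_left hu hw

theorem stp_lapC (h0 : c 0 = 0) {z : ℂ} (hz : 0 < z.re)
    (hs : Summable fun n : ℕ => |c n| * (n : ℝ) ^ (-z.re)) :
    HasSum (fun n : ℕ => (c n : ℂ) * xq n z) (z * lapC (stp c) z) := by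
  have hz0 : z ≠ 0 := by
    rintro rfl
    simp at hz
  set F : ℕ → ℝ → ℂ := fun n u => (c n : ℂ) * (Ici (Real.log n)).indicator
    (fun u : ℝ => Complex.exp (-z * u)) u with hF
  have hre : (-z).re < 0 := by
    rw [Complex.neg_re]
    linarith
  have hI : ∀ n : ℕ, 1 ≤ n → ∫ u in Ioi (0 : ℝ), (Ici (Real.log n)).indicator
      (fun u : ℝ => Complex.exp (-z * u)) u = xq n z / z := by
    intro n hn
    have hlog : 0 ≤ Real.log n := Real.log_nonneg (by exact_mod_cast hn)
    have e1 : ∫ u in Ioi (0 : ℝ), (Ici (Real.log n)).indicator (fun u : ℝ => Complex.exp (-z * u)) u =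
        ∫ u in Ici (0 : ℝ), (Ici (Real.log n)).indicator (fun u : ℝ => Complex.exp (-z * u)) u :=
      integral_Ici_eq_integral_Ioi.symm
    rw [e1, setIntegral_indicator measurableSet_Ici, Ici_inter_Ici, sup_eq_right.mpr hlog,
      integral_Ici_eq_integral_Ioi, integral_exp_mul_complex_Ioi hre]
    unfold xq
    rw [neg_div_neg_eq, neg_mul]
  have hInt : ∀ n : ℕ, Integrable (fun u : ℝ => (Ici (Real.log n)).indicator
      (fun u : ℝ => Complex.exp (-z * u)) u) (volume.restrict (Ioi 0)) := by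
    intro n
    have h1 : IntegrableOn (fun u : ℝ => Complex.exp (-z * u)) (Ioi 0) :=
      integrableOn_exp_mul_complex_Ioi hre 0
    exact h1.indicator measurableSet_Ici
  have hIn : ∀ n : ℕ, 1 ≤ n → ∫ u in Ioi (0 : ℝ), (Ici (Real.log n)).indicator
      (fun u => Real.exp (-z.re * u)) u = (n : ℝ) ^ (-z.re) / z.re := by
    intro n hn
    have hn' : (0 : ℝ) < n := by exact_mod_cast hn
    have hlog : 0 ≤ Real.log n := Real.log_nonneg (by exact_mod_cast hn)
    have e1 : ∫ u in Ioi (0 : ℝ), (Ici (Real.log n)).indicator (fun u => Real.exp (-z.re * u)) u =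
        ∫ u in Ici (0 : ℝ), (Ici (Real.log n)).indicator (fun u => Real.exp (-z.re * u)) u :=
      integral_Ici_eq_integral_Ioi.symm
    rw [e1, setIntegral_indicator measurableSet_Ici, Ici_inter_Ici, sup_eq_right.mpr hlog,
      integral_Ici_eq_integral_Ioi, integral_exp_mul_Ioi (by linarith)]
    rw [Real.rpow_def_of_pos hn', neg_div_neg_eq]
    congr 2
    ring
  have h1 : ∀ n, Integrable (F n) (volume.restrict (Ioi 0)) := fun n => (hInt n).const_mul _
  have hnorm : ∀ n u, ‖F n u‖ = |c n| * (Ici (Real.log n)).indicator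
      (fun u => Real.exp (-z.re * u)) u := by
    intro n u
    rw [hF]
    simp only []
    rw [norm_mul, Complex.norm_real, Real.norm_eq_abs]
    congr 1
    by_cases hu : u ∈ Ici (Real.log n)
    · rw [indicator_of_mem hu, indicator_of_mem hu, Complex.norm_exp, Complex.re_mul_ofReal, Complex.neg_re]
    · rw [indicator_of_notMem hu, indicator_of_notMem hu, norm_zero]
  have h2 : Summable fun n => ∫ u in Ioi (0 : ℝ), ‖F n u‖ := by
    refine (hs.mul_right (1 / z.re)).congr fun n => ?_
    simp only [hnorm]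
    rw [integral_const_mul]
    rcases Nat.eq_zero_or_pos n with rfl | hn
    · rw [h0]; simp
    · rw [hIn n hn]; ring
  have h3 := hasSum_integral_of_summable_integral_norm h1 h2
  have h4 : ∫ u in Ioi (0 : ℝ), ∑' n, F n u = lapC (stp c) z := by
    unfold lapC
    refine setIntegral_congr_fun measurableSet_Ioi fun u _ => ?_
    have h5 : ∀ n ∉ Finset.range (⌊Real.exp u⌋₊ + 1), F n u = 0 := by
      intro n hn
      rw [hF]
      simp only []
      rcases Nat.eq_zero_or_pos n with rfl | hn0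
      · rw [h0, Complex.ofReal_zero, zero_mul]
      · rw [stp_mem (by omega)] at hn
        rw [indicator_of_notMem (by simpa using hn), mul_zero]
    rw [tsum_eq_sum h5]
    unfold stp
    rw [Complex.ofReal_sum, Finset.sum_mul]
    refine Finset.sum_congr rfl fun n hn => ?_
    rw [hF]
    simp only []
    rcases Nat.eq_zero_or_pos n with rfl | hn0
    · rw [h0, Complex.ofReal_zero, zero_mul, zero_mul]
    · rw [stp_mem (by omega)] at hn
      rw [indicator_of_mem (by simpa using hn), neg_mul]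
  rw [h4] at h3
  have h5 := h3.mul_left z
  refine h5.congr_fun fun n => ?_
  rw [hF]
  simp only []
  rw [integral_const_mul]
  rcases Nat.eq_zero_or_pos n with rfl | hn0
  · rw [h0]; simp
  · rw [hI n hn0]
    field_simp

end Step

/-! ### The data of a family -/

section Fam

variable {P : Type} {q : P → ℕ} {t : P → ℝ} {d : ℕ}

theorem cn_sum (N : NS q t d) {w : ℝ} (hw : 1 / 2 < w) :
    Summable fun n : ℕ => |cn q t n| * (n : ℝ) ^ (-w) := by
  refine Summable.of_nonneg_of_le (fun n => by positivity) (fun n => ?_)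
    ((Real.summable_nat_rpow.mpr (by linarith : -(1 / 2 + w) < -1)).mul_left (3 * d : ℝ))
  rcases Nat.eq_zero_or_pos n with h | h
  · rw [h, N.cn_small (by omega), abs_zero, zero_mul]
    positivity
  · have h2 : (n : ℝ) ^ (-(1 / 2 + w)) = dn n * (n : ℝ) ^ (-w) := by
      unfold dn
      rw [← Real.rpow_add (by exact_mod_cast h)]
      congr 1
      ring
    rw [h2, ← mul_assoc]
    refine mul_le_mul_of_nonneg_right ((N.cn_le n).trans (le_of_eq ?_)) (by positivity)
    ring

theorem lf_conj {t δ : ℝ} (hδ : 0 ≤ δ) (hδ1 : δ < 1) (ht : |t| ≤ 2 * δ) {x : ℝ} (hx : ‖(x : ℂ)‖ ≤ 1) :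
    conj (lf t δ x) = lf t δ x := by
  obtain ⟨h1, h2⟩ := lf_slit hδ hδ1 ht hx
  unfold lf
  rw [map_add, ← Complex.log_conj _ (Complex.slitPlane_arg_ne_pi h1),
    ← Complex.log_conj _ (Complex.slitPlane_arg_ne_pi h2)]
  simp only [map_sub, map_one, map_mul, Complex.conj_conj, Complex.conj_ofReal]
  ring

theorem xq_real (n : ℕ) (w : ℝ) : xq n w = ((Real.exp (-(w * Real.log n)) : ℝ) : ℂ) := by
  unfold xq
  push_cast
  rfl

theorem gv_conj (N : NS q t d) (v : P) {w : ℝ} (hw : 0 ≤ w) : conj (gv q t v w) = gv q t v w := by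
  have h5 := N.five v
  have h1 := xq_le (n := q v) (by omega) (w := (w : ℂ)) (by rwa [Complex.ofReal_re])
  unfold gv g2
  rw [xq_real] at h1 ⊢
  rw [map_sub, map_mul, Complex.conj_ofReal, Complex.conj_ofReal,
    lf_conj (dn_nonneg _) (by have := dn_le h5; linarith) (N.hasse v) h1]

theorem Gn_real (N : NS q t d) {w : ℝ} (hw : 0 < w) : (Gn q t w).im = 0 := by
  rw [← Complex.conj_eq_iff_im]
  unfold Gn
  rw [Complex.conj_tsum]
  exact tsum_congr fun v => gv_conj N v hw.le

theorem NS_MD (N : NS q t d) {Φ : ℂ → ℂ} (hΦ : MCont (En q t) (1 / 2) Φ) :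
    MD (stp (cn q t)) Φ (Gn q t) (1 / 2) where
  meas := stp_meas _
  c0_nonneg := by norm_num
  int := fun w hw => stp_LInt1 (N.cn_small (by norm_num)) (by norm_num) (fun w hw => cn_sum N hw) hw
  mero := hΦ.mero
  hG := fun z hz => (N.Gn_diff).differentiableAt ((isOpen_half 0).mem_nhds hz)
  hGre := fun w hw => Gn_real N hw
  eq := fun z hz => by
    rw [hΦ.eq z hz, ← N.En_eq hz]
    congr 2
    have h1 := stp_lapC (c := cn q t) (N.cn_small (by norm_num)) (z := z) (by linarith) (cn_sum N hz)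
    unfold ser
    exact h1.tsum_eq

theorem NS_Loc (N : NS q t d) : Loc (stp (cn q t)) :=
  stp_loc (N.cn_small (by norm_num)) (w := 1) zero_le_one (cn_sum N (by norm_num))

end Fam

end Pool.Agent.D0H40.SP
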