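import Pool.Agent.D0H40.SP.Mean

/-! The behaviour at the origin, when the correction function is only bounded. -/

set_option autoImplicit false

namespace Pool.Agent.D0H40.SP

open MeasureTheory Filter Topology Set
open Pool.Agent.W263.BSD

variable {a : ℝ → ℝ} {S : ℕ → ℝ} {Φ G : ℂ → ℂ} {c0 : ℝ} {M : ℤ} {C K : ℝ}

/-- the order `M` and the leading coefficient `C` at the origin, and a bound of `G` -/
structure LeadB (Φ G : ℂ → ℂ) (M : ℤ) (C K : ℝ) : Prop where
  mero : MeromorphicAt Φ 0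
  ord : meromorphicOrderAt Φ 0 = M
  pos : 0 < C
  lim : Tendsto (fun z : ℂ => ‖Φ z‖ / ‖z‖ ^ M) (𝓝[≠] 0) (𝓝 C)
  bd : ∀ᶠ w : ℝ in 𝓝[>] 0, |(G w).re| ≤ K

theorem MD.near_zeroB (D : MD a Φ G c0) (H : LeadB Φ G M C K) (h : ∀ w > 0, LInt a w) :
    Tendsto (fun w : ℝ => (G w).re - w * lap a w - M * Real.log w) (𝓝[>] 0) (𝓝 (Real.log C)) := by
  have hm : MeromorphicAt Φ ((0 : ℝ) : ℂ) := by
    rw [Complex.ofReal_zero]
    exact H.mero
  have ho : meromorphicOrderAt Φ ((0 : ℝ) : ℂ) = M := by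
    rw [Complex.ofReal_zero]
    exact H.ord
  obtain ⟨g, hg1, hg2, hg3, hg4⟩ := D.rep le_rfl h hm ho
  rw [Complex.ofReal_zero] at hg1 hg2
  simp only [sub_zero] at hg3
  have hgc : Tendsto g (𝓝[≠] 0) (𝓝 (g 0)) := hg1.continuousAt.tendsto.mono_left nhdsWithin_le_nhds
  simp only [Complex.ofReal_zero, sub_zero] at hg4
  have hC : ‖g 0‖ = C := by
    refine tendsto_nhds_unique hgc.norm (H.lim.congr' ?_)
    filter_upwards [hg4, self_mem_nhdsWithin] with z h1 h2
    have hz : z ≠ 0 := h2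
    have : ‖z‖ ^ M ≠ 0 := zpow_ne_zero _ (norm_ne_zero_iff.2 hz)
    rw [h1, smul_eq_mul, norm_mul, norm_zpow]
    field_simp
  have h2 : Tendsto (fun w : ℝ => (w : ℂ)) (𝓝[>] (0 : ℝ)) (𝓝 (0 : ℂ)) := by
    have := tendsto_nhdsWithin_of_tendsto_nhds (s := Ioi (0 : ℝ)) (Complex.continuous_ofReal.tendsto 0)
    rwa [Complex.ofReal_zero] at this
  have h3 : Tendsto (fun w : ℝ => Real.log ‖g w‖) (𝓝[>] 0) (𝓝 (Real.log C)) := by
    have h4 := (hg1.continuousAt.tendsto.comp h2).norm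
    rw [hC] at h4
    exact h4.log H.pos.ne'
  refine h3.congr' ?_
  filter_upwards [hg3, self_mem_nhdsWithin, (hg1.continuousAt.tendsto.comp h2).eventually_ne hg2]
    with w h4 h5 h6
  have hw : (0 : ℝ) < w := h5
  have h7 : ‖g w‖ ≠ 0 := norm_ne_zero_iff.2 h6
  have h8 := congrArg (fun z => Real.log ‖z‖) h4
  rw [D.real hw, Complex.norm_real, Real.norm_of_nonneg (Real.exp_pos _).le, Real.log_exp, norm_mul,
    norm_zpow, Complex.norm_real, Real.norm_of_nonneg hw.le, Real.log_mul (zpow_ne_zero _ hw.ne') h7,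
    Real.log_zpow] at h8
  linarith

/-- the middle of the bracket -/
noncomputable def mid (M : ℤ) (C : ℝ) : ℝ := -Real.log C + M * Real.eulerMascheroniConstant

theorem MD.abelB (D : MD a Φ G c0) (H : LeadB Φ G M C K) (h : ∀ w > 0, LInt a w) {ε : ℝ} (hε : 0 < ε) :
    ∀ᶠ w : ℝ in 𝓝[>] 0, |w * lap (fun u => a u - M * ell u) w - mid M C| ≤ K + ε := by
  have h1 := (D.near_zeroB H h).add (ell_lap_limit.const_mul (M : ℝ))
  have h2 : Tendsto (fun w : ℝ => |(G w).re - w * lap a w - M * Real.log w +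
      M * (w * lap ell w + Real.log w) - (Real.log C + M * -Real.eulerMascheroniConstant)|) (𝓝[>] 0)
      (𝓝 0) := by
    have h3 := (h1.sub_const (Real.log C + M * -Real.eulerMascheroniConstant)).abs
    rwa [sub_self, abs_zero] at h3
  filter_upwards [h2.eventually (gt_mem_nhds hε), H.bd, self_mem_nhdsWithin] with w e1 e2 hw
  have hw0 : (0 : ℝ) < w := hw
  rw [lap_sub (h w hw0) ((ell_LInt hw0).const_mul _), lap_const_mul]
  unfold mid
  have e3 := abs_lt.1 e1
  have e4 := abs_le.1 e2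
  rw [abs_le]
  constructor <;> linarith [e3.1, e3.2, e4.1, e4.2]

/-- **Brackets.** -/
theorem MD.bracket_upB (D : MD a Φ G c0) (hloc : Loc a) (H : LeadB Φ G M C K)
    (hp : ∀ s : ℝ, 0 < s → 0 ≤ meromorphicOrderAt Φ (s : ℂ)) {B : ℝ} (hB : B < mid M C - K) :
    ∃ᶠ u : ℝ in atTop, B < a u - M * ell u := by
  by_contra hcon
  rw [not_frequently] at hcon
  have hconv : ∀ w > 0, LInt a w := D.conv_up hloc le_rfl hp fun ε hε => by
    filter_upwards [hcon, ell_small hε B M] with u h1 h2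
    push Not at h1
    have := (abs_le.1 h2).2
    rw [zero_add]
    linarith
  obtain ⟨U, hU⟩ := eventually_atTop.1 hcon
  obtain ⟨K1, hK1, h1⟩ := hloc (max U 0)
  obtain ⟨K2, hK2, h2⟩ := ell_loc 0 M (max U 0)
  have hi : ∀ w > 0, LInt (fun u => a u - M * ell u) w := fun w hw =>
    (hconv w hw).sub ((ell_LInt hw).const_mul _)
  set ε : ℝ := (mid M C - K - B) / 3 with hε
  have hε0 : 0 < ε := by rw [hε]; linarith
  obtain ⟨w, e1, e2, e3⟩ := ((D.abelB H hconv hε0).and ((exp_small (K1 + K2 + |B|) (max U 0) hε0).and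
    self_mem_nhdsWithin)).exists
  have hw : (0 : ℝ) < w := e3
  have h3 := abel_up hi (le_max_right U 0) (B := B) (K := K1 + K2)
    (fun u hu => by
      have := hU u (le_trans (le_max_left _ _) hu.le)
      push Not at this
      exact this) (fun u hu hle => by
      have e1 := (abs_le.1 (h1 u hle)).2
      have e2 := (abs_le.1 (h2 u hu hle)).1
      rw [zero_add] at e2
      linarith) hw
  have e4 := (abs_le.1 e1).1
  linarith

theorem MD.bracket_downB (D : MD a Φ G c0) (hloc : Loc a) (H : LeadB Φ G M C K)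
    (hp : ∀ s : ℝ, 0 < s → meromorphicOrderAt Φ (s : ℂ) ≤ 0) {B : ℝ} (hB : mid M C + K < B) :
    ∃ᶠ u : ℝ in atTop, a u - M * ell u < B := by
  by_contra hcon
  rw [not_frequently] at hcon
  have hconv : ∀ w > 0, LInt a w := D.conv_down hloc le_rfl hp fun ε hε => by
    filter_upwards [hcon, ell_small hε B M] with u h1 h2
    push Not at h1
    have := (abs_le.1 h2).1
    rw [zero_add]
    linarith
  obtain ⟨U, hU⟩ := eventually_atTop.1 hcon
  obtain ⟨K1, hK1, h1⟩ := hloc (max U 0)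
  obtain ⟨K2, hK2, h2⟩ := ell_loc 0 M (max U 0)
  have hi : ∀ w > 0, LInt (fun u => -(a u - M * ell u)) w := fun w hw =>
    ((hconv w hw).sub ((ell_LInt hw).const_mul _)).neg
  set ε : ℝ := (B - (mid M C + K)) / 3 with hε
  have hε0 : 0 < ε := by rw [hε]; linarith
  obtain ⟨w, e1, e2, e3⟩ := ((D.abelB H hconv hε0).and ((exp_small (K1 + K2 + |-B|) (max U 0) hε0).and
    self_mem_nhdsWithin)).exists
  have hw : (0 : ℝ) < w := e3
  have h3 := abel_up hi (le_max_right U 0) (B := -B) (K := K1 + K2)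
    (fun u hu => by
      have := hU u (le_trans (le_max_left _ _) hu.le)
      push Not at this
      linarith) (fun u hu hle => by
      have e1 := (abs_le.1 (h1 u hle)).1
      have e2 := (abs_le.1 (h2 u hu hle)).2
      rw [zero_add] at e2
      linarith) hw
  rw [lap_neg'] at h3
  have e4 := (abs_le.1 e1).2
  linarith

theorem MD.log_upB (D : MD a Φ G c0) (hloc : Loc a) (H : LeadB Φ G M C K)
    (hp : ∀ s : ℝ, 0 < s → 0 ≤ meromorphicOrderAt Φ (s : ℂ)) {B : ℝ} (hB : B < mid M C - K) :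
    ∃ᶠ u : ℝ in atTop, B < a u - M * Real.log u := by
  set δ : ℝ := (mid M C - K - B) / 2 with hδ
  have hδ0 : 0 < δ := by rw [hδ]; linarith
  refine ((D.bracket_upB hloc H hp (B := B + δ) (by rw [hδ]; linarith)).and_eventually
    (ell_log hδ0 M)).mono ?_
  rintro u ⟨h1, h2⟩
  have := (abs_le.1 h2).1
  linarith

theorem MD.log_downB (D : MD a Φ G c0) (hloc : Loc a) (H : LeadB Φ G M C K)
    (hp : ∀ s : ℝ, 0 < s → meromorphicOrderAt Φ (s : ℂ) ≤ 0) {B : ℝ} (hB : mid M C + K < B) :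
    ∃ᶠ u : ℝ in atTop, a u - M * Real.log u < B := by
  set δ : ℝ := (B - (mid M C + K)) / 2 with hδ
  have hδ0 : 0 < δ := by rw [hδ]; linarith
  refine ((D.bracket_downB hloc H hp (B := B - δ) (by rw [hδ]; linarith)).and_eventually
    (ell_log hδ0 M)).mono ?_
  rintro u ⟨h1, h2⟩
  have := (abs_le.1 h2).2
  linarith

open Pool.Agent.D0H40.PL (slow_log loglog_sub)

theorem PD.up_nB (D : PD S Φ G c0) (H : LeadB Φ G M C K)
    (hp : ∀ s : ℝ, 0 < s → 0 ≤ meromorphicOrderAt Φ (s : ℂ)) {B : ℝ} (hB : 2 * B < mid M C - K) :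
    ∃ᶠ n : ℕ in atTop, 2 * B < 2 * S n - M * Real.log (Real.log n) := by
  set δ : ℝ := (mid M C - K - 2 * B) / 2 with hδ
  have hδ0 : 0 < δ := by rw [hδ]; linarith
  have h1 := D.md.log_upB D.loc H hp (B := 2 * B + δ) (by linarith)
  have h2 := ll_tend.const_mul (M : ℝ)
  rw [mul_zero] at h2
  refine fe_top.frequently ((h1.and_eventually (h2.eventually (gt_mem_nhds hδ0))).mono fun u hu => ?_)
  obtain ⟨e1, e2⟩ := hu
  rw [mul_sub] at e2
  linarith

theorem PD.down_nB (D : PD S Φ G c0) (H : LeadB Φ G M C K)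
    (hp : ∀ s : ℝ, 0 < s → meromorphicOrderAt Φ (s : ℂ) ≤ 0) {B : ℝ} (hB : mid M C + K < 2 * B) :
    ∃ᶠ n : ℕ in atTop, 2 * S n - M * Real.log (Real.log n) < 2 * B := by
  set δ : ℝ := (2 * B - (mid M C + K)) / 2 with hδ
  have hδ0 : 0 < δ := by rw [hδ]; linarith
  have h1 := D.md.log_downB D.loc H hp (B := 2 * B - δ) (by linarith)
  have h2 := ll_tend.const_mul (M : ℝ)
  rw [mul_zero] at h2
  have h3 : -δ < 0 := by linarith
  refine fe_top.frequently ((h1.and_eventually (h2.eventually (lt_mem_nhds h3))).mono fun u hu => ?_)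
  obtain ⟨e1, e2⟩ := hu
  rw [mul_sub] at e2
  linarith

/-- upper bounds -/
theorem PD.one_upperB (D : PD S Φ G c0) (H : LeadB Φ G M C K) (hd : ¬ PDom Φ) {ρ : ℝ}
    (h : ∀ ε > 0, ∀ᶠ n : ℕ in atTop, Real.exp (S n) ≤ Real.log n ^ (ρ + ε)) :
    RHm Φ ∧ (M : ℝ) ≤ 2 * ρ := by
  have h1 : ∀ ε > 0, ∀ᶠ n : ℕ in atTop, S n ≤ (ρ + ε) * Real.log (Real.log n) := by
    intro ε hε
    filter_upwards [h ε hε, log_pos_ev] with n h1 h2
    rw [rpow_ll h2, Real.exp_le_exp] at h1
    exact h1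
  have hRH : RHm Φ := by
    refine D.rh_le hd fun ε hε => ?_
    filter_upwards [h1 1 one_pos, tendsto_natCast_atTop_atTop.eventually (loglog_sub (ρ + 1) hε)]
      with n h2 h3
    have := (abs_le.1 h3).2
    linarith
  refine ⟨hRH, ?_⟩
  by_contra hcon
  push Not at hcon
  set ε : ℝ := (M - 2 * ρ) / 4 with hε
  have hε0 : 0 < ε := by rw [hε]; linarith
  have h2 := D.up_nB H (fun s hs => (hRH s (by rwa [Complex.ofReal_re])).ge)
    (B := (mid M C - K - 1) / 2) (by linarith)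
  have h3 : Tendsto (fun n : ℕ => (2 * (ρ + ε) - M) * Real.log (Real.log (n : ℝ))) atTop atBot :=
    lll_top.const_mul_atTop_of_neg (by rw [hε]; linarith)
  obtain ⟨n, e1, e2, e3⟩ := (h2.and_eventually ((h1 ε hε0).and
    (h3.eventually (eventually_lt_atBot (mid M C - K - 1))))).exists
  linarith

/-- lower bounds -/
theorem PD.one_lowerB (D : PD S Φ G c0) (H : LeadB Φ G M C K) (hd : ¬ ZDom Φ) {ρ : ℝ}
    (h : ∀ ε > 0, ∀ᶠ n : ℕ in atTop, Real.log n ^ (ρ - ε) ≤ Real.exp (S n)) :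
    RHm Φ ∧ 2 * ρ ≤ (M : ℝ) := by
  have h1 : ∀ ε > 0, ∀ᶠ n : ℕ in atTop, (ρ - ε) * Real.log (Real.log n) ≤ S n := by
    intro ε hε
    filter_upwards [h ε hε, log_pos_ev] with n h1 h2
    rw [rpow_ll h2, Real.exp_le_exp] at h1
    exact h1
  have hRH : RHm Φ := by
    refine D.rh_ge hd fun ε hε => ?_
    filter_upwards [h1 1 one_pos, tendsto_natCast_atTop_atTop.eventually (loglog_sub (ρ - 1) hε)]
      with n h2 h3
    have := (abs_le.1 h3).1
    linarith
  refine ⟨hRH, ?_⟩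
  by_contra hcon
  push Not at hcon
  set ε : ℝ := (2 * ρ - M) / 4 with hε
  have hε0 : 0 < ε := by rw [hε]; linarith
  have h2 := D.down_nB H (fun s hs => (hRH s (by rwa [Complex.ofReal_re])).le)
    (B := (mid M C + K + 1) / 2) (by linarith)
  have h3 : Tendsto (fun n : ℕ => (2 * (ρ - ε) - M) * Real.log (Real.log (n : ℝ))) atTop atTop :=
    lll_top.const_mul_atTop (by rw [hε]; linarith)
  obtain ⟨n, e1, e2, e3⟩ := (h2.and_eventually ((h1 ε hε0).and
    (h3.eventually (eventually_gt_atTop (mid M C + K + 1))))).exists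
  linarith

/-- limit zero -/
theorem PD.lim_zeroB (D : PD S Φ G c0) (H : LeadB Φ G M C K) (hd : ¬ PDom Φ) {ρ : ℝ}
    (h : Tendsto (fun n : ℕ => Real.exp (S n) / Real.log n ^ ρ) atTop (𝓝 0)) :
    RHm Φ ∧ (M : ℝ) < 2 * ρ := by
  obtain ⟨h2, h3⟩ := D.one_upperB H hd (ρ := ρ) fun ε hε => by
    filter_upwards [h.eventually (gt_mem_nhds one_pos), log_pos_ev, lll_top.eventually
      (eventually_ge_atTop 0)] with n h1 h2 h3
    rw [div_lt_one (Real.rpow_pos_of_pos h2 _)] at h1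
    refine h1.le.trans ?_
    rw [rpow_ll h2, rpow_ll h2, Real.exp_le_exp]
    nlinarith
  refine ⟨h2, lt_of_le_of_ne h3 fun he => ?_⟩
  have h4 := D.up_nB H (fun s hs => (h2 s (by rwa [Complex.ofReal_re])).ge)
    (B := (mid M C - K - 1) / 2) (by linarith)
  have h5 := h.eventually (gt_mem_nhds (Real.exp_pos ((mid M C - K - 1) / 2)))
  obtain ⟨n, e1, e2, e3⟩ := (h4.and_eventually (h5.and log_pos_ev)).exists
  rw [rpow_ll e3, ← Real.exp_sub, Real.exp_lt_exp] at e2
  rw [he] at e1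
  linarith

/-- limit infinity -/
theorem PD.lim_topB (D : PD S Φ G c0) (H : LeadB Φ G M C K) (hd : ¬ ZDom Φ) {ρ : ℝ}
    (h : Tendsto (fun n : ℕ => Real.exp (S n) / Real.log n ^ ρ) atTop atTop) :
    RHm Φ ∧ 2 * ρ < (M : ℝ) := by
  obtain ⟨h2, h3⟩ := D.one_lowerB H hd (ρ := ρ) fun ε hε => by
    filter_upwards [h.eventually (eventually_ge_atTop 1), log_pos_ev, lll_top.eventually
      (eventually_ge_atTop 0)] with n h1 h2 h3
    rw [one_le_div (Real.rpow_pos_of_pos h2 _)] at h1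
    refine le_trans ?_ h1
    rw [rpow_ll h2, rpow_ll h2, Real.exp_le_exp]
    nlinarith
  refine ⟨h2, lt_of_le_of_ne h3 fun he => ?_⟩
  have h4 := D.down_nB H (fun s hs => (h2 s (by rwa [Complex.ofReal_re])).le)
    (B := (mid M C + K + 1) / 2) (by linarith)
  have h5 := h.eventually (eventually_gt_atTop (Real.exp ((mid M C + K + 1) / 2)))
  obtain ⟨n, e1, e2, e3⟩ := (h4.and_eventually (h5.and log_pos_ev)).exists
  rw [rpow_ll e3, ← Real.exp_sub, Real.exp_lt_exp] at e2
  rw [← he] at e1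
  linarith

/-- two-sided limits -/
theorem PD.lim_posB (D : PD S Φ G c0) (H : LeadB Φ G M C K) {ρ A : ℝ} (hA : 0 < A)
    (h : Tendsto (fun n : ℕ => Real.exp (S n) / Real.log n ^ ρ) atTop (𝓝 A)) :
    RHm Φ ∧ 2 * ρ = M := by
  have hl : Tendsto (fun n : ℕ => S n - ρ * Real.log (Real.log n)) atTop (𝓝 (Real.log A)) := by
    refine (h.log hA.ne').congr' ?_
    filter_upwards [log_pos_ev] with n hn
    rw [rpow_ll hn, ← Real.exp_sub, Real.log_exp]
  have hRH : RHm Φ := by
    have hconv := D.conv_two fun ε hε => by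
      have h1 := hl.abs.eventually (gt_mem_nhds (lt_add_one |Real.log A|))
      filter_upwards [h1, tendsto_natCast_atTop_atTop.eventually (loglog_sub ρ (half_pos hε)),
        const_add_nat (|Real.log A| + 1) hε] with n h2 h3 h4
      have h5 := abs_add_le (S n - ρ * Real.log (Real.log n)) (ρ * Real.log (Real.log n))
      rw [sub_add_cancel] at h5
      linarith
    exact fun z hz => D.md.order_conv le_rfl hconv hz
  refine ⟨hRH, le_antisymm ?_ ?_⟩
  · exact (D.one_lowerB H hRH.not_zdom (ρ := ρ) fun ε hε => by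
      have h1 := hl.eventually (lt_mem_nhds (sub_one_lt (Real.log A)))
      filter_upwards [h1, log_pos_ev, (lll_top.const_mul_atTop hε).eventually
        (eventually_ge_atTop (1 - Real.log A))] with n h2 h3 h4
      rw [rpow_ll h3, Real.exp_le_exp]
      linarith).2
  · exact (D.one_upperB H hRH.not_pdom (ρ := ρ) fun ε hε => by
      have h1 := hl.eventually (gt_mem_nhds (lt_add_one (Real.log A)))
      filter_upwards [h1, log_pos_ev, (lll_top.const_mul_atTop hε).eventually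
        (eventually_ge_atTop (Real.log A + 1))] with n h2 h3 h4
      rw [rpow_ll h3, Real.exp_le_exp]
      linarith).2

end Pool.Agent.D0H40.SP
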