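import Pool.Agent.D0H40.SP.ParD

/-! The Abelian mean of the logarithm of the normalised partial products. -/

set_option autoImplicit false

namespace Pool.Agent.D0H40.SP

open MeasureTheory Filter Topology Set
open Pool.Agent.W263.BSD

variable {S : ℕ → ℝ} {Φ G : ℂ → ℂ} {c0 : ℝ} {M : ℤ} {C g0 : ℝ}

theorem PD.conv_le (D : PD S Φ G c0) (hRH : RHm Φ)
    (h : ∀ ε : ℝ, 0 < ε → ∀ᶠ n : ℕ in atTop, S n ≤ (n : ℝ) ^ ε) :
    ∀ w > 0, LInt (fun u => 2 * S ⌊Real.exp u⌋₊) w := by
  refine D.md.conv_up D.loc le_rfl (fun s hs => (hRH s (by rwa [Complex.ofReal_re])).ge) fun ε hε => ?_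
  filter_upwards [fe_top.eventually (h (ε / 2) (half_pos hε)),
    exp_absorb (half_pos hε).le (half_pos hε)] with u h1 h2
  have h3 := fe_rpow u (half_pos hε).le
  have e : ε / 2 + ε / 2 = 0 + ε := by ring
  rw [e] at h2
  linarith

theorem PD.conv_ge (D : PD S Φ G c0) (hRH : RHm Φ)
    (h : ∀ ε : ℝ, 0 < ε → ∀ᶠ n : ℕ in atTop, -(n : ℝ) ^ ε ≤ S n) :
    ∀ w > 0, LInt (fun u => 2 * S ⌊Real.exp u⌋₊) w := by
  refine D.md.conv_down D.loc le_rfl (fun s hs => (hRH s (by rwa [Complex.ofReal_re])).le) fun ε hε => ?_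
  filter_upwards [fe_top.eventually (h (ε / 2) (half_pos hε)),
    exp_absorb (half_pos hε).le (half_pos hε)] with u h1 h2
  have h3 := fe_rpow u (half_pos hε).le
  have e : ε / 2 + ε / 2 = 0 + ε := by ring
  rw [e] at h2
  linarith

theorem PD.mean (D : PD S Φ G c0) (H : Lead Φ G M C g0)
    (hconv : ∀ w > 0, LInt (fun u => 2 * S ⌊Real.exp u⌋₊) w) :
    Tendsto (fun w : ℝ => w * ∫ u in Ioi (1 : ℝ), (2 * S ⌊Real.exp u⌋₊ - M * Real.log u) *
      Real.exp (-(w * u))) (𝓝[>] 0) (𝓝 (thr M C g0)) := by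
  set a : ℝ → ℝ := fun u => 2 * S ⌊Real.exp u⌋₊ with ha
  have h1 := D.md.abel_lim H hconv
  -- the difference
  set h : ℝ → ℝ := fun u => if u ≤ 1 then a u - M * ell u else M * (Real.log u - ell u) with hh
  have hmeas : Measurable h := Measurable.ite measurableSet_Iic
    (D.md.meas.sub (ell_meas.const_mul _)) ((Real.measurable_log.sub ell_meas).const_mul _)
  have hlim : Tendsto h atTop (𝓝 0) := by
    have h2 := (ell_sub_log.const_mul (-(M : ℝ)))
    rw [mul_zero] at h2
    refine h2.congr' ?_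
    filter_upwards [eventually_gt_atTop 1] with u hu
    rw [hh]
    simp only
    rw [if_neg (not_le.2 hu)]
    ring
  obtain ⟨K₁, hK₁, hb₁⟩ := D.loc 1
  have hell : ∀ V : ℝ, ∀ u : ℝ, 0 < u → u ≤ V → |M * ell u| ≤ |(M : ℝ)| * |ell V| := by
    intro V u hu hV
    rw [abs_mul]
    have h1 := ell_nonneg hu.le
    have h2 := ell_mono hu.le hV
    refine mul_le_mul_of_nonneg_left ?_ (abs_nonneg _)
    rw [abs_of_nonneg (by linarith)]
    exact h2.trans (le_abs_self _)
  have hloc : ∀ V : ℝ, ∃ K : ℝ, 0 ≤ K ∧ ∀ u, 0 < u → u ≤ V → |h u| ≤ K := by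
    intro V
    refine ⟨K₁ + |(M : ℝ)| * |ell V| + |(M : ℝ)| * |Real.log V| + |(M : ℝ)| * |ell 1|, by positivity,
      fun u hu hV => ?_⟩
    have hM := abs_nonneg (M : ℝ)
    have t1 := mul_nonneg hM (abs_nonneg (ell V))
    have t2 := mul_nonneg hM (abs_nonneg (Real.log V))
    have t3 := mul_nonneg hM (abs_nonneg (ell 1))
    rw [hh]
    simp only
    split_ifs with hc
    · refine (abs_sub _ _).trans ?_
      have := hb₁ u hc
      have := hell 1 u hu hc
      linarith
    · push Not at hc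
      have e1 : (M : ℝ) * (Real.log u - ell u) = M * Real.log u - M * ell u := by ring
      rw [e1]
      refine (abs_sub _ _).trans ?_
      have h3 := hell V u hu hV
      have h4 : |(M : ℝ) * Real.log u| ≤ |(M : ℝ)| * |Real.log V| := by
        rw [abs_mul, abs_of_nonneg (Real.log_nonneg hc.le)]
        exact mul_le_mul_of_nonneg_left ((Real.log_le_log hu hV).trans (le_abs_self _)) hM
      linarith
  have hint : ∀ w > 0, LInt h w := by
    intro w hw
    obtain ⟨U, hU⟩ := eventually_atTop.mp (hlim.abs.eventually (gt_mem_nhds (by rw [abs_zero]; exact one_pos)))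
    obtain ⟨K, hK, hKb⟩ := hloc U
    refine LInt.of_bound hmeas ((one_LInt hw).const_mul (K + 1)) fun u hu => ?_
    rw [mul_one]
    rcases le_total U u with h2 | h2
    · have := hU u h2
      linarith
    · have := hKb u hu h2
      linarith
  have key : ∀ (L : ℝ), (∀ w > 0, LInt h w) → Tendsto h atTop (𝓝 L) →
      Tendsto (fun w => w * lap h w) (𝓝[>] 0) (𝓝 L) := by
    intro L hi hL
    -- extend the bound to nonpositive arguments
    set h' : ℝ → ℝ := fun u => if 0 < u then h u else 0 with hh'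
    have e1 : ∀ w, lap h' w = lap h w := by
      intro w
      unfold lap
      refine setIntegral_congr_fun measurableSet_Ioi fun u hu => ?_
      have hu' : (0 : ℝ) < u := hu
      simp only [hh', if_pos hu']
    have e2 : ∀ w > 0, LInt h' w := by
      intro w hw
      unfold LInt
      refine (hi w hw).congr_fun (fun u hu => ?_) measurableSet_Ioi
      have hu' : (0 : ℝ) < u := hu
      simp only [hh', if_pos hu']
    have e3 : Loc h' := by
      intro V
      obtain ⟨K, hK, hKb⟩ := hloc V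
      refine ⟨K, hK, fun u hu => ?_⟩
      rw [hh']
      simp only
      split_ifs with hc
      · exact hKb u hc hu
      · rwa [abs_zero]
    have e4 : Tendsto h' atTop (𝓝 L) := by
      refine hL.congr' ?_
      filter_upwards [eventually_gt_atTop 0] with u hu
      simp only [hh', if_pos hu]
    refine (abel_tendsto e2 e3 e4).congr fun w => ?_
    rw [e1]
  have h2 := h1.sub (key 0 hint hlim)
  rw [sub_zero] at h2
  refine h2.congr' ?_
  filter_upwards [self_mem_nhdsWithin] with w hw
  have hw0 : (0 : ℝ) < w := hw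
  have hae : LInt (fun u => a u - M * ell u) w := (hconv w hw0).sub ((ell_LInt hw0).const_mul _)
  rw [← mul_sub, ← lap_sub hae (hint w hw0)]
  congr 1
  unfold lap
  have e : ∀ u : ℝ, ((fun u => a u - M * ell u) u - h u) * Real.exp (-(w * u)) =
      (Ioi (1 : ℝ)).indicator (fun u => (a u - M * Real.log u) * Real.exp (-(w * u))) u := by
    intro u
    rw [hh]
    simp only
    by_cases hu : u ∈ Ioi (1 : ℝ)
    · rw [indicator_of_mem hu, if_neg (not_le.2 hu)]
      ring
    · rw [indicator_of_notMem hu, if_pos (not_lt.1 hu), sub_self, zero_mul]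
  rw [setIntegral_congr_fun measurableSet_Ioi (fun u _ => e u), setIntegral_indicator measurableSet_Ioi,
    Ioi_inter_Ioi, max_eq_right zero_le_one]

open Pool.Agent.D0H40.PL (slow_log loglog_sub)

theorem qs_log (S : ℕ → ℝ) (r : ℝ) : ∀ᶠ n : ℕ in atTop, qs S (fun n : ℕ => Real.log (n : ℝ) ^ r) n =
    Real.exp (S n - r * Real.log (Real.log n)) := by
  filter_upwards [log_pos_ev] with n hn
  unfold qs
  simp only
  rw [rpow_ll hn, ← Real.exp_sub]

/-- the upper limit is at least the constant -/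
theorem PD.above (D : PD S Φ G c0) {m : ℤ} (H : Lead Φ G (2 * m) C g0) (hd : ¬ PDom Φ) {A : ℝ}
    (hA : A < Real.exp (thr (2 * m) C g0 / 2)) :
    ∃ᶠ n : ℕ in atTop, A < qs S (fun n : ℕ => Real.log (n : ℝ) ^ (m : ℝ)) n := by
  have hq := qs_log S (m : ℝ)
  have hcast : ((2 * m : ℤ) : ℝ) = 2 * (m : ℝ) := by push_cast; ring
  by_cases hRH : RHm Φ
  · rcases le_or_gt A 0 with h0 | h0
    · refine (hq.mono fun n hn => ?_).frequently
      rw [hn]
      exact h0.trans_lt (Real.exp_pos _)
    · have h1 : 2 * Real.log A < thr (2 * m) C g0 := by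
        have h2 := Real.log_lt_log h0 hA
        rw [Real.log_exp] at h2
        linarith
      refine ((D.up_n H (fun s hs => (hRH s (by rwa [Complex.ofReal_re])).ge) h1).and_eventually hq).mono
        fun n hn => ?_
      obtain ⟨e1, e2⟩ := hn
      rw [e2, ← Real.log_lt_iff_lt_exp h0]
      rw [hcast] at e1
      linarith
  · by_contra hcon
    rw [not_frequently] at hcon
    refine hRH (D.rh_le hd fun η hη => ?_)
    have hsl := slow_log (m : ℝ)
    filter_upwards [hcon, hsl.pos, hsl.sub (η / 2) (half_pos hη),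
      const_add_nat (Real.log (|A| + 1)) hη] with n h1 h2 h3 h4
    push Not at h1
    unfold qs at h1
    rw [div_le_iff₀ h2] at h1
    have hA1 := le_abs_self A
    have hA2 := abs_nonneg A
    have h5 : Real.exp (S n) ≤ (|A| + 1) * Real.log (n : ℝ) ^ (m : ℝ) :=
      h1.trans (mul_le_mul_of_nonneg_right (by linarith) h2.le)
    have h6 := Real.log_le_log (Real.exp_pos _) h5
    rw [Real.log_mul (by linarith) h2.ne', Real.log_exp] at h6
    have := (abs_le.1 h3).2
    linarith

/-- the lower limit is at most the constant -/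
theorem PD.below (D : PD S Φ G c0) {m : ℤ} (H : Lead Φ G (2 * m) C g0) (hd : ¬ ZDom Φ) {A : ℝ}
    (hA : Real.exp (thr (2 * m) C g0 / 2) < A) :
    ∃ᶠ n : ℕ in atTop, qs S (fun n : ℕ => Real.log (n : ℝ) ^ (m : ℝ)) n < A := by
  have hq := qs_log S (m : ℝ)
  have hcast : ((2 * m : ℤ) : ℝ) = 2 * (m : ℝ) := by push_cast; ring
  have h0 : 0 < A := (Real.exp_pos _).trans hA
  by_cases hRH : RHm Φ
  · have h1 : thr (2 * m) C g0 < 2 * Real.log A := by
      have h2 := Real.log_lt_log (Real.exp_pos _) hA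
      rw [Real.log_exp] at h2
      linarith
    refine ((D.down_n H (fun s hs => (hRH s (by rwa [Complex.ofReal_re])).le) h1).and_eventually hq).mono
      fun n hn => ?_
    obtain ⟨e1, e2⟩ := hn
    rw [e2, ← Real.lt_log_iff_exp_lt h0]
    rw [hcast] at e1
    linarith
  · by_contra hcon
    rw [not_frequently] at hcon
    refine hRH (D.rh_ge hd fun η hη => ?_)
    have hsl := slow_log (m : ℝ)
    filter_upwards [hcon, hsl.pos, hsl.sub (η / 2) (half_pos hη),
      const_add_nat (-Real.log A) hη] with n h1 h2 h3 h4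
    push Not at h1
    unfold qs at h1
    rw [le_div_iff₀ h2] at h1
    have h5 := Real.log_le_log (mul_pos h0 h2) h1
    rw [Real.log_mul h0.ne' h2.ne', Real.log_exp] at h5
    have := (abs_le.1 h3).1
    linarith

theorem RHm.not_pdom (h : RHm Φ) : ¬ PDom Φ := by
  rintro ⟨s, hs, h1, -⟩
  rw [h s (by rwa [Complex.ofReal_re])] at h1
  exact lt_irrefl _ h1

theorem RHm.not_zdom (h : RHm Φ) : ¬ ZDom Φ := by
  rintro ⟨s, hs, h1, -⟩
  rw [h s (by rwa [Complex.ofReal_re])] at h1
  exact lt_irrefl _ h1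

theorem PD.conv_two (D : PD S Φ G c0)
    (h : ∀ ε : ℝ, 0 < ε → ∀ᶠ n : ℕ in atTop, |S n| ≤ (n : ℝ) ^ ε) :
    ∀ w > 0, LInt (fun u => 2 * S ⌊Real.exp u⌋₊) w := by
  intro w hw
  have h1 : ∀ᶠ u : ℝ in atTop, |2 * S ⌊Real.exp u⌋₊| ≤ Real.exp (w / 2 * u) := by
    filter_upwards [fe_top.eventually (h (w / 4) (by linarith)),
      exp_absorb (θ := w / 4) (ε := w / 4) (by linarith) (by linarith)] with u h1 h2
    have h3 := fe_rpow u (θ := w / 4) (by linarith)
    have e : w / 4 + w / 4 = w / 2 := by ring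
    rw [e] at h2
    rw [abs_mul, abs_two]
    linarith
  obtain ⟨U, hU⟩ := eventually_atTop.mp h1
  obtain ⟨K, hK, hKb⟩ := D.loc U
  refine LInt.of_bound D.md.meas (((one_LInt hw).const_mul K).add (LInt_exp (by linarith : w / 2 < w)))
    fun u hu => ?_
  rw [mul_one]
  rcases le_total U u with h2 | h2
  · have := hU u h2
    linarith
  · have := hKb u h2
    have := Real.exp_pos (w / 2 * u)
    linarith

/-- two-sided limits -/
theorem PD.lim_pos (D : PD S Φ G c0) {m : ℤ} (H : Lead Φ G (2 * m) C g0) {a A : ℝ} (hA : 0 < A)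
    (h : Tendsto (fun n : ℕ => Real.exp (S n) / Real.log n ^ a) atTop (𝓝 A)) :
    RHm Φ ∧ a = m ∧ A = Real.exp (thr (2 * m) C g0 / 2) := by
  have hcast : ((2 * m : ℤ) : ℝ) = 2 * (m : ℝ) := by push_cast; ring
  have hl : Tendsto (fun n : ℕ => S n - a * Real.log (Real.log n)) atTop (𝓝 (Real.log A)) := by
    refine (h.log hA.ne').congr' ?_
    filter_upwards [log_pos_ev] with n hn
    rw [rpow_ll hn, ← Real.exp_sub, Real.log_exp]
  have hRH : RHm Φ := by
    have hconv := D.conv_two fun ε hε => by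
      have h1 := hl.abs.eventually (gt_mem_nhds (lt_add_one |Real.log A|))
      filter_upwards [h1, tendsto_natCast_atTop_atTop.eventually (loglog_sub a (half_pos hε)),
        const_add_nat (|Real.log A| + 1) hε] with n h2 h3 h4
      have h5 := abs_add_le (S n - a * Real.log (Real.log n)) (a * Real.log (Real.log n))
      rw [sub_add_cancel] at h5
      linarith
    exact fun z hz => D.md.order_conv le_rfl hconv hz
  have t1 : (m : ℝ) ≤ a := by
    have h1 := (D.one_upper H hRH.not_pdom (ρ := a) fun ε hε => by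
      have h1 := hl.eventually (gt_mem_nhds (lt_add_one (Real.log A)))
      filter_upwards [h1, log_pos_ev, (lll_top.const_mul_atTop hε).eventually
        (eventually_ge_atTop (Real.log A + 1))] with n h2 h3 h4
      rw [rpow_ll h3, Real.exp_le_exp]
      linarith).2
    rw [hcast] at h1
    linarith
  have t2 : a ≤ (m : ℝ) := by
    have h1 := (D.one_lower H hRH.not_zdom (ρ := a) fun ε hε => by
      have h1 := hl.eventually (lt_mem_nhds (sub_one_lt (Real.log A)))
      filter_upwards [h1, log_pos_ev, (lll_top.const_mul_atTop hε).eventually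
        (eventually_ge_atTop (1 - Real.log A))] with n h2 h3 h4
      rw [rpow_ll h3, Real.exp_le_exp]
      linarith).2
    rw [hcast] at h1
    linarith
  have t3 : a = m := le_antisymm t2 t1
  refine ⟨hRH, t3, le_antisymm ?_ ?_⟩
  · refine le_of_forall_gt_imp_ge_of_dense fun B hB => ?_
    have h1 := D.below H hRH.not_zdom hB
    rw [← t3] at h1
    exact le_of_tendsto_of_frequently h (h1.mono fun n hn => hn.le)
  · refine le_of_forall_lt_imp_le_of_dense fun B hB => ?_
    have h1 := D.above H hRH.not_pdom hB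
    rw [← t3] at h1
    exact ge_of_tendsto_of_frequently h (h1.mono fun n hn => hn.le)

theorem mean_int {a : ℝ → ℝ} (hconv : ∀ w > 0, LInt a w) (M : ℝ) {w : ℝ} (hw : 0 < w) :
    IntegrableOn (fun u => (a u - M * Real.log u) * Real.exp (-(w * u))) (Ioi (1 : ℝ)) := by
  have h1 : IntegrableOn (fun u => a u * Real.exp (-(w * u))) (Ioi (1 : ℝ)) :=
    (hconv w hw).mono_set (Ioi_subset_Ioi zero_le_one)
  have h2 : IntegrableOn (fun u => ell u * Real.exp (-(w * u))) (Ioi (1 : ℝ)) :=
    (ell_LInt hw).mono_set (Ioi_subset_Ioi zero_le_one)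
  have h3 : IntegrableOn (fun u => Real.log u * Real.exp (-(w * u))) (Ioi (1 : ℝ)) := by
    refine Integrable.mono' h2 ((Real.measurable_log.mul (by fun_prop)).aestronglyMeasurable) ?_
    refine (ae_restrict_iff' measurableSet_Ioi).mpr (Eventually.of_forall fun u hu => ?_)
    have hu1 : (1 : ℝ) < u := hu
    rw [norm_mul, Real.norm_of_nonneg (Real.log_nonneg hu1.le), Real.norm_of_nonneg (Real.exp_pos _).le]
    exact mul_le_mul_of_nonneg_right (log_le_ell (by linarith)) (Real.exp_pos _).le
  refine (h1.sub (h3.const_mul M)).congr_fun (fun u _ => ?_) measurableSet_Ioi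
  simp only [Pi.sub_apply]
  ring

end Pool.Agent.D0H40.SP
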