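import Pool.Agent.D0H40.SP.NSD
import Pool.Agent.D0H40.CX.NFInst
import Pool.Agent.D0H40.CX.Mero3

/-! Systems of eigenvalues over a number field. -/

set_option autoImplicit false

namespace Pool.Agent.D0H40.SP

open MeasureTheory Filter Topology Set NumberField IsDedekindDomain
open Pool.Agent.D0H40.CX
open Pool.Agent.H921R2.TatePole (nm two_le_nm)

variable {F : Type} [Field F] [NumberField F]

/-- the primes outside `S` -/
abbrev PS (S : Set (HeightOneSpectrum (𝓞 F))) : Type := {v : HeightOneSpectrum (𝓞 F) // v ∉ S}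

noncomputable def qS (S : Set (HeightOneSpectrum (𝓞 F))) (v : PS S) : ℕ := nm v.1

noncomputable def tS (S : Set (HeightOneSpectrum (𝓞 F))) (t : HeightOneSpectrum (𝓞 F) → ℝ) (v : PS S) : ℝ :=
  t v.1 / nm v.1

theorem ns_S {S : Set (HeightOneSpectrum (𝓞 F))} {t : HeightOneSpectrum (𝓞 F) → ℝ}
    (h1 : ∀ v, v ∉ S → 5 ≤ nm v) (h2 : ∀ v, v ∉ S → |t v| ≤ 2 * √(nm v)) :
    NS (qS S) (tS S t) (Module.finrank ℤ (𝓞 F)) where
  five := fun v => h1 v.1 v.2
  mult := fun n s hs => by
    have h := mult_V n (s.map (Function.Embedding.subtype (fun v => v ∉ S))) (fun v hv => by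
      obtain ⟨u, hu, rfl⟩ := Finset.mem_map.1 hv
      exact hs u hu)
    rwa [Finset.card_map] at h
  hasse := fun v => by
    have h5 := h1 v.1 v.2
    have hh := h2 v.1 v.2
    have h0 : (0 : ℝ) < nm v.1 := by exact_mod_cast (by omega : 0 < nm v.1)
    unfold tS qS dn
    rw [abs_div, abs_of_pos h0, div_le_iff₀ h0]
    refine hh.trans (le_of_eq ?_)
    rw [Real.sqrt_eq_rpow, mul_assoc]
    congr 1
    nth_rewrite 3 [← Real.rpow_one (nm v.1 : ℝ)]
    rw [← Real.rpow_add h0]
    norm_num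
  lg := by
    obtain ⟨C, σ₀, hσ₀, h⟩ := log_sum_V (K := F)
    refine ⟨C, σ₀, hσ₀, fun σ h1 h2 => ?_⟩
    obtain ⟨hs, hle⟩ := h σ h1 h2
    have hs' : Summable fun v : PS S => Real.log (qS S v) * (qS S v : ℝ) ^ (-(1 + σ)) :=
      hs.subtype (fun v => v ∉ S)
    refine ⟨hs', le_trans (mul_le_mul_of_nonneg_left ?_ h1.le) hle⟩
    refine Summable.tsum_subtype_le (f := fun v : HeightOneSpectrum (𝓞 F) =>
      Real.log (nm v) * (nm v : ℝ) ^ (-(1 + σ))) {v | v ∉ S} (fun v => ?_) hs
    have hv := two_le_nm v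
    have hp1 : (1 : ℝ) ≤ nm v := by exact_mod_cast (by omega : 1 ≤ nm v)
    have := Real.log_nonneg hp1
    positivity

section

variable {P : Type} {q : P → ℕ} {t : P → ℝ} {d : ℕ}

theorem order_zero (N : NS q t d) {Φ : ℂ → ℂ} (hM : MCont (En q t) (1 / 2) Φ) :
    ∃ m : ℤ, meromorphicOrderAt Φ 0 = m := by
  obtain ⟨ρ, hρ, hn⟩ := hM.near N.esys
  have h4 : meromorphicOrderAt Φ 0 ≠ ⊤ := by
    rw [meromorphicOrderAt_ne_top_iff_eventually_ne_zero hM.vert, eventually_nhdsWithin_iff,
      Metric.eventually_nhds_iff]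
    exact ⟨ρ, hρ, fun w hw hw0 => (hn w hw0 (by rwa [dist_zero_right] at hw)).2⟩
  obtain ⟨m, hm⟩ := WithTop.ne_top_iff_exists.1 h4
  exact ⟨m, hm.symm⟩

/-- the partial product as an exponential -/
theorem exp_SN (N : NS q t d) (n : ℕ) :
    Real.exp (2 * SN q t n) = ∏ᶠ v ∈ {v : P | q v ≤ n}, (1 - t v + ((q v : ℝ))⁻¹) := by
  classical
  have hfin : {v : P | q v ≤ n}.Finite := by
    refine (N.le_finite n).subset fun v hv => ?_
    show (q v : ℝ) ≤ n
    exact_mod_cast hv
  have hpos : ∀ v : P, Real.exp (cv q t v) = 1 - t v + ((q v : ℝ))⁻¹ := by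
    intro v
    have h5 := N.five v
    have h0 := dn_nonneg (q v)
    have h2 := dn_le h5
    have h3 := N.hasse v
    unfold cv c2
    have e := dn_sq (q v)
    have hp : 0 < 1 - t v + dn (q v) ^ 2 := by
      have := (abs_le.1 h3).2
      have h6 : 0 < (1 - dn (q v)) ^ 2 := by
        have : 0 < 1 - dn (q v) := by linarith
        positivity
      nlinarith
    rw [Real.exp_log hp, e]
  rw [finprod_mem_eq_finite_toFinset_prod _ hfin]
  have e1 : 2 * SN q t n = ∑ v ∈ hfin.toFinset, cv q t v := by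
    unfold SN
    rw [mul_div_cancel₀ _ (two_ne_zero)]
    have e2 : ∀ k ∈ Finset.range (n + 1), cn q t k = ∑ v ∈ hfin.toFinset with q v = k, cv q t v := by
      intro k hk
      have hk' : k < n + 1 := Finset.mem_range.1 hk
      have hset : q ⁻¹' {k} = ((hfin.toFinset.filter fun v => q v = k : Finset P) : Set P) := by
        ext v
        rw [Finset.mem_coe, Finset.mem_filter, Set.Finite.mem_toFinset]
        constructor
        · intro hv
          have hv' : q v = k := hv
          exact ⟨show q v ≤ n by omega, hv'⟩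
        · rintro ⟨-, hv⟩
          exact hv
      unfold cn
      rw [hset]
      exact Finset.tsum_subtype' _ _
    rw [Finset.sum_congr rfl e2]
    exact Finset.sum_fiberwise_of_maps_to (fun v hv => by
      rw [Set.Finite.mem_toFinset] at hv
      rw [Finset.mem_range]
      have : q v ≤ n := hv
      omega) _
  rw [e1, Real.exp_sum]
  exact Finset.prod_congr rfl fun v _ => hpos v

end

end Pool.Agent.D0H40.SP
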