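import Pool.Agent.D0H40.SP.LeadB
import Pool.Agent.D0H40.CX.Norms2

/-! The partial products of an Euler product over primes with given norms. -/

set_option autoImplicit false

namespace Pool.Agent.D0H40.SP

open MeasureTheory Filter Topology Set
open Pool.Agent.W263.BSD
open Pool.Agent.D0H40.CX
open Pool.Agent.D0H40.PL (Slow slow_log loglog_sub)

/-! ### Means -/

section Mean

variable {a : ℝ → ℝ}

theorem mean_diff (ham : Measurable a) (hal : Loc a) (hconv : ∀ w > 0, LInt a w) (M : ℝ) :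
    Tendsto (fun w : ℝ => w * lap (fun u => a u - M * ell u) w -
      w * ∫ u in Ioi (1 : ℝ), (a u - M * Real.log u) * Real.exp (-(w * u))) (𝓝[>] 0) (𝓝 0) := by
  -- the difference
  set h : ℝ → ℝ := fun u => if u ≤ 1 then a u - M * ell u else M * (Real.log u - ell u) with hh
  have hmeas : Measurable h := Measurable.ite measurableSet_Iic
    (ham.sub (ell_meas.const_mul _)) ((Real.measurable_log.sub ell_meas).const_mul _)
  have hlim : Tendsto h atTop (𝓝 0) := by
    have h2 := (ell_sub_log.const_mul (-(M : ℝ)))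
    rw [mul_zero] at h2
    refine h2.congr' ?_
    filter_upwards [eventually_gt_atTop 1] with u hu
    rw [hh]
    simp only
    rw [if_neg (not_le.2 hu)]
    ring
  obtain ⟨K₁, hK₁, hb₁⟩ := hal 1
  have hell : ∀ V : ℝ, ∀ u : ℝ, 0 < u → u ≤ V → |M * ell u| ≤ |(M : ℝ)| * |ell V| := by
    intro V u hu hV
    rw [abs_mul]
    have h1 := ell_nonneg hu.le
    have h2 := ell_mono hu.le hV
    refine mul_le_mul_of_nonneg_left ?_ (abs_nonneg _)
    rw [abs_of_nonneg (by linarith)]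
    exact h2.trans (le_abs_self _)
  have hloc : ∀ V : ℝ, ∃ K : ℝ, 0 ≤ K ∧ ∀ u, 0 < u → u ≤ V → |h u| ≤ K := by
    intro V
    refine ⟨K₁ + |(M : ℝ)| * |ell V| + |(M : ℝ)| * |Real.log V| + |(M : ℝ)| * |ell 1|, by positivity,
      fun u hu hV => ?_⟩
    have hM := abs_nonneg (M : ℝ)
    have t1 := mul_nonneg hM (abs_nonneg (ell V))
    have t2 := mul_nonneg hM (abs_nonneg (Real.log V))
    have t3 := mul_nonneg hM (abs_nonneg (ell 1))
    rw [hh]
    simp only
    split_ifs with hc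
    · refine (abs_sub _ _).trans ?_
      have := hb₁ u hc
      have := hell 1 u hu hc
      linarith
    · push Not at hc
      have e1 : (M : ℝ) * (Real.log u - ell u) = M * Real.log u - M * ell u := by ring
      rw [e1]
      refine (abs_sub _ _).trans ?_
      have h3 := hell V u hu hV
      have h4 : |(M : ℝ) * Real.log u| ≤ |(M : ℝ)| * |Real.log V| := by
        rw [abs_mul, abs_of_nonneg (Real.log_nonneg hc.le)]
        exact mul_le_mul_of_nonneg_left ((Real.log_le_log hu hV).trans (le_abs_self _)) hM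
      linarith
  have hint : ∀ w > 0, LInt h w := by
    intro w hw
    obtain ⟨U, hU⟩ := eventually_atTop.mp (hlim.abs.eventually (gt_mem_nhds (by rw [abs_zero]; exact one_pos)))
    obtain ⟨K, hK, hKb⟩ := hloc U
    refine LInt.of_bound hmeas ((one_LInt hw).const_mul (K + 1)) fun u hu => ?_
    rw [mul_one]
    rcases le_total U u with h2 | h2
    · have := hU u h2
      linarith
    · have := hKb u hu h2
      linarith
  have key : Tendsto (fun w => w * lap h w) (𝓝[>] 0) (𝓝 0) := by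
    -- extend the bound to nonpositive arguments
    set h' : ℝ → ℝ := fun u => if 0 < u then h u else 0 with hh'
    have e1 : ∀ w, lap h' w = lap h w := by
      intro w
      unfold lap
      refine setIntegral_congr_fun measurableSet_Ioi fun u hu => ?_
      have hu' : (0 : ℝ) < u := hu
      simp only [hh', if_pos hu']
    have e2 : ∀ w > 0, LInt h' w := by
      intro w hw
      unfold LInt
      refine (hint w hw).congr_fun (fun u hu => ?_) measurableSet_Ioi
      have hu' : (0 : ℝ) < u := hu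
      simp only [hh', if_pos hu']
    have e3 : Loc h' := by
      intro V
      obtain ⟨K, hK, hKb⟩ := hloc V
      refine ⟨K, hK, fun u hu => ?_⟩
      rw [hh']
      simp only
      split_ifs with hc
      · exact hKb u hc hu
      · rwa [abs_zero]
    have e4 : Tendsto h' atTop (𝓝 0) := by
      refine hlim.congr' ?_
      filter_upwards [eventually_gt_atTop 0] with u hu
      simp only [hh', if_pos hu]
    refine (abel_tendsto e2 e3 e4).congr fun w => ?_
    rw [e1]
  refine key.congr' ?_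
  filter_upwards [self_mem_nhdsWithin] with w hw
  have hw0 : (0 : ℝ) < w := hw
  have hae : LInt (fun u => a u - M * ell u) w := (hconv w hw0).sub ((ell_LInt hw0).const_mul _)
  have e : ∀ u : ℝ, ((fun u => a u - M * ell u) u - h u) * Real.exp (-(w * u)) =
      (Ioi (1 : ℝ)).indicator (fun u => (a u - M * Real.log u) * Real.exp (-(w * u))) u := by
    intro u
    rw [hh]
    simp only
    by_cases hu : u ∈ Ioi (1 : ℝ)
    · rw [indicator_of_mem hu, if_neg (not_le.2 hu)]
      ring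
    · rw [indicator_of_notMem hu, if_pos (not_lt.1 hu), sub_self, zero_mul]
  have e5 : lap (fun u => (fun u => a u - M * ell u) u - h u) w =
      ∫ u in Ioi (1 : ℝ), (a u - M * Real.log u) * Real.exp (-(w * u)) := by
    unfold lap
    rw [setIntegral_congr_fun measurableSet_Ioi (fun u _ => e u), setIntegral_indicator measurableSet_Ioi,
      Ioi_inter_Ioi, max_eq_right zero_le_one]
  rw [← e5, lap_sub hae (hint w hw0)]
  ring

/-- the mean of `log u` -/
theorem mean_log_bd : ∃ K : ℝ, ∀ᶠ w : ℝ in 𝓝[>] 0,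
    |(w * ∫ u in Ioi (1 : ℝ), Real.log u * Real.exp (-(w * u))) + Real.log w| ≤ K := by
  have h0 : Measurable (fun _ : ℝ => (0 : ℝ)) := measurable_const
  have h1 : Loc (fun _ : ℝ => (0 : ℝ)) := fun V => ⟨0, le_rfl, fun u _ => by rw [abs_zero]⟩
  have h2 : ∀ w > 0, LInt (fun _ : ℝ => (0 : ℝ)) w := fun w hw => by
    have := (one_LInt hw).const_mul 0
    simpa using this
  have h3 := mean_diff h0 h1 h2 (-1)
  have h4 := ell_lap_limit
  have h5 := h4.sub h3
  have h6 := h5.abs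
  refine ⟨|(-Real.eulerMascheroniConstant - 0)| + 1, ?_⟩
  filter_upwards [h6.eventually (gt_mem_nhds (lt_add_one _)), self_mem_nhdsWithin] with w e1 hw
  refine le_trans (le_of_eq ?_) e1.le
  congr 1
  have e2 : lap (fun u => (0 : ℝ) - (-1) * ell u) w = lap ell w := by
    congr 1
    funext u
    ring
  have e3 : ∫ u in Ioi (1 : ℝ), ((0 : ℝ) - (-1) * Real.log u) * Real.exp (-(w * u)) =
      ∫ u in Ioi (1 : ℝ), Real.log u * Real.exp (-(w * u)) := by
    congr 1
    funext u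
    ring
  rw [e2, e3]
  ring

/-- the mean over `x > e` with the weights `w x^(-1-w)` is bounded for `w → 0+` -/
def BM (g : ℝ → ℝ) : Prop :=
  ∃ K : ℝ, ∀ᶠ w : ℝ in 𝓝[>] 0, |w * ∫ u in Ioi (1 : ℝ), g u * Real.exp (-(w * u))| ≤ K

theorem int_log {w : ℝ} (hw : 0 < w) :
    IntegrableOn (fun u => Real.log u * Real.exp (-(w * u))) (Ioi (1 : ℝ)) := by
  have h1 := mean_int (a := fun _ => 0) (fun w hw => by
    have := (one_LInt hw).const_mul 0
    simpa using this) (-1) hw
  refine h1.congr_fun (fun u _ => ?_) measurableSet_Ioi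
  simp

/-- only one exponent has a bounded mean -/
theorem BM_iff (hconv : ∀ w > 0, LInt a w) {m : ℝ} (hm : BM fun u => a u - m * Real.log u) (r : ℝ) :
    (BM fun u => a u - r * Real.log u) ↔ r = m := by
  constructor
  · rintro ⟨K₁, h1⟩
    obtain ⟨K₂, h2⟩ := hm
    obtain ⟨K₃, h3⟩ := mean_log_bd
    by_contra hne
    have hd : 0 < |r - m| := abs_pos.2 (sub_ne_zero.2 hne)
    have h4 : Tendsto (fun w : ℝ => |r - m| * (-Real.log w)) (𝓝[>] 0) atTop :=
      (tendsto_neg_atBot_atTop.comp Real.tendsto_log_nhdsGT_zero).const_mul_atTop hd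
    obtain ⟨w, e1, e2, e3, e4, e5⟩ := (h1.and (h2.and (h3.and ((h4.eventually
      (eventually_gt_atTop (K₁ + K₂ + |r - m| * K₃))).and self_mem_nhdsWithin)))).exists
    have hw : (0 : ℝ) < w := e5
    have i1 := mean_int hconv m hw
    have i2 := mean_int hconv r hw
    have i3 := int_log hw
    have e6 : (w * ∫ u in Ioi (1 : ℝ), (a u - m * Real.log u) * Real.exp (-(w * u))) -
        (w * ∫ u in Ioi (1 : ℝ), (a u - r * Real.log u) * Real.exp (-(w * u))) =
        (r - m) * (w * ∫ u in Ioi (1 : ℝ), Real.log u * Real.exp (-(w * u))) := by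
      rw [← mul_sub, ← integral_sub i1 i2]
      have e : ∫ u in Ioi (1 : ℝ), ((a u - m * Real.log u) * Real.exp (-(w * u)) -
          (a u - r * Real.log u) * Real.exp (-(w * u))) =
          (r - m) * ∫ u in Ioi (1 : ℝ), Real.log u * Real.exp (-(w * u)) := by
        rw [← integral_const_mul]
        refine setIntegral_congr_fun measurableSet_Ioi fun u _ => ?_
        beta_reduce
        ring
      rw [e]
      ring
    have e7 : |(r - m) * (w * ∫ u in Ioi (1 : ℝ), Real.log u * Real.exp (-(w * u)))| ≤ K₁ + K₂ := by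
      rw [← e6]
      refine (abs_sub _ _).trans ?_
      linarith
    rw [abs_mul] at e7
    have e8 : -Real.log w - K₃ ≤ |w * ∫ u in Ioi (1 : ℝ), Real.log u * Real.exp (-(w * u))| := by
      have := (abs_le.1 e3).1
      have := le_abs_self (w * ∫ u in Ioi (1 : ℝ), Real.log u * Real.exp (-(w * u)))
      linarith
    have e9 := mul_le_mul_of_nonneg_left e8 hd.le
    rw [mul_sub] at e9
    linarith
  · rintro rfl
    exact hm

end Mean

variable {S : ℕ → ℝ} {Φ G : ℂ → ℂ} {c0 : ℝ} {M : ℤ} {C K : ℝ}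

theorem PD.meanB (D : PD S Φ G c0) (H : LeadB Φ G M C K)
    (hconv : ∀ w > 0, LInt (fun u => 2 * S ⌊Real.exp u⌋₊) w) :
    BM fun u => 2 * S ⌊Real.exp u⌋₊ - M * Real.log u := by
  have h1 := D.md.abelB H hconv one_pos
  have h2 := (mean_diff D.md.meas D.loc hconv (M : ℝ)).abs
  rw [abs_zero] at h2
  refine ⟨|mid M C| + K + 2, ?_⟩
  filter_upwards [h1, h2.eventually (gt_mem_nhds one_pos)] with w e1 e2
  have e3 := abs_lt.1 e2
  have e4 := abs_le.1 e1
  have e5 := abs_le.1 (le_refl |mid M C|)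
  rw [abs_le]
  constructor <;> linarith [e3.1, e3.2, e4.1, e4.2, e5.1, e5.2]

/-! ### Squares -/

section Squares

variable {f : ℕ → ℝ} {A : ℝ}

theorem slow_sqrt (h : Slow f) : Slow fun n => √(f n) where
  pos := h.pos.mono fun n hn => Real.sqrt_pos.2 hn
  ratio := by
    have h1 := (Real.continuous_sqrt.tendsto 1).comp h.ratio
    rw [Real.sqrt_one] at h1
    refine h1.congr' ?_
    filter_upwards [h.pos, (tendsto_add_atTop_nat 1).eventually h.pos] with n h2 h3
    simp only [Function.comp_apply]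
    rw [Real.sqrt_div h3.le]
  sub := fun ε hε => by
    filter_upwards [h.sub ε hε, h.pos] with n h1 h2
    rw [Real.log_sqrt h2.le, abs_div, abs_two]
    have := abs_nonneg (Real.log (f n))
    linarith

theorem sqrt_quot {n : ℕ} (hf : 0 < f n) : √(Real.exp (2 * S n) / f n) = qs S (fun n => √(f n)) n := by
  unfold qs
  rw [Real.sqrt_div (Real.exp_pos _).le, two_mul, Real.exp_add, Real.sqrt_mul_self (Real.exp_pos _).le]

theorem sq_quot {n : ℕ} (hf : 0 < f n) : qs S (fun n => √(f n)) n ^ 2 = Real.exp (2 * S n) / f n := by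
  rw [← sqrt_quot hf, Real.sq_sqrt (div_nonneg (Real.exp_pos _).le hf.le)]

/-- limit points of `exp (2 S n) / f n` -/
def LP2 (S f : ℕ → ℝ) (A : ℝ) : Prop :=
  ∃ n : ℕ → ℕ, Tendsto n atTop atTop ∧ Tendsto (fun k => Real.exp (2 * S (n k)) / f (n k)) atTop (𝓝 A)

theorem LP2.nonneg (hf : ∀ᶠ n in atTop, 0 < f n) (h : LP2 S f A) : 0 ≤ A := by
  obtain ⟨n, h1, h2⟩ := h
  refine ge_of_tendsto h2 ?_
  filter_upwards [h1.eventually hf] with k hk
  exact div_nonneg (Real.exp_pos _).le hk.le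

theorem lp2_iff (hf : ∀ᶠ n in atTop, 0 < f n) (hA : 0 ≤ A) :
    LP2 S f A ↔ LPs S (fun n => √(f n)) (√A) := by
  constructor
  · rintro ⟨n, h1, h2⟩
    refine ⟨n, h1, ?_⟩
    refine ((Real.continuous_sqrt.tendsto A).comp h2).congr' ?_
    filter_upwards [h1.eventually hf] with k hk
    simp only [Function.comp_apply]
    exact sqrt_quot hk
  · rintro ⟨n, h1, h2⟩
    refine ⟨n, h1, ?_⟩
    have h3 := h2.pow 2
    rw [Real.sq_sqrt hA] at h3
    refine h3.congr' ?_
    filter_upwards [h1.eventually hf] with k hk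
    exact sq_quot hk

theorem PD.wild2 (D : PD S Φ G c0) (hz : ¬ RHm Φ) (hd1 : ¬ ZDom Φ) (hd2 : ¬ PDom Φ) (hf : Slow f)
    (hA : 0 ≤ A) : LP2 S f A :=
  (lp2_iff hf.pos hA).2 (D.wild hz hd1 hd2 (slow_sqrt hf) (Real.sqrt_nonneg A))

theorem PD.between2 (D : PD S Φ G c0) (hf : Slow f) {u v w : ℝ} (huv : u ≤ v) (hvw : v ≤ w)
    (hu : LP2 S f u) (hw : LP2 S f w) : LP2 S f v := by
  have h0 := hu.nonneg hf.pos
  have hs := slow_sqrt hf
  rw [lp2_iff hf.pos h0] at hu
  rw [lp2_iff hf.pos (by linarith)] at hw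
  rw [lp2_iff hf.pos (by linarith)]
  exact LPs.between D.step hs.pos hs.ratio (Real.sqrt_le_sqrt huv) (Real.sqrt_le_sqrt hvw) hu hw

theorem log_half (r : ℝ) : ∀ᶠ n : ℕ in atTop, √(Real.log (n : ℝ) ^ r) = Real.log n ^ (r / 2) := by
  filter_upwards [log_pos_ev] with n hn
  rw [Real.sqrt_eq_rpow, ← Real.rpow_mul hn.le]
  congr 1
  ring

theorem half_tend {r : ℝ} {l l' : Filter ℝ} (hl : Tendsto (fun x : ℝ => √x) l l')
    (h : Tendsto (fun n : ℕ => Real.exp (2 * S n) / Real.log n ^ r) atTop l) :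
    Tendsto (fun n : ℕ => Real.exp (S n) / Real.log n ^ (r / 2)) atTop l' := by
  refine (hl.comp h).congr' ?_
  filter_upwards [log_pos_ev, log_half r] with n h1 h2
  simp only [Function.comp_apply]
  have h3 := sqrt_quot (S := S) (f := fun n : ℕ => Real.log (n : ℝ) ^ r) (n := n)
    (Real.rpow_pos_of_pos h1 _)
  rw [h3]
  unfold qs
  simp only
  rw [h2]

theorem half_le {r : ℝ} {n : ℕ} (hn : 0 < Real.log (n : ℝ)) :
    Real.exp (2 * S n) ≤ Real.log n ^ r ↔ Real.exp (S n) ≤ Real.log n ^ (r / 2) := by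
  rw [rpow_ll hn, rpow_ll hn, Real.exp_le_exp, Real.exp_le_exp]
  constructor <;> intro h <;> nlinarith

theorem le_half {r : ℝ} {n : ℕ} (hn : 0 < Real.log (n : ℝ)) :
    Real.log n ^ r ≤ Real.exp (2 * S n) ↔ Real.log n ^ (r / 2) ≤ Real.exp (S n) := by
  rw [rpow_ll hn, rpow_ll hn, Real.exp_le_exp, Real.exp_le_exp]
  constructor <;> intro h <;> nlinarith

theorem PD.upper2 (D : PD S Φ G c0) (H : LeadB Φ G M C K) (hd : ¬ PDom Φ) {ρ : ℝ}
    (h : ∀ ε > 0, ∀ᶠ n : ℕ in atTop, Real.exp (2 * S n) ≤ Real.log n ^ (ρ + ε)) :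
    RHm Φ ∧ (M : ℝ) ≤ ρ := by
  have h1 := D.one_upperB H hd (ρ := ρ / 2) fun ε hε => by
    filter_upwards [h (2 * ε) (by linarith), log_pos_ev] with n h1 h2
    have e : ρ / 2 + ε = (ρ + 2 * ε) / 2 := by ring
    rw [e]
    exact (half_le h2).1 h1
  exact ⟨h1.1, by linarith [h1.2]⟩

theorem PD.lower2 (D : PD S Φ G c0) (H : LeadB Φ G M C K) (hd : ¬ ZDom Φ) {ρ : ℝ}
    (h : ∀ ε > 0, ∀ᶠ n : ℕ in atTop, Real.log n ^ (ρ - ε) ≤ Real.exp (2 * S n)) :
    RHm Φ ∧ ρ ≤ (M : ℝ) := by
  have h1 := D.one_lowerB H hd (ρ := ρ / 2) fun ε hε => by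
    filter_upwards [h (2 * ε) (by linarith), log_pos_ev] with n h1 h2
    have e : ρ / 2 - ε = (ρ - 2 * ε) / 2 := by ring
    rw [e]
    exact (le_half h2).1 h1
  exact ⟨h1.1, by linarith [h1.2]⟩

theorem sqrt_zero_tend : Tendsto (fun x : ℝ => √x) (𝓝 0) (𝓝 0) := by
  have := Real.continuous_sqrt.tendsto 0
  rwa [Real.sqrt_zero] at this

theorem PD.zero2 (D : PD S Φ G c0) (H : LeadB Φ G M C K) (hd : ¬ PDom Φ) {ρ : ℝ}
    (h : Tendsto (fun n : ℕ => Real.exp (2 * S n) / Real.log n ^ ρ) atTop (𝓝 0)) :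
    RHm Φ ∧ (M : ℝ) < ρ := by
  have h1 := D.lim_zeroB H hd (half_tend sqrt_zero_tend h)
  exact ⟨h1.1, by linarith [h1.2]⟩

theorem PD.top2 (D : PD S Φ G c0) (H : LeadB Φ G M C K) (hd : ¬ ZDom Φ) {ρ : ℝ}
    (h : Tendsto (fun n : ℕ => Real.exp (2 * S n) / Real.log n ^ ρ) atTop atTop) :
    RHm Φ ∧ ρ < (M : ℝ) := by
  have h1 := D.lim_topB H hd (half_tend Real.tendsto_sqrt_atTop h)
  exact ⟨h1.1, by linarith [h1.2]⟩

theorem PD.pos2 (D : PD S Φ G c0) (H : LeadB Φ G M C K) {ρ : ℝ} (hA : 0 < A)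
    (h : Tendsto (fun n : ℕ => Real.exp (2 * S n) / Real.log n ^ ρ) atTop (𝓝 A)) :
    RHm Φ ∧ ρ = (M : ℝ) := by
  have h1 := D.lim_posB H (Real.sqrt_pos.2 hA) (half_tend (Real.continuous_sqrt.tendsto A) h)
  exact ⟨h1.1, by linarith [h1.2]⟩

end Squares

/-! ### The Euler product -/

variable {P : Type} {q : P → ℕ} {t : P → ℝ} {d : ℕ}

/-- half the logarithm of the partial product -/
noncomputable def SN (q : P → ℕ) (t : P → ℝ) (n : ℕ) : ℝ := (∑ k ∈ Finset.range (n + 1), cn q t k) / 2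

theorem two_SN (q : P → ℕ) (t : P → ℝ) : (fun u : ℝ => 2 * SN q t ⌊Real.exp u⌋₊) = stp (cn q t) := by
  funext u
  unfold SN stp
  ring

theorem step_SN (N : NS q t d) : Step (SN q t) := by
  unfold Step
  refine squeeze_zero_norm (a := fun n : ℕ => (d : ℝ) * 3 * dn (n + 1) / 2) (fun n => ?_) ?_
  · have h1 := N.cn_le (n + 1)
    have h3 : SN q t (n + 1) - SN q t n = cn q t (n + 1) / 2 := by
      unfold SN
      rw [Finset.sum_range_succ]
      ring
    rw [h3, Real.norm_eq_abs, abs_div, abs_two]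
    have h4 : |cn q t (n + 1)| ≤ d * (3 * dn (n + 1)) := h1
    linarith
  · have h1 : Tendsto (fun n : ℕ => dn (n + 1)) atTop (𝓝 0) := by
      have h2 : Tendsto (fun x : ℝ => x ^ (-(1 / 2) : ℝ)) atTop (𝓝 0) :=
        tendsto_rpow_neg_atTop (by norm_num)
      exact h2.comp (tendsto_natCast_atTop_atTop.comp (tendsto_add_atTop_nat 1))
    have h3 := (h1.const_mul ((d : ℝ) * 3)).div_const 2
    rw [mul_zero, zero_div] at h3
    exact h3

theorem ns_PD (N : NS q t d) {Φ : ℂ → ℂ} (hΦ : MCont (En q t) (1 / 2) Φ) :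
    PD (SN q t) Φ (Gn q t) (1 / 2) where
  md := by
    rw [two_SN]
    exact NS_MD N hΦ
  loc := by
    rw [two_SN]
    exact NS_Loc N
  step := step_SN N

theorem ns_LeadB (N : NS q t d) {Φ : ℂ → ℂ} (h : MeromorphicAt Φ 0) {m : ℤ}
    (hm : meromorphicOrderAt Φ 0 = m) : ∃ C K : ℝ, LeadB Φ (Gn q t) m C K := by
  obtain ⟨g, hg, hg0, hgF⟩ := (meromorphicOrderAt_eq_int_iff h).1 hm
  obtain ⟨K, hK⟩ := N.Gn_bound 1
  refine ⟨‖g 0‖, K, h, hm, norm_pos_iff.2 hg0, ?_, ?_⟩
  · have h1 : Tendsto (fun s => ‖g s‖) (𝓝[≠] 0) (𝓝 ‖g 0‖) :=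
      (hg.continuousAt.tendsto.mono_left nhdsWithin_le_nhds).norm
    refine h1.congr' ?_
    filter_upwards [hgF, self_mem_nhdsWithin] with s h2 h3
    have hs : s ≠ 0 := h3
    have : ‖s‖ ^ m ≠ 0 := zpow_ne_zero _ (norm_ne_zero_iff.2 hs)
    rw [h2, sub_zero, smul_eq_mul, norm_mul, norm_zpow, mul_div_cancel_left₀ _ this]
  · filter_upwards [self_mem_nhdsWithin, nhdsWithin_le_nhds (gt_mem_nhds one_pos)] with w hw hw1
    have hw0 : (0 : ℝ) < w := hw
    refine (Complex.abs_re_le_norm _).trans (hK w ?_ ?_ ?_)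
    · rwa [Complex.ofReal_re]
    · rw [Complex.norm_real, Real.norm_of_nonneg hw0.le]
      exact hw1.le
    · rw [Complex.norm_real, Real.norm_of_nonneg hw0.le, Complex.ofReal_re, one_mul]

end Pool.Agent.D0H40.SP
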