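import Pool.Agent.D0H40.SP.Glim
import Pool.Agent.W263.BSD.Lead8

/-! Sums over the primes between `√x` and `x`. -/

set_option autoImplicit false

namespace Pool.Agent.D0H40.SP

open MeasureTheory Filter Topology Set
open Pool.Agent.W263.BSD
open Pool.Agent.D0H40.CX
open Pool.Agent.D0H40.AR
open Pool.Agent.W401.Cheb (pr M mem_pr)

theorem prC_succ (a : ℕ → ℂ) (N : ℕ) :
    ∑ p ∈ pr (N + 1), a p = ∑ p ∈ pr N, a p + if (N + 1).Prime then a (N + 1) else 0 := by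
  rw [sum_prC, sum_prC, Finset.sum_range_succ]

theorem one_le_ct (θ : ℝ) : 1 ≤ ct θ := by
  unfold ct
  have h1 := Complex.abs_re_le_norm ((1 : ℂ) + θ * Complex.I)
  have h2 : ((1 : ℂ) + θ * Complex.I).re = 1 := by simp
  rw [h2, abs_one] at h1
  exact h1

theorem pw_step (θ : ℝ) (N : ℕ) : ‖pw θ ((N + 1 : ℕ) : ℝ) - pw θ ((N + 2 : ℕ) : ℝ)‖ ≤
    2 * ct θ * (1 / (N + 1) - 1 / (N + 2)) := by
  have h1 := pw_diff θ (a := ((N + 1 : ℕ) : ℝ)) (x := ((N + 2 : ℕ) : ℝ)) (by positivity)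
    (by push_cast; linarith)
  rw [norm_sub_rev] at h1
  refine h1.trans ?_
  have hc := one_le_ct θ
  have e : ((N + 2 : ℕ) : ℝ) - ((N + 1 : ℕ) : ℝ) = 1 := by
    push_cast
    ring
  rw [e, mul_one]
  push_cast
  have h2 : (1 : ℝ) / (N + 1) - 1 / (N + 2) = 1 / ((N + 1) * (N + 2)) := by
    have : (0 : ℝ) < N + 1 := by positivity
    have : (0 : ℝ) < N + 2 := by positivity
    field_simp
    ring
  rw [h2, mul_one_div, div_le_div_iff₀ (by positivity) (by positivity)]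
  have hn : (0 : ℝ) ≤ N := Nat.cast_nonneg N
  have h3 : ((N : ℝ) + 1) * (N + 2) ≤ 2 * (N + 1) ^ 2 := by nlinarith
  calc ct θ * (((N : ℝ) + 1) * (N + 2)) ≤ ct θ * (2 * (N + 1) ^ 2) :=
        mul_le_mul_of_nonneg_left h3 (by linarith)
    _ = 2 * ct θ * (N + 1) ^ 2 := by ring

theorem pc_le (N : ℕ) : (Nat.primeCounting N : ℝ) / (N + 1) ≤ 1 := by
  rw [div_le_one (by positivity), ← card_pr, Finset.sum_const, nsmul_eq_mul, mul_one]
  have h1 : (pr N).card ≤ N + 1 := by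
    unfold pr
    exact (Finset.card_filter_le _ _).trans (by rw [Finset.card_range])
  exact_mod_cast h1

/-- Abel summation over a window -/
theorem win_abel (a : ℕ → ℂ) {θ ε C : ℝ} (hε : 0 ≤ ε) (hC : 0 ≤ C)
    (h : ∀ N, ‖∑ p ∈ pr N, a p‖ ≤ ε * Nat.primeCounting N + C) {N₁ N₂ : ℕ} (hN : N₁ ≤ N₂) :
    ‖∑ p ∈ pr N₂, a p * pw θ p - ∑ p ∈ pr N₁, a p * pw θ p‖ ≤
      (2 * ct θ) * (ε * ((∑ p ∈ pr N₂, (1 : ℝ) / p - ∑ p ∈ pr N₁, (1 : ℝ) / p) + 2) + 2 * C / (N₁ + 1)) := by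
  set D : ℕ → ℂ := fun N => ∑ p ∈ pr N, a p * pw θ p - (∑ p ∈ pr N, a p) * pw θ ((N + 1 : ℕ) : ℝ) with hD
  set E : ℕ → ℝ := fun N => ∑ p ∈ pr N, (1 : ℝ) / p - (Nat.primeCounting N : ℝ) / (N + 1) with hE
  have hct := one_le_ct θ
  have hDs : ∀ N, D (N + 1) - D N = (∑ p ∈ pr (N + 1), a p) *
      (pw θ ((N + 1 : ℕ) : ℝ) - pw θ ((N + 2 : ℕ) : ℝ)) := by
    intro N
    rw [hD]
    simp only
    rw [prC_succ (fun p => a p * pw θ p), prC_succ a]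
    have e2 : (N + 1 + 1 : ℕ) = N + 2 := rfl
    rw [e2]
    split_ifs <;> ring
  have hEs : ∀ N, E (N + 1) - E N = (Nat.primeCounting (N + 1) : ℝ) * (1 / (N + 1) - 1 / (N + 2)) := by
    intro N
    rw [hE]
    simp only
    rw [pr_succ (fun p => (1 : ℝ) / p), ← card_pr, ← card_pr, pr_succ (fun _ => (1 : ℝ))]
    push_cast
    have e2 : (N : ℝ) + 1 + 1 = N + 2 := by ring
    rw [e2]
    split_ifs <;> ring
  have key : ‖D N₂ - D N₁‖ ≤ (2 * ct θ) * (ε * (E N₂ - E N₁) + C * (1 / (N₁ + 1) - 1 / (N₂ + 1))) := by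
    induction N₂, hN using Nat.le_induction with
    | base => simp
    | succ N _ ih =>
      have e1 : D (N + 1) - D N₁ = (D N - D N₁) + (D (N + 1) - D N) := by ring
      rw [e1]
      refine (norm_add_le _ _).trans ?_
      rw [hDs, norm_mul]
      have h1 := mul_le_mul (h (N + 1)) (pw_step θ N) (norm_nonneg _) (by positivity)
      have h2 := hEs N
      have e3 : ((N + 1 : ℕ) : ℝ) + 1 = N + 2 := by push_cast; ring
      rw [e3]
      have e4 : (ε * (Nat.primeCounting (N + 1) : ℝ) + C) * (2 * ct θ * (1 / (N + 1) - 1 / (N + 2))) =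
          2 * ct θ * (ε * (E (N + 1) - E N) + C * (1 / (N + 1) - 1 / (N + 2))) := by
        rw [h2]
        ring
      rw [e4] at h1
      have e5 : 2 * ct θ * (ε * (E (N + 1) - E N₁) + C * (1 / (↑N₁ + 1) - 1 / (N + 2))) =
          2 * ct θ * (ε * (E N - E N₁) + C * (1 / (↑N₁ + 1) - 1 / (N + 1))) +
          2 * ct θ * (ε * (E (N + 1) - E N) + C * (1 / (N + 1) - 1 / (N + 2))) := by ring
      rw [e5]
      linarith
  have hT : ∀ N : ℕ, ‖(∑ p ∈ pr N, a p) * pw θ ((N + 1 : ℕ) : ℝ)‖ ≤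
      2 * ct θ * (ε * ((Nat.primeCounting N : ℝ) / (N + 1)) + C * (1 / (N + 1))) := by
    intro N
    rw [norm_mul, pw_norm θ (by positivity)]
    have h1 := mul_le_mul_of_nonneg_right (h N) (show (0 : ℝ) ≤ (((N + 1 : ℕ) : ℝ))⁻¹ by positivity)
    refine h1.trans ?_
    have e : (ε * (Nat.primeCounting N : ℝ) + C) * (((N + 1 : ℕ) : ℝ))⁻¹ =
        ε * ((Nat.primeCounting N : ℝ) / (N + 1)) + C * (1 / (N + 1)) := by
      push_cast
      ring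
    rw [e]
    exact le_mul_of_one_le_left (by positivity) (by linarith)
  have e1 : ∑ p ∈ pr N₂, a p * pw θ p - ∑ p ∈ pr N₁, a p * pw θ p = (D N₂ - D N₁) +
      (∑ p ∈ pr N₂, a p) * pw θ ((N₂ + 1 : ℕ) : ℝ) - (∑ p ∈ pr N₁, a p) * pw θ ((N₁ + 1 : ℕ) : ℝ) := by
    rw [hD]
    simp only
    ring
  rw [e1]
  refine (norm_sub_le _ _).trans ?_
  have h1 := norm_add_le (D N₂ - D N₁) ((∑ p ∈ pr N₂, a p) * pw θ ((N₂ + 1 : ℕ) : ℝ))
  have h2 := hT N₂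
  have h3 := hT N₁
  have h4 := pc_le N₁
  have h5 : 0 ≤ (2 * ct θ) * (ε * (2 * (1 - (Nat.primeCounting N₁ : ℝ) / (N₁ + 1)))) := by
    have : 0 ≤ 1 - (Nat.primeCounting N₁ : ℝ) / (N₁ + 1) := by linarith
    positivity
  have e2 : (2 * ct θ) * (ε * ((∑ p ∈ pr N₂, (1 : ℝ) / p - ∑ p ∈ pr N₁, (1 : ℝ) / p) + 2) +
      2 * C / (N₁ + 1)) = (2 * ct θ) * (ε * (E N₂ - E N₁) + C * (1 / (N₁ + 1) - 1 / (N₂ + 1))) +
      2 * ct θ * (ε * ((Nat.primeCounting N₂ : ℝ) / (N₂ + 1)) + C * (1 / (N₂ + 1))) +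
      2 * ct θ * (ε * ((Nat.primeCounting N₁ : ℝ) / (N₁ + 1)) + C * (1 / (N₁ + 1))) +
      (2 * ct θ) * (ε * (2 * (1 - (Nat.primeCounting N₁ : ℝ) / (N₁ + 1)))) := by
    rw [hE]
    simp only
    ring
  rw [e2]
  linarith

/-- the window -/
noncomputable def wdw (f : ℕ → ℂ) (u : ℝ) : ℂ :=
  ∑ p ∈ pr ⌊Real.exp u⌋₊, f p - ∑ p ∈ pr ⌊Real.exp (u / 2)⌋₊, f p

theorem floor_mono {u : ℝ} (hu : 0 ≤ u) : ⌊Real.exp (u / 2)⌋₊ ≤ ⌊Real.exp u⌋₊ :=
  Nat.floor_mono (Real.exp_le_exp.2 (by linarith))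

theorem pr_sub {β : Type} [AddCommGroup β] (f : ℕ → β) {m n : ℕ} (h : m ≤ n) :
    ∑ p ∈ pr n, f p - ∑ p ∈ pr m, f p = ∑ p ∈ (Finset.Ioc m n).filter Nat.Prime, f p := by
  have h1 : pr n = pr m ∪ (Finset.Ioc m n).filter Nat.Prime := by
    ext p
    rw [Finset.mem_union, mem_pr, mem_pr, Finset.mem_filter, Finset.mem_Ioc]
    constructor
    · rintro ⟨h2, h3⟩
      rcases le_or_gt p m with h4 | h4
      · exact Or.inl ⟨h4, h3⟩
      · exact Or.inr ⟨⟨h4, h2⟩, h3⟩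
    · rintro (⟨h2, h3⟩ | ⟨⟨h2, h3⟩, h4⟩)
      · exact ⟨h2.trans h, h3⟩
      · exact ⟨h3, h4⟩
  have h2 : Disjoint (pr m) ((Finset.Ioc m n).filter Nat.Prime) := by
    rw [Finset.disjoint_left]
    intro p hp hq
    rw [mem_pr] at hp
    rw [Finset.mem_filter, Finset.mem_Ioc] at hq
    omega
  rw [h1, Finset.sum_union h2]
  abel

theorem win_one : Tendsto (fun u : ℝ => ∑ p ∈ pr ⌊Real.exp u⌋₊, (1 : ℝ) / p -
    ∑ p ∈ pr ⌊Real.exp (u / 2)⌋₊, (1 : ℝ) / p) atTop (𝓝 (Real.log 2)) := by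
  refine prime_half.congr' ?_
  filter_upwards [eventually_ge_atTop 0] with u hu
  exact (pr_sub (fun p : ℕ => (1 : ℝ) / p) (floor_mono hu)).symm

theorem floor_top : Tendsto (fun u : ℝ => ((⌊Real.exp (u / 2)⌋₊ : ℕ) : ℝ)) atTop atTop := by
  refine tendsto_natCast_atTop_atTop.comp (tendsto_nat_floor_atTop.comp ?_)
  exact Real.tendsto_exp_atTop.comp (tendsto_id.atTop_div_const (by norm_num))

theorem wdw_zero (a : ℕ → ℂ) (θ : ℝ)
    (h : ∀ ε > 0, ∃ C : ℝ, 0 ≤ C ∧ ∀ N, ‖∑ p ∈ pr N, a p‖ ≤ ε * Nat.primeCounting N + C) :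
    Tendsto (wdw fun p => a p * pw θ p) atTop (𝓝 0) := by
  rw [Metric.tendsto_atTop']
  intro δ hδ
  have hct := one_le_ct θ
  set ε : ℝ := δ / (2 * (2 * ct θ) * 3) with hε
  have hε0 : 0 < ε := by rw [hε]; positivity
  obtain ⟨C, hC, hb⟩ := h ε hε0
  have h1 : Tendsto (fun u : ℝ => (2 * ct θ) * (ε * ((∑ p ∈ pr ⌊Real.exp u⌋₊, (1 : ℝ) / p -
      ∑ p ∈ pr ⌊Real.exp (u / 2)⌋₊, (1 : ℝ) / p) + 2) + 2 * C / ((⌊Real.exp (u / 2)⌋₊ : ℕ) + 1)))
      atTop (𝓝 ((2 * ct θ) * (ε * (Real.log 2 + 2) + 0))) := by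
    refine Tendsto.const_mul _ (((win_one.add_const 2).const_mul ε).add ?_)
    exact Tendsto.div_atTop tendsto_const_nhds (tendsto_atTop_add_const_right _ _ floor_top)
  have h2 : (2 * ct θ) * (ε * (Real.log 2 + 2) + 0) < δ := by
    have h3 := Real.log_two_lt_d9
    have h4 : (2 * ct θ) * (ε * 3) = δ / 2 := by
      rw [hε]
      field_simp
    have h5 : (2 * ct θ) * (ε * (Real.log 2 + 2) + 0) ≤ (2 * ct θ) * (ε * 3) := by
      refine mul_le_mul_of_nonneg_left ?_ (by linarith)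
      rw [add_zero]
      exact mul_le_mul_of_nonneg_left (by linarith) hε0.le
    linarith
  obtain ⟨U, hU⟩ := eventually_atTop.mp ((h1.eventually (gt_mem_nhds h2)).and (eventually_ge_atTop 0))
  refine ⟨U, fun u hu => ?_⟩
  obtain ⟨h3, h4⟩ := hU u hu.le
  rw [dist_zero_right]
  exact (win_abel a hε0.le hC hb (floor_mono h4)).trans_lt h3

theorem pw_zero {p : ℕ} : pw 0 p = ((1 / p : ℝ) : ℂ) := by
  unfold pw
  rw [Complex.ofReal_zero, zero_mul, add_zero, Complex.cpow_neg_one]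
  push_cast
  rw [one_div]

/-- windows of sequences with a mean value -/
theorem wdw_mean {b : ℕ → ℝ} {ν : ℝ} (h : Tendsto (M b) atTop (𝓝 ν)) :
    Tendsto (fun u : ℝ => ∑ p ∈ pr ⌊Real.exp u⌋₊, b p / p - ∑ p ∈ pr ⌊Real.exp (u / 2)⌋₊, b p / p) atTop
      (𝓝 (ν * Real.log 2)) := by
  have h1 := wdw_zero (fun p => ((b p - ν : ℝ) : ℂ)) 0 fun ε hε => by
    obtain ⟨C, hC, h2⟩ := mean_T h hε
    refine ⟨C, hC, fun N => ?_⟩
    have := h2 N
    rw [← Complex.ofReal_sum, Complex.norm_real, Real.norm_eq_abs]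
    exact this
  have h2 := ((Complex.continuous_re.tendsto 0).comp h1).add (win_one.const_mul ν)
  rw [Complex.zero_re, zero_add] at h2
  refine h2.congr fun u => ?_
  simp only [Function.comp_apply]
  have e : wdw (fun p => ((b p - ν : ℝ) : ℂ) * pw 0 p) u = ((∑ p ∈ pr ⌊Real.exp u⌋₊, (b p - ν) / p -
      ∑ p ∈ pr ⌊Real.exp (u / 2)⌋₊, (b p - ν) / p : ℝ) : ℂ) := by
    unfold wdw
    push_cast
    congr 1 <;>
    · refine Finset.sum_congr rfl fun p _ => ?_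
      rw [pw_zero]
      push_cast
      ring
  rw [e, Complex.ofReal_re]
  simp only [sub_div, Finset.sum_sub_distrib]
  have e2 : ∀ N : ℕ, ∑ p ∈ pr N, ν / (p : ℝ) = ν * ∑ p ∈ pr N, (1 : ℝ) / p := by
    intro N
    rw [Finset.mul_sum]
    exact Finset.sum_congr rfl fun p _ => by ring
  rw [e2, e2]
  ring

variable {G : ℕ → Prop} {d : ℕ} {α : ℕ → Fin d → ℂ}

theorem stp_bb (H : Par G α) (u : ℝ) : stp (bb G α) u = ∑ p ∈ pr ⌊Real.exp u⌋₊, bG G α p / p := by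
  classical
  unfold stp
  rw [sum_pr (fun p => bG G α p / p)]
  refine Finset.sum_congr rfl fun n _ => ?_
  unfold bb
  split_ifs with hn
  · rfl
  · have : ¬ G n := fun h => hn (H.prime n h)
    unfold bG
    rw [if_neg this, zero_div]

theorem win_lim (H : Par G α) {ν : ℝ} (hν : Tendsto (M (bG G α)) atTop (𝓝 ν)) :
    Tendsto (win G α) atTop (𝓝 (ν * Real.log 2)) := by
  refine (wdw_mean hν).congr fun u => ?_
  unfold win
  rw [stp_bb H, stp_bb H]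

end Pool.Agent.D0H40.SP
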