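import Pool.Agent.D0H40.SP.Seq
import Pool.Agent.D0H40.SP.Win

/-! The partial products of an Euler product with parameters of absolute value one. -/

set_option autoImplicit false

namespace Pool.Agent.D0H40.SP

open MeasureTheory Filter Topology Set
open Pool.Agent.W263.BSD
open Pool.Agent.D0H40.CX
open Pool.Agent.D0H40.AR
open scoped ComplexConjugate

variable {G : ℕ → Prop} {d : ℕ} {α : ℕ → Fin d → ℂ}

/-- the logarithm of the partial product -/
noncomputable def SS (G : ℕ → Prop) (α : ℕ → Fin d → ℂ) (n : ℕ) : ℝ := ∑ p ∈ up G (n : ℝ), lsum α p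

theorem up_floor (X : ℝ) : up G (((⌊X⌋₊ : ℕ) : ℝ)) = up G X := by
  unfold up
  rw [Nat.floor_natCast]

theorem two_SS (H : Par G α) : (fun u : ℝ => 2 * SS G α ⌊Real.exp u⌋₊) = stp (cP G α) := by
  funext u
  unfold SS
  rw [up_floor, stp_cP H]

theorem SS_succ (H : Par G α) (n : ℕ) : 2 * (SS G α (n + 1) - SS G α n) = cP G α (n + 1) := by
  classical
  have h : ∀ n : ℕ, 2 * SS G α n = ∑ k ∈ Finset.range (n + 1), cP G α k := by
    intro n
    unfold SS up
    rw [Nat.floor_natCast, Finset.mul_sum, Finset.sum_filter]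
    exact Finset.sum_congr rfl fun k _ => (cP_eq H k).symm
  rw [mul_sub, h, h, Finset.sum_range_succ]
  ring

theorem step_SS (H : Par G α) : Step (SS G α) := by
  unfold Step
  refine squeeze_zero_norm (a := fun n : ℕ => (d : ℝ) * 3 * dn (n + 1) / 2) (fun n => ?_) ?_
  · have h1 := H.ns.cn_le (n + 1)
    have h2 := SS_succ H n
    have h3 : SS G α (n + 1) - SS G α n = cP G α (n + 1) / 2 := by linarith
    rw [h3, Real.norm_eq_abs, abs_div, abs_two]
    have h4 : |cP G α (n + 1)| ≤ d * (3 * dn (n + 1)) := h1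
    linarith
  · have h1 : Tendsto (fun n : ℕ => dn (n + 1)) atTop (𝓝 0) := by
      have h2 : Tendsto (fun x : ℝ => x ^ (-(1 / 2) : ℝ)) atTop (𝓝 0) :=
        tendsto_rpow_neg_atTop (by norm_num)
      exact h2.comp (tendsto_natCast_atTop_atTop.comp (tendsto_add_atTop_nat 1))
    have h3 := (h1.const_mul ((d : ℝ) * 3)).div_const 2
    rw [mul_zero, zero_div] at h3
    exact h3

theorem par_PD (H : Par G α) {F : ℂ → ℂ} (h1 : ∀ s : ℂ, 1 / 2 < s.re → MeromorphicAt F s)
    (h2 : MeromorphicAt F (1 / 2)) (h3 : ∀ s : ℂ, 1 < s.re → HasProd (loc G α s) (F s)) :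
    PD (SS G α) (Ph F) (Gn (qA G d) (tA G α)) (1 / 2) where
  md := by
    rw [two_SS H]
    exact NS_MD H.ns (H.mcont h1 h2 h3)
  loc := by
    rw [two_SS H]
    exact NS_Loc H.ns
  step := step_SS H

theorem par_Lead (H : Par G α) {F : ℂ → ℂ} (h2 : MeromorphicAt F (1 / 2)) {m : ℤ}
    (hm : meromorphicOrderAt F (1 / 2) = m) {c : ℝ} (hc0 : 0 < c)
    (hc : Tendsto (fun s : ℂ => ‖F s‖ / ‖s - 1 / 2‖ ^ m) (𝓝[≠] (1 / 2)) (𝓝 c)) {L : ℝ}
    (hL : Tendsto (win G α) atTop (𝓝 L)) :
    Lead (Ph F) (Gn (qA G d) (tA G α)) (2 * m) (c ^ 2) (-L) where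
  mero := by
    rw [Ph_eq]
    refine (mero_half (by rwa [add_zero])).mul (mero_conj (mero_half ?_))
    rwa [map_zero, add_zero]
  ord := by
    rw [Ph_order h2, hm, two_mul, WithTop.coe_add]
  pos := by positivity
  lim := by
    have t1 : Tendsto (fun z : ℂ => 1 / 2 + z) (𝓝[≠] 0) (𝓝[≠] (1 / 2)) := by
      rw [tendsto_nhdsWithin_iff]
      constructor
      · have : Tendsto (fun z : ℂ => 1 / 2 + z) (𝓝 0) (𝓝 (1 / 2 + 0)) := by
          exact (continuous_const.add continuous_id).tendsto 0
        rw [add_zero] at this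
        exact this.mono_left nhdsWithin_le_nhds
      · filter_upwards [self_mem_nhdsWithin] with z hz h
        refine hz ?_
        have h' : (1 : ℂ) / 2 + z = 1 / 2 := h
        have : z = 0 := by linear_combination h'
        exact this
    have t2 : Tendsto (fun z : ℂ => conj z) (𝓝[≠] 0) (𝓝[≠] 0) := by
      rw [tendsto_nhdsWithin_iff]
      constructor
      · have := Complex.continuous_conj.tendsto 0
        rw [map_zero] at this
        exact this.mono_left nhdsWithin_le_nhds
      · filter_upwards [self_mem_nhdsWithin] with z hz h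
        refine hz ?_
        have h' : conj z = 0 := h
        have : z = 0 := by
          have := congrArg conj h'
          rwa [Complex.conj_conj, map_zero] at this
        exact this
    have h4 := hc.comp t1
    have h5 := hc.comp (t1.comp t2)
    have h6 := h4.mul h5
    rw [← pow_two] at h6
    refine h6.congr fun z => ?_
    simp only [Function.comp_apply, add_sub_cancel_left]
    unfold Ph
    rw [norm_mul, Complex.norm_conj, Complex.norm_conj, conj_half, two_mul, zpow_add' (by
      by_cases hz : ‖z‖ = 0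
      · by_cases hm0 : m = 0
        · right; right; simp [hm0]
        · right; left
          omega
      · left; exact hz)]
    rw [div_mul_div_comm]
  glim := G_lim H hL

/-! ### The orders of the product and of the function -/

/-- the order of the product with the conjugate -/
noncomputable def od (F : ℂ → ℂ) (s : ℂ) : WithTop ℤ := meromorphicOrderAt F s + meromorphicOrderAt F (conj s)

theorem half_re : ((1 : ℂ) / 2).re = 1 / 2 := by norm_num

theorem od_half {F : ℂ → ℂ} (h : ∀ s : ℂ, 1 / 2 < s.re → MeromorphicAt F s) {s : ℂ} (hs : 1 / 2 < s.re) :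
    meromorphicOrderAt (Ph F) (s - 1 / 2) = od F s := by
  rw [Ph_order' h (by rw [Complex.sub_re, half_re]; linarith), add_sub_cancel]
  rfl

theorem rhm_iff {F : ℂ → ℂ} (h : ∀ s : ℂ, 1 / 2 < s.re → MeromorphicAt F s) :
    RHm (Ph F) ↔ ∀ s : ℂ, 1 / 2 < s.re → od F s = 0 := by
  constructor
  · intro h1 s hs
    rw [← od_half h hs]
    exact h1 _ (by rw [Complex.sub_re, half_re]; linarith)
  · intro h1 z hz
    have h2 := h1 (1 / 2 + z) (by rw [Complex.add_re, half_re]; linarith)
    rw [← od_half h (by rw [Complex.add_re, half_re]; linarith), add_sub_cancel_left] at h2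
    exact h2

theorem add_self_pos {x : WithTop ℤ} : 0 < x + x ↔ 0 < x := by
  induction x using WithTop.recTopCoe with
  | top => simp
  | coe n =>
    rw [← WithTop.coe_add]
    norm_cast
    omega

theorem add_self_neg {x : WithTop ℤ} : x + x < 0 ↔ x < 0 := by
  induction x using WithTop.recTopCoe with
  | top => simp
  | coe n =>
    rw [← WithTop.coe_add]
    norm_cast
    omega

theorem od_real (F : ℂ → ℂ) (s : ℝ) : od F s = meromorphicOrderAt F s + meromorphicOrderAt F s := by
  unfold od
  rw [Complex.conj_ofReal]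

theorem dom_iff {F : ℂ → ℂ} (h : ∀ s : ℂ, 1 / 2 < s.re → MeromorphicAt F s) {Q : WithTop ℤ → Prop} :
    (∃ s : ℝ, 0 < s ∧ Q (meromorphicOrderAt (Ph F) (s : ℂ)) ∧
      ∀ z : ℂ, s < z.re → meromorphicOrderAt (Ph F) z = 0) ↔
    ∃ s : ℝ, 1 / 2 < s ∧ Q (od F s) ∧ ∀ z : ℂ, s < z.re → od F z = 0 := by
  constructor
  · rintro ⟨s, hs, h1, h2⟩
    refine ⟨1 / 2 + s, by linarith, ?_, fun z hz => ?_⟩
    · rw [← od_half h (by rw [Complex.ofReal_re]; linarith)]
      have e : (((1 / 2 + s : ℝ) : ℂ)) - 1 / 2 = (s : ℂ) := by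
        push_cast
        ring
      rw [e]
      exact h1
    · rw [← od_half h (by linarith)]
      exact h2 _ (by rw [Complex.sub_re, half_re]; linarith)
  · rintro ⟨s, hs, h1, h2⟩
    refine ⟨s - 1 / 2, by linarith, ?_, fun z hz => ?_⟩
    · rw [← od_half h (by rw [Complex.ofReal_re]; linarith)] at h1
      have e : (s : ℂ) - 1 / 2 = ((s - 1 / 2 : ℝ) : ℂ) := by
        push_cast
        ring
      rw [e] at h1
      exact h1
    · have h3 := h2 (1 / 2 + z) (by rw [Complex.add_re, half_re]; linarith)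
      rw [← od_half h (by rw [Complex.add_re, half_re]; linarith), add_sub_cancel_left] at h3
      exact h3

end Pool.Agent.D0H40.SP
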