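import Pool.Agent.D0H40.SP.Conv
import Pool.Agent.D0H40.PL.Wild

/-! Limit points of normalised partial products: abstract theorems. -/

set_option autoImplicit false

namespace Pool.Agent.D0H40.SP

open MeasureTheory Filter Topology Set
open Pool.Agent.W263.BSD
open Pool.Agent.D0H40.PL (cluster Slow slow_log loglog_sub log_succ log_floor)

/-- the quotient by a sequence -/
noncomputable def qs (S f : ℕ → ℝ) (n : ℕ) : ℝ := Real.exp (S n) / f n

/-- limit points along integers -/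
def LPs (S f : ℕ → ℝ) (A : ℝ) : Prop :=
  ∃ n : ℕ → ℕ, Tendsto n atTop atTop ∧ Tendsto (fun k => qs S f (n k)) atTop (𝓝 A)

variable {S f : ℕ → ℝ} {A : ℝ}

theorem LPs.freq (h : LPs S f A) {ε : ℝ} (hε : 0 < ε) : ∃ᶠ n : ℕ in atTop, |qs S f n - A| < ε := by
  obtain ⟨n, hn, hg⟩ := h
  have h2 : ∀ᶠ k in atTop, |qs S f (n k) - A| < ε := by
    have := (Metric.tendsto_nhds.1 hg) ε hε
    simpa [Real.dist_eq] using this
  exact hn.frequently h2.frequently

theorem LPs.of_freq (h : ∀ ε : ℝ, 0 < ε → ∃ᶠ n : ℕ in atTop, |qs S f n - A| < ε) : LPs S f A := by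
  have h1 : MapClusterPt A atTop (fun n : ℕ => qs S f n) := by
    rw [mapClusterPt_iff_frequently]
    intro s hs
    obtain ⟨ε, hε, hs'⟩ := Metric.mem_nhds_iff.1 hs
    refine (h ε hε).mono fun n hn => hs' ?_
    rw [Metric.mem_ball, Real.dist_eq]
    exact hn
  obtain ⟨ψ, h2, h3⟩ := h1.tendsto_subseq
  exact ⟨ψ, h2.tendsto_atTop, h3⟩

theorem qs_pos (hf : ∀ᶠ n in atTop, 0 < f n) : ∀ᶠ n in atTop, 0 < qs S f n := by
  filter_upwards [hf] with n hn
  exact div_pos (Real.exp_pos _) hn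

/-- the increments tend to zero -/
def Step (S : ℕ → ℝ) : Prop := Tendsto (fun n => S (n + 1) - S n) atTop (𝓝 0)

theorem qs_succ (hS : Step S) (hf : ∀ᶠ n in atTop, 0 < f n)
    (hr : Tendsto (fun n => f (n + 1) / f n) atTop (𝓝 1)) :
    Tendsto (fun n : ℕ => qs S f (n + 1) / qs S f n) atTop (𝓝 1) := by
  have h0 := hS.rexp
  rw [Real.exp_zero] at h0
  have h1 := h0.div hr one_ne_zero
  rw [div_one] at h1
  refine h1.congr' ?_
  filter_upwards [hf, (tendsto_add_atTop_nat 1).eventually hf] with n h2 h3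
  unfold qs
  simp only [Pi.div_apply]
  rw [Real.exp_sub]
  have := Real.exp_pos (S n)
  field_simp

theorem LPs.of_brackets (hS : Step S) (hf : ∀ᶠ n in atTop, 0 < f n)
    (hr : Tendsto (fun n => f (n + 1) / f n) atTop (𝓝 1))
    (h1 : ∀ ε : ℝ, 0 < ε → ∃ᶠ n : ℕ in atTop, qs S f n < A + ε)
    (h2 : ∀ ε : ℝ, 0 < ε → ∃ᶠ n : ℕ in atTop, A - ε < qs S f n) : LPs S f A :=
  LPs.of_freq fun _ hε => cluster (qs_pos hf) (qs_succ hS hf hr) h1 h2 hε

theorem LPs.between (hS : Step S) (hf : ∀ᶠ n in atTop, 0 < f n)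
    (hr : Tendsto (fun n => f (n + 1) / f n) atTop (𝓝 1)) {u v w : ℝ} (huv : u ≤ v) (hvw : v ≤ w)
    (hu : LPs S f u) (hw : LPs S f w) : LPs S f v := by
  refine LPs.of_brackets hS hf hr (fun ε hε => ?_) (fun ε hε => ?_)
  · refine (hu.freq hε).mono fun n hn => ?_
    have := (abs_lt.1 hn).2
    linarith
  · refine (hw.freq hε).mono fun n hn => ?_
    have := (abs_lt.1 hn).1
    linarith

/-- convergence or an interval of limit points -/
theorem interval (hS : Step S) (hf : ∀ᶠ n in atTop, 0 < f n)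
    (hr : Tendsto (fun n => f (n + 1) / f n) atTop (𝓝 1)) (hA : LPs S f A)
    (hn : ¬ Tendsto (fun n => qs S f n) atTop (𝓝 A)) :
    ∃ B : ℝ, B ≠ A ∧ 0 ≤ B ∧ ∀ v : ℝ, v ∈ Set.uIcc A B → LPs S f v := by
  have h1 : ∃ ε : ℝ, 0 < ε ∧ ∃ᶠ n in atTop, ε ≤ |qs S f n - A| := by
    by_contra hcon
    push Not at hcon
    refine hn (Metric.tendsto_nhds.2 fun ε hε => ?_)
    have := hcon ε hε
    filter_upwards [this] with n hn
    rw [Real.dist_eq]
    exact hn
  obtain ⟨ε, hε, h2⟩ := h1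
  have h3 : (∃ᶠ n in atTop, A + ε ≤ qs S f n) ∨ ∃ᶠ n in atTop, qs S f n ≤ A - ε := by
    rw [← frequently_or_distrib]
    refine h2.mono fun n hn => ?_
    rcases le_abs'.1 hn with h | h
    · right; linarith
    · left; linarith
  rcases h3 with h3 | h3
  · have hB : LPs S f (A + ε) := by
      refine LPs.of_brackets hS hf hr (fun δ hδ => ?_) (fun δ hδ => ?_)
      · refine (hA.freq (ε := ε) hε).mono fun n hn => ?_
        have := (abs_lt.1 hn).2
        linarith
      · exact h3.mono fun n hn => by linarith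
    refine ⟨A + ε, by linarith, ?_, ?_⟩
    · have hA0 : 0 ≤ A := by
        obtain ⟨n, hn, hg⟩ := hA
        refine ge_of_tendsto hg ?_
        filter_upwards [hn.eventually (qs_pos (S := S) hf)] with k hk using hk.le
      linarith
    · intro v hv
      rw [Set.uIcc_of_le (by linarith)] at hv
      exact LPs.between hS hf hr hv.1 hv.2 hA hB
  · have hB : LPs S f (A - ε) := by
      refine LPs.of_brackets hS hf hr (fun δ hδ => ?_) (fun δ hδ => ?_)
      · exact h3.mono fun n hn => by linarith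
      · refine (hA.freq (ε := ε) hε).mono fun n hn => ?_
        have := (abs_lt.1 hn).1
        linarith
    refine ⟨A - ε, by linarith, ?_, ?_⟩
    · obtain ⟨n, hn1, hn2⟩ := (h3.and_eventually (qs_pos (S := S) hf)).exists
      linarith
    · intro v hv
      rw [Set.uIcc_of_ge (by linarith)] at hv
      exact LPs.between hS hf hr hv.1 hv.2 hB hA

/-! ### The data -/

/-- the data of the partial products `exp (S n)` -/
structure PD (S : ℕ → ℝ) (Φ G : ℂ → ℂ) (c0 : ℝ) : Prop where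
  md : MD (fun u => 2 * S ⌊Real.exp u⌋₊) Φ G c0
  loc : Loc (fun u => 2 * S ⌊Real.exp u⌋₊)
  step : Step S

variable {Φ G : ℂ → ℂ} {c0 : ℝ} {M : ℤ} {C g0 : ℝ}

theorem fe_top : Tendsto (fun u : ℝ => ⌊Real.exp u⌋₊) atTop atTop :=
  tendsto_nat_floor_atTop.comp Real.tendsto_exp_atTop

theorem fe_le (u : ℝ) : ((⌊Real.exp u⌋₊ : ℕ) : ℝ) ≤ Real.exp u := Nat.floor_le (Real.exp_pos u).le

theorem fe_rpow (u : ℝ) {θ : ℝ} (hθ : 0 ≤ θ) : ((⌊Real.exp u⌋₊ : ℕ) : ℝ) ^ θ ≤ Real.exp u ^ θ :=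
  Real.rpow_le_rpow (Nat.cast_nonneg _) (fe_le u) hθ

theorem PD.rh_le (D : PD S Φ G c0) (hd : ¬ PDom Φ)
    (h : ∀ ε : ℝ, 0 < ε → ∀ᶠ n : ℕ in atTop, S n ≤ (n : ℝ) ^ ε) : RHm Φ := by
  refine D.md.rh_up D.loc hd fun ε hε => ?_
  filter_upwards [fe_top.eventually (h (ε / 2) (half_pos hε)),
    exp_absorb (half_pos hε).le (half_pos hε)] with u h1 h2
  have h3 := fe_rpow u (half_pos hε).le
  have e : ε / 2 + ε / 2 = ε := by ring
  rw [e] at h2
  linarith

theorem PD.rh_ge (D : PD S Φ G c0) (hd : ¬ ZDom Φ)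
    (h : ∀ ε : ℝ, 0 < ε → ∀ᶠ n : ℕ in atTop, -(n : ℝ) ^ ε ≤ S n) : RHm Φ := by
  refine D.md.rh_down D.loc hd fun ε hε => ?_
  filter_upwards [fe_top.eventually (h (ε / 2) (half_pos hε)),
    exp_absorb (half_pos hε).le (half_pos hε)] with u h1 h2
  have h3 := fe_rpow u (half_pos hε).le
  have e : ε / 2 + ε / 2 = ε := by ring
  rw [e] at h2
  linarith

theorem PD.large (D : PD S Φ G c0) {θ : ℝ} (hθ : 0 ≤ θ)
    (hz : ∃ z : ℂ, θ < z.re ∧ meromorphicOrderAt Φ z ≠ 0)
    (hp : ∀ s : ℝ, θ < s → 0 ≤ meromorphicOrderAt Φ (s : ℂ)) :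
    ∃ᶠ n : ℕ in atTop, (n : ℝ) ^ θ < S n := by
  refine fe_top.frequently ((D.md.omega_plus D.loc hθ hz hp).mono fun u hu => ?_)
  have h3 := fe_rpow u hθ
  linarith

theorem PD.small (D : PD S Φ G c0) {θ : ℝ} (hθ : 0 ≤ θ)
    (hz : ∃ z : ℂ, θ < z.re ∧ meromorphicOrderAt Φ z ≠ 0)
    (hp : ∀ s : ℝ, θ < s → meromorphicOrderAt Φ (s : ℂ) ≤ 0) :
    ∃ᶠ n : ℕ in atTop, S n < -(n : ℝ) ^ θ := by
  refine fe_top.frequently ((D.md.omega_minus D.loc hθ hz hp).mono fun u hu => ?_)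
  have h3 := fe_rpow u hθ
  linarith

theorem const_add_nat (c : ℝ) {ε : ℝ} (hε : 0 < ε) :
    ∀ᶠ n : ℕ in atTop, c + (n : ℝ) ^ (ε / 2) ≤ (n : ℝ) ^ ε :=
  tendsto_natCast_atTop_atTop.eventually (PL.const_sub c hε)

/-- **Wildness.** -/
theorem PD.wild (D : PD S Φ G c0) (hz : ¬ RHm Φ) (hd1 : ¬ ZDom Φ) (hd2 : ¬ PDom Φ) (hf : Slow f)
    (hA : 0 ≤ A) : LPs S f A := by
  refine LPs.of_brackets D.step hf.pos hf.ratio (fun ε hε => ?_) (fun ε hε => ?_)
  · by_contra hcon
    rw [not_frequently] at hcon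
    refine hz (D.rh_ge hd1 fun η hη => ?_)
    filter_upwards [hcon, hf.pos, hf.sub (η / 2) (half_pos hη),
      const_add_nat (-Real.log (A + ε)) hη] with n h1 h2 h3 h4
    push Not at h1
    unfold qs at h1
    rw [le_div_iff₀ h2] at h1
    have h5 := Real.log_le_log (by positivity) h1
    rw [Real.log_mul (by linarith) h2.ne', Real.log_exp] at h5
    have := (abs_le.1 h3).1
    linarith
  · by_contra hcon
    rw [not_frequently] at hcon
    refine hz (D.rh_le hd2 fun η hη => ?_)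
    filter_upwards [hcon, hf.pos, hf.sub (η / 2) (half_pos hη),
      const_add_nat (Real.log (A + 1)) hη] with n h1 h2 h3 h4
    push Not at h1
    unfold qs at h1
    rw [div_le_iff₀ h2] at h1
    have h5 : Real.exp (S n) ≤ (A + 1) * f n :=
      h1.trans (mul_le_mul_of_nonneg_right (by linarith) h2.le)
    have h6 := Real.log_le_log (Real.exp_pos _) h5
    rw [Real.log_mul (by linarith) h2.ne', Real.log_exp] at h6
    have := (abs_le.1 h3).2
    linarith

/-! ### Powers of the logarithm -/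

theorem ll_tend : Tendsto (fun u : ℝ => Real.log (Real.log ⌊Real.exp u⌋₊) - Real.log u) atTop (𝓝 0) := by
  have h1 := (log_floor.comp Real.tendsto_exp_atTop).log one_ne_zero
  rw [Real.log_one] at h1
  refine h1.congr' ?_
  filter_upwards [eventually_ge_atTop 2] with u hu
  simp only [Function.comp_apply, Real.log_exp]
  have h2 : 1 < ((⌊Real.exp u⌋₊ : ℕ) : ℝ) := by
    have h3 : 2 ≤ ⌊Real.exp u⌋₊ := Nat.le_floor (by
      push_cast
      have := Real.add_one_le_exp u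
      linarith)
    exact_mod_cast h3
  rw [Real.log_div (Real.log_pos h2).ne' (by linarith)]

/-- the threshold -/
noncomputable def thr (M : ℤ) (C g0 : ℝ) : ℝ := g0 - Real.log C + M * Real.eulerMascheroniConstant

theorem PD.up_n (D : PD S Φ G c0) (H : Lead Φ G M C g0)
    (hp : ∀ s : ℝ, 0 < s → 0 ≤ meromorphicOrderAt Φ (s : ℂ)) {B : ℝ} (hB : 2 * B < thr M C g0) :
    ∃ᶠ n : ℕ in atTop, 2 * B < 2 * S n - M * Real.log (Real.log n) := by
  set δ : ℝ := (thr M C g0 - 2 * B) / 2 with hδ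
  have hδ0 : 0 < δ := by rw [hδ]; linarith
  have h1 := D.md.log_up D.loc H hp (B := 2 * B + δ) (by
    have : thr M C g0 = g0 - Real.log C + M * Real.eulerMascheroniConstant := rfl
    linarith)
  have h2 := ll_tend.const_mul (M : ℝ)
  rw [mul_zero] at h2
  refine fe_top.frequently ((h1.and_eventually (h2.eventually (gt_mem_nhds hδ0))).mono fun u hu => ?_)
  obtain ⟨e1, e2⟩ := hu
  rw [mul_sub] at e2
  linarith

theorem PD.down_n (D : PD S Φ G c0) (H : Lead Φ G M C g0)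
    (hp : ∀ s : ℝ, 0 < s → meromorphicOrderAt Φ (s : ℂ) ≤ 0) {B : ℝ} (hB : thr M C g0 < 2 * B) :
    ∃ᶠ n : ℕ in atTop, 2 * S n - M * Real.log (Real.log n) < 2 * B := by
  set δ : ℝ := (2 * B - thr M C g0) / 2 with hδ
  have hδ0 : 0 < δ := by rw [hδ]; linarith
  have h1 := D.md.log_down D.loc H hp (B := 2 * B - δ) (by
    have : thr M C g0 = g0 - Real.log C + M * Real.eulerMascheroniConstant := rfl
    linarith)
  have h2 := ll_tend.const_mul (M : ℝ)
  rw [mul_zero] at h2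
  have h3 : -δ < 0 := by linarith
  refine fe_top.frequently ((h1.and_eventually (h2.eventually (lt_mem_nhds h3))).mono fun u hu => ?_)
  obtain ⟨e1, e2⟩ := hu
  rw [mul_sub] at e2
  linarith

theorem lll_top : Tendsto (fun n : ℕ => Real.log (Real.log (n : ℝ))) atTop atTop :=
  Real.tendsto_log_atTop.comp (Real.tendsto_log_atTop.comp tendsto_natCast_atTop_atTop)

theorem log_pos_ev : ∀ᶠ n : ℕ in atTop, 0 < Real.log (n : ℝ) := by
  filter_upwards [eventually_ge_atTop 2] with n hn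
  exact Real.log_pos (by exact_mod_cast (by omega : 1 < n))

theorem rpow_ll {x ρ : ℝ} (hx : 0 < x) : x ^ ρ = Real.exp (ρ * Real.log x) := by
  rw [Real.rpow_def_of_pos hx, mul_comm]

/-- upper bounds -/
theorem PD.one_upper (D : PD S Φ G c0) (H : Lead Φ G M C g0) (hd : ¬ PDom Φ) {ρ : ℝ}
    (h : ∀ ε > 0, ∀ᶠ n : ℕ in atTop, Real.exp (S n) ≤ Real.log n ^ (ρ + ε)) :
    RHm Φ ∧ (M : ℝ) ≤ 2 * ρ := by
  have h1 : ∀ ε > 0, ∀ᶠ n : ℕ in atTop, S n ≤ (ρ + ε) * Real.log (Real.log n) := by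
    intro ε hε
    filter_upwards [h ε hε, log_pos_ev] with n h1 h2
    rw [rpow_ll h2, Real.exp_le_exp] at h1
    exact h1
  have hRH : RHm Φ := by
    refine D.rh_le hd fun ε hε => ?_
    filter_upwards [h1 1 one_pos, tendsto_natCast_atTop_atTop.eventually (loglog_sub (ρ + 1) hε)]
      with n h2 h3
    have := (abs_le.1 h3).2
    linarith
  refine ⟨hRH, ?_⟩
  by_contra hcon
  push Not at hcon
  set ε : ℝ := (M - 2 * ρ) / 4 with hε
  have hε0 : 0 < ε := by rw [hε]; linarith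
  have h2 := D.up_n H (fun s hs => (hRH s (by rwa [Complex.ofReal_re])).ge) (B := (thr M C g0 - 1) / 2)
    (by linarith)
  have h3 : Tendsto (fun n : ℕ => (2 * (ρ + ε) - M) * Real.log (Real.log (n : ℝ))) atTop atBot :=
    lll_top.const_mul_atTop_of_neg (by rw [hε]; linarith)
  obtain ⟨n, e1, e2, e3⟩ := (h2.and_eventually ((h1 ε hε0).and
    (h3.eventually (eventually_lt_atBot (thr M C g0 - 1))))).exists
  linarith

/-- lower bounds -/
theorem PD.one_lower (D : PD S Φ G c0) (H : Lead Φ G M C g0) (hd : ¬ ZDom Φ) {ρ : ℝ}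
    (h : ∀ ε > 0, ∀ᶠ n : ℕ in atTop, Real.log n ^ (ρ - ε) ≤ Real.exp (S n)) :
    RHm Φ ∧ 2 * ρ ≤ (M : ℝ) := by
  have h1 : ∀ ε > 0, ∀ᶠ n : ℕ in atTop, (ρ - ε) * Real.log (Real.log n) ≤ S n := by
    intro ε hε
    filter_upwards [h ε hε, log_pos_ev] with n h1 h2
    rw [rpow_ll h2, Real.exp_le_exp] at h1
    exact h1
  have hRH : RHm Φ := by
    refine D.rh_ge hd fun ε hε => ?_
    filter_upwards [h1 1 one_pos, tendsto_natCast_atTop_atTop.eventually (loglog_sub (ρ - 1) hε)]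
      with n h2 h3
    have := (abs_le.1 h3).1
    linarith
  refine ⟨hRH, ?_⟩
  by_contra hcon
  push Not at hcon
  set ε : ℝ := (2 * ρ - M) / 4 with hε
  have hε0 : 0 < ε := by rw [hε]; linarith
  have h2 := D.down_n H (fun s hs => (hRH s (by rwa [Complex.ofReal_re])).le) (B := (thr M C g0 + 1) / 2)
    (by linarith)
  have h3 : Tendsto (fun n : ℕ => (2 * (ρ - ε) - M) * Real.log (Real.log (n : ℝ))) atTop atTop :=
    lll_top.const_mul_atTop (by rw [hε]; linarith)
  obtain ⟨n, e1, e2, e3⟩ := (h2.and_eventually ((h1 ε hε0).and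
    (h3.eventually (eventually_gt_atTop (thr M C g0 + 1))))).exists
  linarith

/-- limit zero -/
theorem PD.lim_zero (D : PD S Φ G c0) (H : Lead Φ G M C g0) (hd : ¬ PDom Φ) {ρ : ℝ}
    (h : Tendsto (fun n : ℕ => Real.exp (S n) / Real.log n ^ ρ) atTop (𝓝 0)) :
    RHm Φ ∧ (M : ℝ) < 2 * ρ := by
  obtain ⟨h2, h3⟩ := D.one_upper H hd (ρ := ρ) fun ε hε => by
    filter_upwards [h.eventually (gt_mem_nhds one_pos), log_pos_ev, lll_top.eventually
      (eventually_ge_atTop 0)] with n h1 h2 h3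
    rw [div_lt_one (Real.rpow_pos_of_pos h2 _)] at h1
    refine h1.le.trans ?_
    rw [rpow_ll h2, rpow_ll h2, Real.exp_le_exp]
    nlinarith
  refine ⟨h2, lt_of_le_of_ne h3 fun he => ?_⟩
  have h4 := D.up_n H (fun s hs => (h2 s (by rwa [Complex.ofReal_re])).ge) (B := (thr M C g0 - 1) / 2)
    (by linarith)
  have h5 := h.eventually (gt_mem_nhds (Real.exp_pos ((thr M C g0 - 1) / 2)))
  obtain ⟨n, e1, e2, e3⟩ := (h4.and_eventually (h5.and log_pos_ev)).exists
  rw [rpow_ll e3, ← Real.exp_sub, Real.exp_lt_exp] at e2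
  rw [he] at e1
  linarith

/-- limit infinity -/
theorem PD.lim_top (D : PD S Φ G c0) (H : Lead Φ G M C g0) (hd : ¬ ZDom Φ) {ρ : ℝ}
    (h : Tendsto (fun n : ℕ => Real.exp (S n) / Real.log n ^ ρ) atTop atTop) :
    RHm Φ ∧ 2 * ρ < (M : ℝ) := by
  obtain ⟨h2, h3⟩ := D.one_lower H hd (ρ := ρ) fun ε hε => by
    filter_upwards [h.eventually (eventually_ge_atTop 1), log_pos_ev, lll_top.eventually
      (eventually_ge_atTop 0)] with n h1 h2 h3
    rw [one_le_div (Real.rpow_pos_of_pos h2 _)] at h1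
    refine le_trans ?_ h1
    rw [rpow_ll h2, rpow_ll h2, Real.exp_le_exp]
    nlinarith
  refine ⟨h2, lt_of_le_of_ne h3 fun he => ?_⟩
  have h4 := D.down_n H (fun s hs => (h2 s (by rwa [Complex.ofReal_re])).le) (B := (thr M C g0 + 1) / 2)
    (by linarith)
  have h5 := h.eventually (eventually_gt_atTop (Real.exp ((thr M C g0 + 1) / 2)))
  obtain ⟨n, e1, e2, e3⟩ := (h4.and_eventually (h5.and log_pos_ev)).exists
  rw [rpow_ll e3, ← Real.exp_sub, Real.exp_lt_exp] at e2
  rw [← he] at e1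
  linarith

/-- the constant is a limit point -/
theorem PD.limit_point (D : PD S Φ G c0) {m : ℤ} (H : Lead Φ G (2 * m) C g0) (hd1 : ¬ ZDom Φ)
    (hd2 : ¬ PDom Φ) :
    LPs S (fun n : ℕ => Real.log (n : ℝ) ^ (m : ℝ)) (Real.exp (thr (2 * m) C g0 / 2)) := by
  by_cases hRH : RHm Φ
  · have hsl := slow_log (m : ℝ)
    have hq : ∀ᶠ n : ℕ in atTop, qs S (fun n : ℕ => Real.log (n : ℝ) ^ (m : ℝ)) n =
        Real.exp (S n - m * Real.log (Real.log n)) := by
      filter_upwards [log_pos_ev] with n hn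
      unfold qs
      simp only
      rw [rpow_ll hn, ← Real.exp_sub]
    have hcast : ((2 * m : ℤ) : ℝ) = 2 * (m : ℝ) := by push_cast; ring
    set T := Real.exp (thr (2 * m) C g0 / 2) with hT
    have hTp : 0 < T := Real.exp_pos _
    refine LPs.of_brackets D.step hsl.pos hsl.ratio (fun ε hε => ?_) (fun ε hε => ?_)
    · have h1 : thr (2 * m) C g0 < 2 * Real.log (T + ε) := by
        have h2 : Real.log T < Real.log (T + ε) := Real.log_lt_log hTp (by linarith)
        rw [hT, Real.log_exp] at h2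
        linarith
      refine ((D.down_n H (fun s hs => (hRH s (by rwa [Complex.ofReal_re])).le) h1).and_eventually hq).mono
        fun n hn => ?_
      obtain ⟨e1, e2⟩ := hn
      rw [e2, ← Real.lt_log_iff_exp_lt (by linarith)]
      rw [hcast] at e1
      linarith
    · rcases le_or_gt (T - ε) 0 with h0 | h0
      · refine (hq.mono fun n hn => ?_).frequently
        rw [hn]
        exact h0.trans_lt (Real.exp_pos _)
      · have h1 : 2 * Real.log (T - ε) < thr (2 * m) C g0 := by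
          have h2 : Real.log (T - ε) < Real.log T := Real.log_lt_log h0 (by linarith)
          rw [hT, Real.log_exp] at h2
          linarith
        refine ((D.up_n H (fun s hs => (hRH s (by rwa [Complex.ofReal_re])).ge) h1).and_eventually hq).mono
          fun n hn => ?_
        obtain ⟨e1, e2⟩ := hn
        rw [e2, ← Real.log_lt_iff_lt_exp h0]
        rw [hcast] at e1
        linarith
  · exact D.wild hRH hd1 hd2 (slow_log _) (Real.exp_pos _).le

end Pool.Agent.D0H40.SP
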