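import Pool.Agent.D0H40.SP.Seq
import Pool.Agent.D0H40.SP.Win
import Pool.Agent.D0H40.AR.Shift

/-! Windows of oscillating sums over the primes. -/

set_option autoImplicit false

namespace Pool.Agent.D0H40.SP

open MeasureTheory Filter Topology Set
open Pool.Agent.W263.BSD hiding ph
open Pool.Agent.D0H40.CX
open Pool.Agent.D0H40.AR
open Pool.Agent.W401.Cheb (pr M mem_pr)

variable {θ : ℝ}

/-- the terms after Abel summation -/
noncomputable def fP (θ : ℝ) (n : ℕ) : ℂ :=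
  (∑ i ∈ Finset.range (n + 1), (pa i : ℂ)) * (ph θ n - ph θ (n + 1))

theorem pr_split (θ : ℝ) {N : ℕ} (hN : 3 ≤ N) : ∑ p ∈ pr N, pw θ p =
    (∑ n ∈ Finset.range (N + 1), (pa n : ℂ)) * ph θ (N + 1) + ∑ n ∈ Finset.range (N + 1), fP θ n +
      ∑ n ∈ Finset.range (N - 1), (Real.log ((n : ℝ) + 2))⁻¹ • pw θ ((n : ℝ) + 2) := by
  have h1 : ∑ n ∈ Finset.range (N - 1), (Real.log ((n : ℝ) + 2))⁻¹ • pw θ ((n : ℝ) + 2) =
      ∑ n ∈ Finset.range (N + 1), if n < 2 then 0 else ph θ n := by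
    have h2 : N + 1 = (N - 1) + 2 := by omega
    rw [h2, Finset.sum_range_succ' , Finset.sum_range_succ']
    simp only [zero_add, Nat.zero_lt_succ, if_true, add_zero]
    rw [if_pos (by norm_num : (1:ℕ) < 2), add_zero]
    refine Finset.sum_congr rfl fun n _ => ?_
    rw [if_neg (by omega)]
    unfold ph
    push_cast
    rw [add_assoc]
    norm_num
  have h2 := abelC (fun n => (pa n : ℂ)) (ph θ) N
  unfold fP
  rw [← h2, h1, ← Finset.sum_add_distrib]
  unfold pr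
  rw [Finset.sum_filter]
  refine Finset.sum_congr rfl fun n _ => ?_
  unfold pa ph
  by_cases hn : n < 2
  · have : ¬ n.Prime := by
      intro h
      have := h.two_le
      omega
    rw [if_neg this, if_pos hn, if_pos hn]
    simp
  · rw [if_neg hn, if_neg hn]
    by_cases hp : n.Prime
    · rw [if_pos hp, if_pos hp]
      have hl : Real.log n ≠ 0 := (Real.log_pos (by exact_mod_cast hp.one_lt)).ne'
      have hl' : ((Real.log n : ℝ) : ℂ) ≠ 0 := by exact_mod_cast hl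
      simp only [Complex.real_smul, Complex.ofReal_sub, Complex.ofReal_one, Complex.ofReal_inv]
      field_simp
      ring
    · rw [if_neg hp, if_neg hp]
      push_cast
      ring

theorem t_one (θ : ℝ) : Tendsto (fun N : ℕ => (∑ n ∈ Finset.range (N + 1), (pa n : ℂ)) * ph θ (N + 1))
    atTop (𝓝 0) := by
  obtain ⟨C₁, hC₁0, hC₁⟩ := pa_bound (ε := 1) one_pos
  have h1 : Tendsto (fun N : ℕ => (1 + C₁) / Real.log ((N + 1 : ℕ) : ℝ)) atTop (𝓝 0) := by
    refine Tendsto.const_div_atTop ?_ _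
    exact Real.tendsto_log_atTop.comp (tendsto_natCast_atTop_atTop.comp (tendsto_add_atTop_nat 1))
  refine squeeze_zero_norm' ?_ h1
  filter_upwards [eventually_ge_atTop 2] with N hN
  have hN2 : (2 : ℝ) ≤ N := by exact_mod_cast hN
  have hl : 0 < Real.log ((N + 1 : ℕ) : ℝ) := Real.log_pos (by push_cast; linarith)
  have hA : ‖∑ i ∈ Finset.range (N + 1), (pa i : ℂ)‖ ≤ 1 * N + C₁ := by
    rw [← Complex.ofReal_sum, Complex.norm_real]
    exact hC₁ N
  rw [norm_mul]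
  unfold ph
  rw [norm_smul, pw_norm θ (by positivity), Real.norm_of_nonneg (inv_pos.2 hl).le]
  have h2 : 1 * (N : ℝ) + C₁ ≤ (1 + C₁) * ((N + 1 : ℕ) : ℝ) := by
    push_cast
    nlinarith
  refine (mul_le_mul_of_nonneg_right (hA.trans h2) (by positivity)).trans (le_of_eq ?_)
  have : ((N + 1 : ℕ) : ℝ) ≠ 0 := by positivity
  field_simp

theorem inv_log_step {N : ℕ} (hN : 2 ≤ N) : (((N + 1 : ℕ) : ℝ) * Real.log ((N + 1 : ℕ) : ℝ))⁻¹ ≤
    Real.log (Real.log ((N + 1 : ℕ) : ℝ)) - Real.log (Real.log N) := by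
  have h1 : (2 : ℝ) ≤ N := by exact_mod_cast hN
  have hcast : ((N + 1 : ℕ) : ℝ) = (N : ℝ) + 1 := by push_cast; rfl
  have hl : 0 < Real.log N := Real.log_pos (by linarith)
  have hl1 : 0 < Real.log ((N + 1 : ℕ) : ℝ) := Real.log_pos (by rw [hcast]; linarith)
  -- `log (log (N+1) / log N) ≥ 1 - log N / log (N+1) ≥ 1 / ((N+1) log (N+1))`
  have h2 := Real.one_sub_inv_le_log_of_pos (show 0 < Real.log ((N + 1 : ℕ) : ℝ) / Real.log N by positivity)
  rw [Real.log_div hl1.ne' hl.ne', inv_div] at h2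
  refine le_trans ?_ h2
  have h3 := Real.one_sub_inv_le_log_of_pos (show 0 < ((N + 1 : ℕ) : ℝ) / N by positivity)
  rw [Real.log_div (by positivity) (by linarith), inv_div] at h3
  have h4 : 1 - Real.log N / Real.log ((N + 1 : ℕ) : ℝ) =
      (Real.log ((N + 1 : ℕ) : ℝ) - Real.log N) * (Real.log ((N + 1 : ℕ) : ℝ))⁻¹ := by
    field_simp
  have h5 : 1 - (N : ℝ) / ((N + 1 : ℕ) : ℝ) = (((N + 1 : ℕ) : ℝ))⁻¹ := by
    rw [hcast]
    field_simp
    ring
  rw [h4, mul_inv]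
  rw [h5] at h3
  exact mul_le_mul_of_nonneg_right h3 (inv_pos.2 hl1).le

/-- a bound for the windows -/
theorem fP_window (θ : ℝ) {ε : ℝ} (hε : 0 < ε) : ∃ C : ℝ, 0 ≤ C ∧ ∀ m n : ℕ, 3 ≤ m → m ≤ n →
    ‖∑ i ∈ Finset.range (n + 1), fP θ i - ∑ i ∈ Finset.range (m + 1), fP θ i‖ ≤
      ε * (Real.log (Real.log n) - Real.log (Real.log m)) +
      C * (∑ i ∈ Finset.range (n + 1), (1 : ℝ) / ((i : ℝ) + 1) ^ 2 -
        ∑ i ∈ Finset.range (m + 1), (1 : ℝ) / ((i : ℝ) + 1) ^ 2) := by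
  set B : ℝ := ct θ + 1 with hB
  have hB0 : 0 < B := by
    have := ct_nonneg θ
    linarith
  obtain ⟨C₁, hC₁0, hC₁⟩ := pa_bound (ε := ε / B) (by positivity)
  have hA : ∀ n, ‖∑ i ∈ Finset.range (n + 1), (pa i : ℂ)‖ ≤ ε / B * n + C₁ := by
    intro n
    rw [← Complex.ofReal_sum, Complex.norm_real]
    exact hC₁ n
  have hfn : ∀ n : ℕ, 3 ≤ n → ‖fP θ n‖ ≤ ε * ((n : ℝ) * Real.log n)⁻¹ + (C₁ * B * 4) * (1 / ((n : ℝ) + 1) ^ 2) := by
    intro n hn
    have h3 : (3 : ℝ) ≤ n := by exact_mod_cast hn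
    have hl1 : 1 ≤ Real.log n := by
      rw [Real.le_log_iff_exp_le (by linarith)]
      have := Real.exp_one_lt_d9
      linarith
    unfold fP
    rw [norm_mul]
    have hnn : 0 ≤ ε / B * n + C₁ := by positivity
    refine (mul_le_mul (hA n) (ph_diff θ (by omega)) (norm_nonneg _) hnn).trans ?_
    rw [← hB, add_mul]
    have e1 : ε / B * n * (B / ((n : ℝ) ^ 2 * Real.log n)) = ε * ((n : ℝ) * Real.log n)⁻¹ := by
      field_simp
    rw [e1]
    have h4 : B / ((n : ℝ) ^ 2 * Real.log n) ≤ B * (4 * (1 / ((n : ℝ) + 1) ^ 2)) := by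
      rw [div_eq_mul_one_div]
      refine mul_le_mul_of_nonneg_left ?_ hB0.le
      rw [mul_one_div, div_le_div_iff₀ (by positivity) (by positivity)]
      nlinarith
    have := mul_le_mul_of_nonneg_left h4 hC₁0
    linarith
  refine ⟨C₁ * B * 4, by positivity, fun m n hm hmn => ?_⟩
  induction n, hmn using Nat.le_induction with
  | base => simp
  | succ N hN ih =>
    rw [Finset.sum_range_succ (fun i => fP θ i) (N + 1),
      Finset.sum_range_succ (fun i : ℕ => (1 : ℝ) / ((i : ℝ) + 1) ^ 2) (N + 1)]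
    have h1 := hfn (N + 1) (by omega)
    have h2 := mul_le_mul_of_nonneg_left (inv_log_step (N := N) (by omega)) hε.le
    have e1 : ∑ i ∈ Finset.range (N + 1), fP θ i + fP θ (N + 1) - ∑ i ∈ Finset.range (m + 1), fP θ i =
        (∑ i ∈ Finset.range (N + 1), fP θ i - ∑ i ∈ Finset.range (m + 1), fP θ i) + fP θ (N + 1) := by ring
    rw [e1]
    refine (norm_add_le _ _).trans ?_
    linarith

theorem ll_half : Tendsto (fun u : ℝ => Real.log (Real.log ⌊Real.exp u⌋₊) -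
    Real.log (Real.log ⌊Real.exp (u / 2)⌋₊)) atTop (𝓝 (Real.log 2)) := by
  have h1 := ll_tend.sub (ll_tend.comp (tendsto_id.atTop_div_const (two_pos : (0 : ℝ) < 2)))
  rw [sub_zero] at h1
  have h2 := h1.add_const (Real.log 2)
  rw [zero_add] at h2
  refine h2.congr' ?_
  filter_upwards [eventually_gt_atTop 0] with u hu
  simp only [Function.comp_apply, id]
  rw [Real.log_div hu.ne' two_ne_zero]
  ring

theorem half_top : Tendsto (fun u : ℝ => u / 2) atTop atTop := tendsto_id.atTop_div_const two_pos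

theorem conv_window {g : ℕ → ℝ} {b : ℝ} (h : Tendsto g atTop (𝓝 b)) :
    Tendsto (fun u : ℝ => g ⌊Real.exp u⌋₊ - g ⌊Real.exp (u / 2)⌋₊) atTop (𝓝 0) := by
  have h1 := (h.comp fe_top).sub (h.comp (fe_top.comp half_top))
  rw [sub_self] at h1
  exact h1

theorem conv_windowC {g : ℕ → ℂ} {b : ℂ} (h : Tendsto g atTop (𝓝 b)) :
    Tendsto (fun u : ℝ => g ⌊Real.exp u⌋₊ - g ⌊Real.exp (u / 2)⌋₊) atTop (𝓝 0) := by
  have h1 := (h.comp fe_top).sub (h.comp (fe_top.comp half_top))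
  rw [sub_self] at h1
  exact h1

theorem t_two (θ : ℝ) : Tendsto (fun u : ℝ => ∑ i ∈ Finset.range (⌊Real.exp u⌋₊ + 1), fP θ i -
    ∑ i ∈ Finset.range (⌊Real.exp (u / 2)⌋₊ + 1), fP θ i) atTop (𝓝 0) := by
  rw [Metric.tendsto_atTop']
  intro δ hδ
  obtain ⟨C, hC, hb⟩ := fP_window θ (half_pos hδ)
  have hs : Tendsto (fun n : ℕ => ∑ i ∈ Finset.range (n + 1), (1 : ℝ) / ((i : ℝ) + 1) ^ 2) atTop
      (𝓝 (∑' i : ℕ, (1 : ℝ) / ((i : ℝ) + 1) ^ 2)) :=
    (inv_sq_summable.hasSum.tendsto_sum_nat).comp (tendsto_add_atTop_nat 1)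
  have h1 := (ll_half.const_mul (δ / 2)).add ((conv_window hs).const_mul C)
  rw [mul_zero, add_zero] at h1
  have h2 : δ / 2 * Real.log 2 < δ := by
    have := Real.log_two_lt_d9
    nlinarith
  obtain ⟨U, hU⟩ := eventually_atTop.mp ((h1.eventually (gt_mem_nhds h2)).and
    ((eventually_ge_atTop 0).and ((fe_top.comp half_top).eventually (eventually_ge_atTop 3))))
  refine ⟨U, fun u hu => ?_⟩
  obtain ⟨h3, h4, h5⟩ := hU u hu.le
  rw [dist_zero_right]
  exact (hb _ _ h5 (floor_mono h4)).trans_lt h3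

/-- windows of `p^(-1-iθ)` -/
theorem wdw_pw (hθ : θ ≠ 0) : Tendsto (wdw fun p => pw θ p) atTop (𝓝 0) := by
  obtain ⟨K, hK⟩ := pw_partial hθ
  have hanti : Antitone fun n : ℕ => (Real.log ((n : ℝ) + 2))⁻¹ := by
    intro m n hmn
    have h1 : (m : ℝ) ≤ n := by exact_mod_cast hmn
    have h2 : 0 < Real.log ((m : ℝ) + 2) := Real.log_pos (by
      have : (0:ℝ) ≤ m := Nat.cast_nonneg m
      linarith)
    refine inv_anti₀ h2 (Real.log_le_log (by positivity) (by linarith))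
  have hlim : Tendsto (fun n : ℕ => (Real.log ((n : ℝ) + 2))⁻¹) atTop (𝓝 0) := by
    refine tendsto_inv_atTop_zero.comp (Real.tendsto_log_atTop.comp ?_)
    exact tendsto_atTop_add_const_right _ _ tendsto_natCast_atTop_atTop
  obtain ⟨b, hb⟩ := cauchySeq_tendsto_of_complete
    (hanti.cauchySeq_series_mul_of_tendsto_zero_of_bounded hlim hK)
  have hb' : Tendsto (fun N : ℕ => ∑ n ∈ Finset.range (N - 1),
      (Real.log ((n : ℝ) + 2))⁻¹ • pw θ ((n : ℝ) + 2)) atTop (𝓝 b) := hb.comp (tendsto_sub_atTop_nat 1)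
  have h := ((conv_windowC (t_one θ)).add (t_two θ)).add (conv_windowC hb')
  rw [add_zero, add_zero] at h
  refine h.congr' ?_
  filter_upwards [eventually_ge_atTop 0, (fe_top.comp half_top).eventually (eventually_ge_atTop 3)] with u h1 h2
  have h2' : 3 ≤ ⌊Real.exp (u / 2)⌋₊ := h2
  unfold wdw
  rw [pr_split θ (h2'.trans (floor_mono h1)), pr_split θ h2']
  ring

/-- windows of a sequence with a mean value against `p^(-1-iθ)` -/
theorem wdw_osc (hθ : θ ≠ 0) {c : ℕ → ℂ} {μ : ℂ} (hre : Tendsto (M fun p => (c p).re) atTop (𝓝 μ.re))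
    (him : Tendsto (M fun p => (c p).im) atTop (𝓝 μ.im)) :
    Tendsto (wdw fun p => c p * pw θ p) atTop (𝓝 0) := by
  have h1 := wdw_zero (fun p => c p - μ) θ fun ε hε => by
    obtain ⟨C₁, h1, h2⟩ := mean_T hre (half_pos hε)
    obtain ⟨C₂, h3, h4⟩ := mean_T him (half_pos hε)
    refine ⟨C₁ + C₂, by linarith, fun N => ?_⟩
    refine (Complex.norm_le_abs_re_add_abs_im _).trans ?_
    rw [Complex.re_sum, Complex.im_sum]
    have h5 := h2 N
    have h6 := h4 N
    simp only [Complex.sub_re, Complex.sub_im]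
    linarith
  have h2 := h1.add ((wdw_pw hθ).const_mul μ)
  rw [mul_zero, add_zero] at h2
  refine h2.congr fun u => ?_
  unfold wdw
  simp only [sub_mul, Finset.sum_sub_distrib, ← Finset.mul_sum]
  ring

variable {G : ℕ → Prop} {d : ℕ} {α : ℕ → Fin d → ℂ}

/-- the windows of the shifted family -/
theorem win_shift (H : Par G α) {γ : ℝ} (hγ : γ ≠ 0) {c : ℕ → ℂ} {μ : ℂ}
    (hc : ∀ p, c p = (open Classical in if G p then ∑ j, α p j ^ 2 else 0))
    (hre : Tendsto (M fun p => (c p).re) atTop (𝓝 μ.re))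
    (him : Tendsto (M fun p => (c p).im) atTop (𝓝 μ.im)) :
    Tendsto (win G (sh γ α)) atTop (𝓝 0) := by
  have h1 := wdw_osc (θ := 2 * γ) (by simpa using hγ) hre him
  have h2 := (Complex.continuous_re.tendsto 0).comp h1
  rw [Complex.zero_re] at h2
  refine h2.congr fun u => ?_
  have hG : ∀ p, G p → 0 < p := fun p hp => (H.prime p hp).pos
  have e : ∀ N : ℕ, ∑ p ∈ pr N, bG G (sh γ α) p / p = (∑ p ∈ pr N, c p * pw (2 * γ) p).re := by
    intro N
    rw [Complex.re_sum, bG_shift hG γ hc]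
    refine Finset.sum_congr rfl fun p hp => ?_
    have hp0 : p ≠ 0 := (mem_pr.1 hp).2.ne_zero
    have hpc : (p : ℂ) ≠ 0 := by exact_mod_cast hp0
    have e1 : pw (2 * γ) p = (p : ℂ) ^ (-(((2 * γ : ℝ) : ℂ) * Complex.I)) * (((p : ℝ)⁻¹ : ℝ) : ℂ) := by
      unfold pw
      rw [neg_add, Complex.cpow_add _ _ (by exact_mod_cast hp0), Complex.cpow_neg_one, mul_comm]
      push_cast
      rfl
    rw [e1, ← mul_assoc, Complex.re_mul_ofReal, div_eq_mul_inv]
  simp only [Function.comp_apply]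
  unfold win wdw
  rw [stp_bb (H.shift γ), stp_bb (H.shift γ), e, e, Complex.sub_re]

end Pool.Agent.D0H40.SP
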